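import Pool.Agent.Lib.MP_8a3537_gt.UV.Spec

/-! Module TRE: the ping-pong data of an edge of a tree. -/

namespace Pool.Agent.Lib.MP8a3537.UV

open Matrix

namespace TREAux

variable {G V : Type} [Group G] [MulAction G V] {T : SimpleGraph V}

/-- The branch at `x` through `y`. -/
def Br (T : SimpleGraph V) (x y : V) : Set V := {u | T.dist u y < T.dist u x}

theorem mem_Br {x y u : V} : u ∈ Br T x y ↔ T.dist u y < T.dist u x := Iff.rfl

theorem dist_smul_le (hT : T.IsTree) (hG : ∀ (g : G) (x y : V), T.Adj x y → T.Adj (g • x) (g • y))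
    (g : G) (x y : V) : T.dist (g • x) (g • y) ≤ T.dist x y := by
  obtain ⟨p, hp⟩ := hT.connected.exists_walk_length_eq_dist x y
  let f : T →g T := ⟨fun x => g • x, fun {a b} h => hG g a b h⟩
  have := SimpleGraph.dist_le (p.map f)
  rw [SimpleGraph.Walk.length_map, hp] at this
  exact this

theorem dist_smul (hT : T.IsTree) (hG : ∀ (g : G) (x y : V), T.Adj x y → T.Adj (g • x) (g • y))
    (g : G) (x y : V) : T.dist (g • x) (g • y) = T.dist x y := by
  apply le_antisymm (dist_smul_le hT hG g x y)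
  have := dist_smul_le hT hG g⁻¹ (g • x) (g • y)
  simpa using this

theorem br_unique (hT : T.IsTree) {x y y' u : V} (h : T.Adj x y) (h' : T.Adj x y')
    (hy : u ∈ Br T x y) (hy' : u ∈ Br T x y') : y = y' := by
  rw [mem_Br] at hy hy'
  have key : ∀ z, T.Adj x z → T.dist u z < T.dist u x →
      ∃ (hz : T.Adj x z) (q : T.Walk z u), (SimpleGraph.Walk.cons hz q).IsPath := by
    intro z hz hlt
    obtain ⟨q, hq⟩ := hT.connected.exists_walk_length_eq_dist z u
    refine ⟨hz, q, ?_⟩
    apply SimpleGraph.Walk.isPath_of_length_eq_dist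
    rw [SimpleGraph.Walk.length_cons, hq]
    have h1 := hT.dist_eq_dist_add_one_of_adj u hz
    rw [T.dist_comm (u := z), T.dist_comm (u := x)]
    omega
  obtain ⟨h1, q1, p1⟩ := key y h hy
  obtain ⟨h2, q2, p2⟩ := key y' h' hy'
  have := (hT.isAcyclic.subsingleton_path x u).elim ⟨_, p1⟩ ⟨_, p2⟩
  have e : SimpleGraph.Walk.cons h1 q1 = SimpleGraph.Walk.cons h2 q2 := congrArg Subtype.val this
  have := congrArg SimpleGraph.Walk.snd e
  simpa using this

theorem br_or (hT : T.IsTree) {x y : V} (h : T.Adj x y) (u : V) :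
    u ∈ Br T x y ∨ u ∈ Br T y x := by
  rw [mem_Br, mem_Br]
  have := hT.dist_ne_of_adj u h
  omega

theorem br_sub (hT : T.IsTree) {x y y' : V} (h : T.Adj x y) (h' : T.Adj x y') (hne : y' ≠ y) :
    Br T x y' ⊆ Br T y x := by
  intro u hu
  rcases br_or hT h u with h1 | h1
  · exact absurd (br_unique hT h' h hu h1) hne
  · exact h1

theorem mem_self {x y : V} (h : T.Adj x y) : y ∈ Br T x y := by
  rw [mem_Br, SimpleGraph.dist_self, SimpleGraph.dist_comm, SimpleGraph.dist_eq_one_iff_adj.mpr h]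
  exact one_pos

theorem not_mem (x y : V) : x ∉ Br T x y := by
  rw [mem_Br, SimpleGraph.dist_self]
  exact Nat.not_lt_zero _

theorem smul_Br (hT : T.IsTree) (hG : ∀ (g : G) (x y : V), T.Adj x y → T.Adj (g • x) (g • y))
    (g : G) {x y u : V} (h : u ∈ Br T x y) : g • u ∈ Br T (g • x) (g • y) := by
  rw [mem_Br, dist_smul hT hG, dist_smul hT hG]
  exact h

/-- The set `Y`. -/
def YY (G : Type) {V : Type} [Group G] [MulAction G V] (T : SimpleGraph V) (v w : V) : Set G :=
  {g | g • w ∈ Br T v w ∧ (g • v ∈ Br T v w ∨ g • v = v)}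

section
variable {v w : V}

theorem YY_one (h : T.Adj v w) : (1 : G) ∈ YY G T v w := by
  refine ⟨?_, Or.inr ?_⟩
  · rw [one_smul]; exact mem_self h
  · rw [one_smul]

theorem YY_mul (hT : T.IsTree) (hG : ∀ (g : G) (x y : V), T.Adj x y → T.Adj (g • x) (g • y))
    {h : G} (hv : h • v = v) (hw : h • w = w) {y : G} (hy : y ∈ YY G T v w) :
    h * y ∈ YY G T v w := by
  obtain ⟨h1, h2⟩ := hy
  refine ⟨?_, ?_⟩
  · have := smul_Br hT hG h h1
    rwa [hv, hw, smul_smul] at this
  · rcases h2 with h2 | h2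
    · left
      have := smul_Br hT hG h h2
      rwa [hv, hw, smul_smul] at this
    · right
      rw [mul_smul, h2, hv]

theorem F_Y (hT : T.IsTree) (hG : ∀ (g : G) (x y : V), T.Adj x y → T.Adj (g • x) (g • y))
    (ha : T.Adj v w) {x y : G} (hx : x • v = v ∧ x • w ≠ w) (hy : y ∈ YY G T v w) :
    x * y ∈ YY G T w v := by
  obtain ⟨hx1, hx2⟩ := hx
  obtain ⟨h1, h2⟩ := hy
  have hau : T.Adj v (x • w) := by
    have := hG x v w ha
    rwa [hx1] at this
  have hsub : Br T v (x • w) ⊆ Br T w v := br_sub hT ha hau hx2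
  have e1 : (x * y) • w ∈ Br T w v := by
    have := smul_Br hT hG x h1
    rw [hx1, smul_smul] at this
    exact hsub this
  refine ⟨?_, Or.inl e1⟩
  rcases h2 with h2 | h2
  · have := smul_Br hT hG x h2
    rw [hx1, smul_smul] at this
    exact hsub this
  · rw [mul_smul, h2, hx1]
    exact mem_self ha.symm

theorem M_Y (hT : T.IsTree) (hG : ∀ (g : G) (x y : V), T.Adj x y → T.Adj (g • x) (g • y))
    (ha : T.Adj v w) {x y : G} (hx : x • v = w) (hx2 : x • w ≠ v) (hy : y ∈ YY G T v w) :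
    x * y ∈ YY G T v w := by
  obtain ⟨h1, h2⟩ := hy
  have hau : T.Adj w (x • w) := by
    have := hG x v w ha
    rwa [hx] at this
  have hsub : Br T w (x • w) ⊆ Br T v w := br_sub hT ha.symm hau hx2
  refine ⟨?_, ?_⟩
  · have := smul_Br hT hG x h1
    rw [hx, smul_smul] at this
    exact hsub this
  · left
    rcases h2 with h2 | h2
    · have := smul_Br hT hG x h2
      rw [hx, smul_smul] at this
      exact hsub this
    · rw [mul_smul, h2, hx]
      exact mem_self ha

theorem d_ne (hT : T.IsTree) (hG : ∀ (g : G) (x y : V), T.Adj x y → T.Adj (g • x) (g • y))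
    (ha : T.Adj v w) (hinv : ∀ g : G, ¬ (g • v = w ∧ g • w = v)) {x y x' y' : G}
    (hx : x • w = w) (hy : y ∈ YY G T w v) (hx' : x' • v = w) (hy' : y' ∈ YY G T v w) :
    x * y ≠ x' * y' := by
  intro e
  obtain ⟨h1, h2⟩ := hy
  obtain ⟨h1', _⟩ := hy'
  have a1 : T.Adj w (x • v) := by
    have := hG x w v ha.symm
    rwa [hx] at this
  have a2 : T.Adj w (x' • w) := by
    have := hG x' v w ha
    rwa [hx'] at this
  have e2 : (x' * y') • w ∈ Br T w (x' • w) := by
    have := smul_Br hT hG x' h1'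
    rwa [hx', smul_smul] at this
  rw [← e] at e2
  have e1 : (x * y) • w ∈ Br T w (x • v) := by
    rcases h2 with h2 | h2
    · have := smul_Br hT hG x h2
      rwa [hx, smul_smul] at this
    · exfalso
      rw [mul_smul, h2, hx] at e2
      exact not_mem _ _ e2
  have e3 : x • v = x' • w := br_unique hT a1 a2 e1 e2
  apply hinv (x⁻¹ * x')
  refine ⟨?_, ?_⟩
  · rw [mul_smul, hx', inv_smul_eq_iff, hx]
  · rw [mul_smul, inv_smul_eq_iff, e3]

theorem u_F (hT : T.IsTree) (hG : ∀ (g : G) (x y : V), T.Adj x y → T.Adj (g • x) (g • y))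
    (ha : T.Adj v w) {c : V} {x y x' y' : G}
    (hx : x • v = c) (hy : y ∈ YY G T v w) (hx' : x' • v = c) (hy' : y' ∈ YY G T v w)
    (e : x * y = x' * y') : (x⁻¹ * x') • v = v ∧ (x⁻¹ * x') • w = w := by
  obtain ⟨h1, _⟩ := hy
  obtain ⟨h1', _⟩ := hy'
  have a1 : T.Adj c (x • w) := by
    have := hG x v w ha
    rwa [hx] at this
  have a2 : T.Adj c (x' • w) := by
    have := hG x' v w ha
    rwa [hx'] at this
  have e1 : (x * y) • w ∈ Br T c (x • w) := by
    have := smul_Br hT hG x h1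
    rwa [hx, smul_smul] at this
  have e2 : (x' * y') • w ∈ Br T c (x' • w) := by
    have := smul_Br hT hG x' h1'
    rwa [hx', smul_smul] at this
  rw [← e] at e2
  have e3 : x • w = x' • w := br_unique hT a1 a2 e1 e2
  refine ⟨?_, ?_⟩
  · rw [mul_smul, hx', inv_smul_eq_iff, hx]
  · rw [mul_smul, inv_smul_eq_iff, e3]

end

end TREAux

open TREAux in
theorem specTRE : SpecTRE := by
  intro G V _ _ T v w hT hG ha hinv htwo
  have hinv' : ∀ g : G, ¬ (g • w = v ∧ g • v = w) := fun g h => hinv g ⟨h.2, h.1⟩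
  refine ⟨YY G T v w, YY G T w v, ?_⟩
  have memH : ∀ h : G, h ∈ (MulAction.stabilizer G v ⊓ MulAction.stabilizer G w) ↔
      h • v = v ∧ h • w = w := fun h => by
    rw [Subgroup.mem_inf, MulAction.mem_stabilizer_iff, MulAction.mem_stabilizer_iff]
  have memX : ∀ x : G, x ∈ Xinv {g : G | g • v = w} ↔ x • w = v := fun x => by
    change x⁻¹ • v = w ↔ x • w = v
    rw [inv_smul_eq_iff]
    exact eq_comm
  constructor
  · -- X1l
    intro h hh x hx
    rw [memH] at hh
    refine ⟨by rw [mul_smul, hx.1, hh.1], fun e => hx.2 ?_⟩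
    rw [mul_smul] at e
    have := congrArg (fun z => h⁻¹ • z) e
    simp only [inv_smul_smul] at this
    rw [this, inv_smul_eq_iff, hh.2]
  · -- X1r
    intro h hh x hx
    rw [memH] at hh
    exact ⟨by rw [mul_smul, hh.1, hx.1], by rw [mul_smul, hh.2]; exact hx.2⟩
  · -- X1i
    intro x hx
    exact ⟨by rw [inv_smul_eq_iff, hx.1], fun e => hx.2 (by rw [inv_smul_eq_iff] at e; exact e.symm)⟩
  · -- X1n
    intro x hx e
    have : x * x = 1 := by
      nth_rewrite 1 [← e]
      exact inv_mul_cancel x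
    exact hx.2 ((htwo x this).mp hx.1)
  · intro h hh x hx
    rw [memH] at hh
    refine ⟨by rw [mul_smul, hx.1, hh.2], fun e => hx.2 ?_⟩
    rw [mul_smul] at e
    have := congrArg (fun z => h⁻¹ • z) e
    simp only [inv_smul_smul] at this
    rw [this, inv_smul_eq_iff, hh.1]
  · intro h hh x hx
    rw [memH] at hh
    exact ⟨by rw [mul_smul, hh.2, hx.1], by rw [mul_smul, hh.1]; exact hx.2⟩
  · intro x hx
    exact ⟨by rw [inv_smul_eq_iff, hx.1], fun e => hx.2 (by rw [inv_smul_eq_iff] at e; exact e.symm)⟩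
  · intro x hx e
    have : x * x = 1 := by
      nth_rewrite 1 [← e]
      exact inv_mul_cancel x
    exact hx.2 ((htwo x this).mpr hx.1)
  · -- X3l
    intro h hh x hx
    rw [memH] at hh
    change (h * x) • v = w
    rw [mul_smul, show x • v = w from hx, hh.2]
  · intro h hh x hx
    rw [memH] at hh
    change (x * h) • v = w
    rw [mul_smul, hh.1]
    exact hx
  · exact YY_one ha
  · exact YY_one ha.symm
  · intro h hh y hy
    rw [memH] at hh
    exact YY_mul hT hG hh.1 hh.2 hy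
  · intro h hh y hy
    rw [memH] at hh
    exact YY_mul hT hG hh.2 hh.1 hy
  · intro x hx y hy
    exact F_Y hT hG ha hx hy
  · intro x hx y hy
    exact F_Y hT hG ha.symm hx hy
  · intro x hx y hy
    exact M_Y hT hG ha hx (fun e => hinv x ⟨hx, e⟩) hy
  · intro x hx y hy
    rw [memX] at hx
    exact M_Y hT hG ha.symm hx (fun e => hinv x ⟨e, hx⟩) hy
  · -- d23
    intro x hx y hy x' hx' y' hy'
    exact d_ne hT hG ha hinv hx.1 hy hx' hy'
  · intro x hx y hy x' hx' y' hy'
    rw [memX] at hx'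
    exact d_ne hT hG ha.symm hinv' hx.1 hy hx' hy'
  · intro x hx x' hx' y hy y' hy' e
    rw [memH]
    exact u_F hT hG ha hx.1 hy hx'.1 hy' e
  · intro x hx x' hx' y hy y' hy' e
    rw [memH]
    exact (u_F hT hG ha.symm hx.1 hy hx'.1 hy' e).symm
  · intro x hx x' hx' y hy y' hy' e
    rw [memH]
    exact u_F hT hG ha hx hy hx' hy' e
  · intro x hx x' hx' y hy y' hy' e
    rw [memX] at hx hx'
    rw [memH]
    exact (u_F hT hG ha.symm hx hy hx' hy' e).symm

end Pool.Agent.Lib.MP8a3537.UV
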