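import Pool.Agent.Lib.MP_8a3537_gt.UV.Spec

/-!
# UV, module SWP: exchange of the two summands, change of `ψ`, `χ`, the trivial form
-/

namespace Pool.Agent.Lib.MP8a3537.UV

open Matrix

namespace SWPAux

variable {A : Type} [Ring A] [StarRing A] {ε : ℤˣ}

theorem isom_trans {ι κ τ : Type} [Fintype ι] [DecidableEq ι] [Fintype κ] [DecidableEq κ]
    [Fintype τ] [DecidableEq τ] {Ψ : Matrix ι ι A} {Φ : Matrix κ κ A} {Ξ : Matrix τ τ A}
    (h₁ : Isometric ε Ψ Φ) (h₂ : Isometric ε Φ Ξ) : Isometric ε Ψ Ξ := by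
  obtain ⟨u, v, Z, huv, hvu, hΦ⟩ := h₁
  obtain ⟨w, x, Y, hwx, hxw, hΞ⟩ := h₂
  refine ⟨u * w, x * v, wᴴ * Z * w + Y, ?_, ?_, ?_⟩
  · calc u * w * (x * v) = u * (w * x) * v := by simp only [Matrix.mul_assoc]
      _ = 1 := by rw [hwx, Matrix.mul_one, huv]
  · calc x * v * (u * w) = x * (v * u) * w := by simp only [Matrix.mul_assoc]
      _ = 1 := by rw [hvu, Matrix.mul_one, hxw]
  · rw [hΞ, hΦ]
    simp only [conjTranspose_add, conjTranspose_mul, conjTranspose_conjTranspose, smul_add,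
      Matrix.mul_add, Matrix.add_mul, Matrix.mul_sub, Matrix.sub_mul, Matrix.mul_assoc,
      Matrix.mul_smul, Matrix.smul_mul]
    abel

theorem isom_sum {ι κ τ : Type} [Fintype ι] [DecidableEq ι] [Fintype κ] [DecidableEq κ]
    [Fintype τ] [DecidableEq τ] {Ψ : Matrix ι ι A} {Φ : Matrix κ κ A} (Ξ : Matrix τ τ A)
    (h : Isometric ε Ψ Φ) :
    Isometric ε (fromBlocks Ψ 0 0 Ξ) (fromBlocks Φ 0 0 Ξ) := by
  obtain ⟨u, v, Z, huv, hvu, hΦ⟩ := h
  refine ⟨fromBlocks u 0 0 1, fromBlocks v 0 0 1, fromBlocks Z 0 0 0, ?_, ?_, ?_⟩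
  · rw [fromBlocks_multiply]
    simp [huv, fromBlocks_one]
  · rw [fromBlocks_multiply]
    simp [hvu, fromBlocks_one]
  · rw [fromBlocks_conjTranspose, fromBlocks_conjTranspose, fromBlocks_multiply,
      fromBlocks_multiply, fromBlocks_smul, fromBlocks_add, sub_eq_add_neg, fromBlocks_neg,
      fromBlocks_add, hΦ]
    simp [sub_eq_add_neg]

theorem stab_of_isom {ι κ : Type} [Fintype ι] [DecidableEq ι] [Fintype κ] [DecidableEq κ]
    {Ψ : Matrix ι ι A} {Φ : Matrix κ κ A} (h : Isometric ε Ψ Φ) (hΦ : StablyHyperbolic ε Φ) :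
    StablyHyperbolic ε Ψ := by
  obtain ⟨m, n, hmn⟩ := hΦ
  exact ⟨m, n, isom_trans (isom_sum _ h) hmn⟩

theorem swap {n : ℕ} (ψ μ χ : Matrix (Fin n) (Fin n) A) :
    Isometric ε (UF ψ μ χ) (UF χ μᴴ ψ) := by
  refine ⟨fromBlocks 0 ((ε : ℤ) • 1) 1 0, fromBlocks 0 1 ((ε : ℤ) • 1) 0,
    fromBlocks 0 (1 + μ) 0 0, ?_, ?_, ?_⟩
  · rw [fromBlocks_multiply]
    rcases Int.units_eq_one_or ε with h | h <;> simp [h, fromBlocks_one]
  · rw [fromBlocks_multiply]
    rcases Int.units_eq_one_or ε with h | h <;> simp [h, fromBlocks_one]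
  · unfold UF
    rw [fromBlocks_conjTranspose, fromBlocks_conjTranspose, fromBlocks_multiply,
      fromBlocks_multiply, fromBlocks_smul, fromBlocks_add, sub_eq_add_neg, fromBlocks_neg,
      fromBlocks_add]
    rcases Int.units_eq_one_or ε with h | h
    · simp [h]
    · simp [h]
      abel

theorem change {n : ℕ} (ψ μ χ c d : Matrix (Fin n) (Fin n) A) :
    Isometric ε (UF (ψ + c - (ε : ℤ) • cᴴ) μ (χ + d - (ε : ℤ) • dᴴ)) (UF ψ μ χ) := by
  refine ⟨1, 1, fromBlocks (-c) 0 0 (-d), by simp, by simp, ?_⟩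
  unfold UF
  rw [conjTranspose_one, Matrix.one_mul, Matrix.mul_one, fromBlocks_conjTranspose,
    fromBlocks_smul, fromBlocks_add, sub_eq_add_neg, fromBlocks_neg, fromBlocks_add]
  simp only [conjTranspose_neg, conjTranspose_zero, smul_neg, smul_zero, neg_zero, add_zero,
    neg_neg]
  congr 1 <;> abel

theorem trivial_form (n : ℕ) :
    StablyHyperbolic ε (UF (0 : Matrix (Fin n) (Fin n) A) 0 0) := by
  refine ⟨0, n, fromRows 1 0, fromCols 1 0, 0, ?_, ?_, ?_⟩
  · rw [fromRows_mul_fromCols]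
    ext i j
    rcases i with i | i
    · rcases j with j | j
      · simp [Matrix.one_apply]
      · exact isEmptyElim j
    · exact isEmptyElim i
  · rw [fromCols_mul_fromRows]
    simp
  · rw [conjTranspose_fromRows_eq_fromCols_conjTranspose, fromCols_mul_fromBlocks,
      fromCols_mul_fromRows]
    simp [UF, hyp]

end SWPAux

open SWPAux

theorem specSwp : SpecSWP := by
  intro A _ _ ε n ψ μ χ
  exact ⟨fun h => stab_of_isom (swap ψ μ χ) h, fun c d h => stab_of_isom (change ψ μ χ c d) h,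
    trivial_form n⟩

end Pool.Agent.Lib.MP8a3537.UV
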