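import Pool.Agent.Lib.MP_8a3537_gt.UV.Spec

/-!
# UV, module EMV: the E-move
-/

namespace Pool.Agent.Lib.MP8a3537.UV

open Matrix

namespace EMVAux

variable {A : Type} [Ring A] [StarRing A]

/-! ### Isometries -/

theorem iso_equiv (ε : ℤˣ) {ι κ : Type} [Fintype ι] [DecidableEq ι] [Fintype κ] [DecidableEq κ]
    (Ψ : Matrix ι ι A) (Φ : Matrix κ κ A) (e : κ ≃ ι) (h : Φ = Ψ.submatrix e e) :
    Isometric ε Ψ Φ := by
  refine ⟨(1 : Matrix ι ι A).submatrix id e, (1 : Matrix ι ι A).submatrix e id, 0, ?_, ?_, ?_⟩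
  · rw [Matrix.submatrix_mul_equiv]
    simp
  · have : (1 : Matrix ι ι A).submatrix e id * (1 : Matrix ι ι A).submatrix id e
        = ((1 : Matrix ι ι A) * 1).submatrix e e := by
      have := Matrix.submatrix_mul_equiv (1 : Matrix ι ι A) (1 : Matrix ι ι A) e (Equiv.refl ι) e
      simpa using this
    rw [this]
    simp
  · rw [Matrix.conjTranspose_submatrix, Matrix.conjTranspose_one, Matrix.conjTranspose_zero,
      smul_zero, sub_zero, add_zero, h]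
    have h1 : (1 : Matrix ι ι A).submatrix e id * Ψ = Ψ.submatrix e id := by
      have := Matrix.submatrix_mul_equiv (1 : Matrix ι ι A) Ψ e (Equiv.refl ι) id
      simpa using this
    rw [h1]
    have := Matrix.submatrix_mul_equiv Ψ (1 : Matrix ι ι A) e (Equiv.refl ι) e
    simpa using this.symm

theorem iso_trans (ε : ℤˣ) {ι κ l : Type} [Fintype ι] [DecidableEq ι] [Fintype κ] [DecidableEq κ]
    [Fintype l] [DecidableEq l] {Ψ : Matrix ι ι A} {Φ : Matrix κ κ A} {Θ : Matrix l l A}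
    (h1 : Isometric ε Ψ Φ) (h2 : Isometric ε Φ Θ) : Isometric ε Ψ Θ := by
  obtain ⟨u, v, Z, huv, hvu, hZ⟩ := h1
  obtain ⟨u', v', Z', huv', hvu', hZ'⟩ := h2
  refine ⟨u * u', v' * v, u'ᴴ * Z * u' + Z', ?_, ?_, ?_⟩
  · rw [Matrix.mul_assoc, ← Matrix.mul_assoc u' v' v, huv', Matrix.one_mul, huv]
  · rw [Matrix.mul_assoc, ← Matrix.mul_assoc v u u', hvu, Matrix.one_mul, hvu']
  · rw [hZ', hZ]
    simp only [Matrix.conjTranspose_mul, Matrix.conjTranspose_add,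
      Matrix.conjTranspose_conjTranspose, Matrix.mul_add, Matrix.add_mul, Matrix.mul_sub,
      Matrix.sub_mul, smul_add, Matrix.mul_smul, Matrix.smul_mul, Matrix.mul_assoc]
    abel

theorem iso_sum (ε : ℤˣ) {ι κ l : Type} [Fintype ι] [DecidableEq ι] [Fintype κ] [DecidableEq κ]
    [Fintype l] [DecidableEq l] {Ψ : Matrix ι ι A} {Φ : Matrix κ κ A} (Θ : Matrix l l A)
    (h1 : Isometric ε Ψ Φ) : Isometric ε (fromBlocks Ψ 0 0 Θ) (fromBlocks Φ 0 0 Θ) := by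
  obtain ⟨u, v, Z, huv, hvu, hZ⟩ := h1
  refine ⟨fromBlocks u 0 0 1, fromBlocks v 0 0 1, fromBlocks Z 0 0 0, ?_, ?_, ?_⟩
  · rw [fromBlocks_multiply]; simp [huv]
  · rw [fromBlocks_multiply]; simp [hvu]
  · rw [fromBlocks_conjTranspose, fromBlocks_conjTranspose, fromBlocks_multiply,
      fromBlocks_multiply, fromBlocks_add, fromBlocks_smul, sub_eq_add_neg, fromBlocks_neg,
      fromBlocks_add, hZ]
    simp [sub_eq_add_neg]

/-! ### The explicit isometry -/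

theorem rows_form {n m k : Type} [Fintype n] [Fintype m] [Fintype k]
    (a : Matrix n k A) (b : Matrix m k A) (P : Matrix n n A) (Q : Matrix n m A)
    (R : Matrix m n A) (S : Matrix m m A) :
    (fromRows a b)ᴴ * fromBlocks P Q R S * fromRows a b =
      aᴴ * P * a + aᴴ * Q * b + bᴴ * R * a + bᴴ * S * b := by
  rw [Matrix.conjTranspose_fromRows_eq_fromCols_conjTranspose, Matrix.fromCols_mul_fromBlocks,
    Matrix.fromCols_mul_fromRows]
  simp only [Matrix.add_mul]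
  abel

/-- the source form in the new coordinates -/
theorem key (ε : ℤˣ) {k : Type} [Fintype k] [DecidableEq k] (n r : ℕ)
    (ψ : Matrix (Fin r) (Fin r) A)
    (m' : Matrix (Fin n) (Fin r) A) (χ : Matrix (Fin n) (Fin n) A)
    (π : Matrix (Fin r) (Fin n) A) (P F S fs : Matrix (Fin n) k A)
    (P1 F1 w : Matrix (Fin r) k A) (hfs : fs = F + πᴴ * F1)
    (hS : S = P - χᴴ * F - m' * P1 - (χᴴ + (ε : ℤ) • χ) * πᴴ * F1) (hw : w = π * S) :
    P1ᴴ * ψ * P1 + P1ᴴ * (1 + (π * m')ᴴ) * F1 + F1ᴴ * (π * χ * πᴴ) * F1 + Pᴴ * F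
      = (Sᴴ * (πᴴ * ψ * π) * S + Sᴴ * (1 + (m' * π)ᴴ) * fs + fsᴴ * χ * fs
          + (P1 - w)ᴴ * (F1 + ψ * (P1 - w) + (ψ + (ε : ℤ) • ψᴴ) * w + m'ᴴ * fs))
        + -(wᴴ * ψ * w - wᴴ * ψ * P1 + Fᴴ * χ * πᴴ * F1)
        - (ε : ℤ) • (-(wᴴ * ψ * w - wᴴ * ψ * P1 + Fᴴ * χ * πᴴ * F1))ᴴ := by
  have hSF : Sᴴ * F = Pᴴ * F - Fᴴ * χ * F - P1ᴴ * m'ᴴ * F
      - F1ᴴ * π * (χ + (ε : ℤ) • χᴴ) * F := by
    rw [hS]
    rcases Int.units_eq_one_or ε with rfl | rfl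
    · simp only [Units.val_one, one_smul, Matrix.conjTranspose_sub, Matrix.conjTranspose_add,
        Matrix.conjTranspose_mul, Matrix.conjTranspose_conjTranspose, Matrix.sub_mul,
        Matrix.add_mul, Matrix.mul_add, Matrix.mul_assoc]
    · simp only [Units.val_neg, Units.val_one, neg_smul, one_smul, Matrix.conjTranspose_sub,
        Matrix.conjTranspose_add, Matrix.conjTranspose_neg,
        Matrix.conjTranspose_mul, Matrix.conjTranspose_conjTranspose, Matrix.sub_mul,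
        Matrix.add_mul, Matrix.mul_add, Matrix.mul_assoc, Matrix.neg_mul, Matrix.mul_neg]
  have h1 : Pᴴ * F = Sᴴ * F + Fᴴ * χ * F + P1ᴴ * m'ᴴ * F
      + F1ᴴ * π * (χ + (ε : ℤ) • χᴴ) * F := by
    rw [hSF]; abel
  rw [h1, hfs]
  have hw1 : Sᴴ * πᴴ = wᴴ := by rw [hw, Matrix.conjTranspose_mul]
  have e1 : Sᴴ * (πᴴ * ψ * π) * S = wᴴ * ψ * w := by
    rw [hw, Matrix.conjTranspose_mul]; simp only [Matrix.mul_assoc]
  have e2 : ∀ X : Matrix (Fin n) k A,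
      Sᴴ * (1 + (m' * π)ᴴ) * X = Sᴴ * X + wᴴ * m'ᴴ * X := by
    intro X
    rw [← hw1, Matrix.conjTranspose_mul, Matrix.mul_add Sᴴ 1, Matrix.mul_one, Matrix.add_mul,
      Matrix.mul_assoc Sᴴ πᴴ]
  have e3 : Sᴴ * (F + πᴴ * F1) = Sᴴ * F + wᴴ * F1 := by
    rw [Matrix.mul_add Sᴴ F, ← Matrix.mul_assoc Sᴴ πᴴ, hw1]
  rw [e1, e2, e3]
  rcases Int.units_eq_one_or ε with rfl | rfl
  · simp only [Units.val_one, one_smul, Matrix.conjTranspose_sub, Matrix.conjTranspose_add,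
      Matrix.conjTranspose_neg,
      Matrix.conjTranspose_mul, Matrix.conjTranspose_conjTranspose, Matrix.sub_mul,
      Matrix.add_mul, Matrix.mul_add, Matrix.mul_sub, Matrix.mul_assoc, Matrix.mul_one]
    abel
  · simp only [Units.val_neg, Units.val_one, neg_smul, one_smul, Matrix.conjTranspose_sub,
      Matrix.conjTranspose_add, Matrix.conjTranspose_neg,
      Matrix.conjTranspose_mul, Matrix.conjTranspose_conjTranspose, Matrix.sub_mul,
      Matrix.add_mul, Matrix.mul_add, Matrix.mul_sub, Matrix.mul_assoc, Matrix.neg_mul,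
      Matrix.mul_neg, Matrix.mul_one]
    abel

/-- stacking four blocks of rows -/
def st {n r : ℕ} {k : Type} (a b : Matrix (Fin n) k A) (c d : Matrix (Fin r) k A) :
    Matrix ((Fin n ⊕ Fin n) ⊕ (Fin r ⊕ Fin r)) k A :=
  fromRows (fromRows a b) (fromRows c d)

omit [StarRing A] in
theorem st_mul {n r : ℕ} {k l : Type} [Fintype k] (a b : Matrix (Fin n) k A)
    (c d : Matrix (Fin r) k A) (M : Matrix k l A) :
    st a b c d * M = st (a * M) (b * M) (c * M) (d * M) := by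
  unfold st
  rw [Matrix.fromRows_mul, Matrix.fromRows_mul, Matrix.fromRows_mul]

/-- the four projections -/
def Ep (A : Type) [Ring A] (n r : ℕ) : Matrix (Fin n) ((Fin n ⊕ Fin n) ⊕ (Fin r ⊕ Fin r)) A :=
  fromCols (fromCols 1 0) 0
def Ef (A : Type) [Ring A] (n r : ℕ) : Matrix (Fin n) ((Fin n ⊕ Fin n) ⊕ (Fin r ⊕ Fin r)) A :=
  fromCols (fromCols 0 1) 0
def E1 (A : Type) [Ring A] (n r : ℕ) : Matrix (Fin r) ((Fin n ⊕ Fin n) ⊕ (Fin r ⊕ Fin r)) A :=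
  fromCols 0 (fromCols 1 0)
def E2 (A : Type) [Ring A] (n r : ℕ) : Matrix (Fin r) ((Fin n ⊕ Fin n) ⊕ (Fin r ⊕ Fin r)) A :=
  fromCols 0 (fromCols 0 1)

omit [StarRing A] in
theorem st_one (n r : ℕ) : st (Ep A n r) (Ef A n r) (E1 A n r) (E2 A n r) = 1 := by
  unfold st Ep Ef E1 E2
  ext i j
  rcases i with (i | i) | (i | i) <;> rcases j with (j | j) | (j | j) <;>
    simp [Matrix.one_apply]

section
variable {n r : ℕ} {k : Type} (a b : Matrix (Fin n) k A) (c d : Matrix (Fin r) k A)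

omit [StarRing A] in
theorem Ep_st : Ep A n r * st a b c d = a := by
  unfold st Ep
  rw [Matrix.fromCols_mul_fromRows, Matrix.fromCols_mul_fromRows]
  simp

omit [StarRing A] in
theorem Ef_st : Ef A n r * st a b c d = b := by
  unfold st Ef
  rw [Matrix.fromCols_mul_fromRows, Matrix.fromCols_mul_fromRows]
  simp

omit [StarRing A] in
theorem E1_st : E1 A n r * st a b c d = c := by
  unfold st E1
  rw [Matrix.fromCols_mul_fromRows, Matrix.fromCols_mul_fromRows]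
  simp

omit [StarRing A] in
theorem E2_st : E2 A n r * st a b c d = d := by
  unfold st E2
  rw [Matrix.fromCols_mul_fromRows, Matrix.fromCols_mul_fromRows]
  simp
end

theorem st_form {n r : ℕ} {k : Type} [Fintype k] (a b : Matrix (Fin n) k A)
    (c d : Matrix (Fin r) k A) (P : Matrix (Fin n) (Fin n) A) (Q : Matrix (Fin n) (Fin n) A)
    (S : Matrix (Fin n) (Fin n) A) (P' : Matrix (Fin r) (Fin r) A) (Q' : Matrix (Fin r) (Fin r) A)
    (S' : Matrix (Fin r) (Fin r) A) :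
    (st a b c d)ᴴ * fromBlocks (fromBlocks P Q 0 S) 0 0 (fromBlocks P' Q' 0 S') * st a b c d
      = aᴴ * P * a + aᴴ * Q * b + bᴴ * S * b + (cᴴ * P' * c + cᴴ * Q' * d + dᴴ * S' * d) := by
  unfold st
  rw [rows_form, rows_form, rows_form]
  simp

theorem main_iso (ε : ℤˣ) (n r : ℕ) (ψ : Matrix (Fin r) (Fin r) A)
    (m' : Matrix (Fin n) (Fin r) A) (χ : Matrix (Fin n) (Fin n) A)
    (π : Matrix (Fin r) (Fin n) A) :
    Isometric ε (fromBlocks (UF (πᴴ * ψ * π) (m' * π) χ) 0 0 (hyp (Fin r) A))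
      (fromBlocks (hyp (Fin n) A) 0 0 (UF ψ (π * m') (π * χ * πᴴ))) := by
  obtain ⟨P, hP⟩ : ∃ P, P = Ep A n r := ⟨_, rfl⟩
  obtain ⟨F, hF⟩ : ∃ F, F = Ef A n r := ⟨_, rfl⟩
  obtain ⟨P1, hP1⟩ : ∃ P1, P1 = E1 A n r := ⟨_, rfl⟩
  obtain ⟨F1, hF1⟩ : ∃ F1, F1 = E2 A n r := ⟨_, rfl⟩
  have h1 : st P F P1 F1 = 1 := by rw [hP, hF, hP1, hF1, st_one]
  obtain ⟨lh, hlh⟩ : ∃ lh, lh = ψ + (ε : ℤ) • ψᴴ := ⟨_, rfl⟩
  obtain ⟨Y, hY⟩ : ∃ Y, Y = (χᴴ + (ε : ℤ) • χ) * πᴴ := ⟨_, rfl⟩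
  -- the base change
  obtain ⟨fs, hfs⟩ : ∃ fs, fs = F + πᴴ * F1 := ⟨_, rfl⟩
  obtain ⟨S, hS⟩ : ∃ S, S = P - χᴴ * F - m' * P1 - Y * F1 := ⟨_, rfl⟩
  obtain ⟨w, hw⟩ : ∃ w, w = π * S := ⟨_, rfl⟩
  obtain ⟨p1s, hp1s⟩ : ∃ p1s, p1s = P1 - w := ⟨_, rfl⟩
  obtain ⟨f1s, hf1s⟩ : ∃ f1s, f1s = F1 + ψ * p1s + lh * w + m'ᴴ * fs := ⟨_, rfl⟩
  -- the inverse base change
  obtain ⟨a1, ha1⟩ : ∃ a1, a1 = P1 + π * P := ⟨_, rfl⟩
  obtain ⟨a2, ha2⟩ : ∃ a2, a2 = F1 - ψ * P1 - lh * (π * P) - m'ᴴ * F := ⟨_, rfl⟩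
  obtain ⟨b2, hb2⟩ : ∃ b2, b2 = F - πᴴ * a2 := ⟨_, rfl⟩
  obtain ⟨b1, hb1⟩ : ∃ b1, b1 = P + χᴴ * b2 + m' * a1 + Y * a2 := ⟨_, rfl⟩
  obtain ⟨u, hu⟩ : ∃ u, u = st S fs p1s f1s := ⟨_, rfl⟩
  obtain ⟨v, hv⟩ : ∃ v, v = st b1 b2 a1 a2 := ⟨_, rfl⟩
  have vP : P * v = b1 := by rw [hP, hv, Ep_st]
  have vF : F * v = b2 := by rw [hF, hv, Ef_st]
  have vP1 : P1 * v = a1 := by rw [hP1, hv, E1_st]
  have vF1 : F1 * v = a2 := by rw [hF1, hv, E2_st]
  have uP : P * u = S := by rw [hP, hu, Ep_st]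
  have uF : F * u = fs := by rw [hF, hu, Ef_st]
  have uP1 : P1 * u = p1s := by rw [hP1, hu, E1_st]
  have uF1 : F1 * u = f1s := by rw [hF1, hu, E2_st]
  refine ⟨u, v, -(wᴴ * ψ * w - wᴴ * ψ * P1 + Fᴴ * χ * πᴴ * F1), ?_, ?_, ?_⟩
  · have hSv : S * v = P := by
      rw [hS]
      simp only [Matrix.sub_mul, Matrix.mul_assoc, vP, vF, vP1, vF1]
      rw [hb1]; abel
    have hwv : w * v = π * P := by rw [hw, Matrix.mul_assoc, hSv]
    have hfv : fs * v = F := by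
      rw [hfs, Matrix.add_mul, Matrix.mul_assoc, vF, vF1, hb2]; abel
    have hpv : p1s * v = P1 := by
      rw [hp1s, Matrix.sub_mul, vP1, hwv, ha1]; abel
    have hf1v : f1s * v = F1 := by
      rw [hf1s]
      simp only [Matrix.add_mul, Matrix.mul_assoc, vF1, hpv, hwv, hfv]
      rw [ha2]; abel
    rw [hu, st_mul, hSv, hfv, hpv, hf1v, h1]
  · have h1u : a1 * u = P1 := by
      rw [ha1, Matrix.add_mul, Matrix.mul_assoc, uP1, uP, ← hw, hp1s]; abel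
    have h2u : a2 * u = F1 := by
      rw [ha2]
      simp only [Matrix.sub_mul, Matrix.mul_assoc, uF1, uP1, uP, uF]
      rw [← hw, hf1s]; abel
    have h3u : b2 * u = F := by
      rw [hb2, Matrix.sub_mul, Matrix.mul_assoc, uF, h2u, hfs]; abel
    have h4u : b1 * u = P := by
      rw [hb1]
      simp only [Matrix.add_mul, Matrix.mul_assoc, uP, h1u, h2u, h3u]
      rw [hS]; abel
    rw [hv, st_mul, h4u, h3u, h1u, h2u, h1]
  · have hk := key ε n r ψ m' χ π P F S fs P1 F1 w hfs (by rw [hS, hY]) hw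
    have hl : (fromBlocks (hyp (Fin n) A) 0 0 (UF ψ (π * m') (π * χ * πᴴ)))
        = P1ᴴ * ψ * P1 + P1ᴴ * (1 + (π * m')ᴴ) * F1 + F1ᴴ * (π * χ * πᴴ) * F1 + Pᴴ * F := by
      have := st_form P F P1 F1 (0 : Matrix (Fin n) (Fin n) A) 1 0 ψ (1 + (π * m')ᴴ) (π * χ * πᴴ)
      rw [h1] at this
      simp only [Matrix.conjTranspose_one, Matrix.one_mul, Matrix.mul_one, Matrix.mul_zero,
        Matrix.zero_mul, zero_add, add_zero] at this
      unfold hyp UF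
      rw [this]; abel
    have hr : uᴴ * (fromBlocks (UF (πᴴ * ψ * π) (m' * π) χ) 0 0 (hyp (Fin r) A)) * u
        = Sᴴ * (πᴴ * ψ * π) * S + Sᴴ * (1 + (m' * π)ᴴ) * fs + fsᴴ * χ * fs
          + (P1 - w)ᴴ * (F1 + ψ * (P1 - w) + (ψ + (ε : ℤ) • ψᴴ) * w + m'ᴴ * fs) := by
      rw [hu]
      unfold hyp UF
      rw [st_form, ← hp1s, ← hlh, ← hf1s]
      simp
    rw [hl, hk, hr]

/-! ### Hyperbolic forms -/

theorem hyp_sum (ε : ℤˣ) (a b : ℕ) :
    Isometric ε (fromBlocks (hyp (Fin a) A) 0 0 (hyp (Fin b) A)) (hyp (Fin (a + b)) A) := by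
  let e : (Fin (a + b)) ⊕ (Fin (a + b)) ≃ (Fin a ⊕ Fin a) ⊕ (Fin b ⊕ Fin b) :=
    ((Equiv.sumCongr finSumFinEquiv.symm finSumFinEquiv.symm).trans
      (Equiv.sumSumSumComm (Fin a) (Fin b) (Fin a) (Fin b)))
  refine iso_equiv ε _ _ e ?_
  have he : ∀ x : Fin (a + b), e (Sum.inl x) =
      Sum.map Sum.inl Sum.inl (finSumFinEquiv.symm x) := by
    intro x
    simp only [e, Equiv.trans_apply, Equiv.sumCongr_apply, Sum.map_inl]
    rcases finSumFinEquiv.symm x with y | y <;> rfl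
  have he' : ∀ x : Fin (a + b), e (Sum.inr x) =
      Sum.map Sum.inr Sum.inr (finSumFinEquiv.symm x) := by
    intro x
    simp only [e, Equiv.trans_apply, Equiv.sumCongr_apply, Sum.map_inr]
    rcases finSumFinEquiv.symm x with y | y <;> rfl
  ext i j
  rw [Matrix.submatrix_apply]
  unfold hyp
  rcases i with i | i <;> rcases j with j | j <;> simp only [he, he'] <;>
    obtain ⟨i, rfl⟩ := finSumFinEquiv.surjective i <;>
    obtain ⟨j, rfl⟩ := finSumFinEquiv.surjective j <;>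
    rcases i with i | i <;> rcases j with j | j <;>
    simp [Matrix.one_apply, Fin.ext_iff] <;> omega

theorem iso_symm (ε : ℤˣ) {ι κ : Type} [Fintype ι] [DecidableEq ι] [Fintype κ] [DecidableEq κ]
    {Ψ : Matrix ι ι A} {Φ : Matrix κ κ A} (h : Isometric ε Ψ Φ) : Isometric ε Φ Ψ := by
  obtain ⟨u, v, Z, huv, hvu, hZ⟩ := h
  refine ⟨v, u, -(vᴴ * Z * v), hvu, huv, ?_⟩
  have h1 : vᴴ * (uᴴ * Ψ * u) * v = Ψ := by
    have h2 : vᴴ * uᴴ = 1 := by
      rw [← Matrix.conjTranspose_mul, huv, Matrix.conjTranspose_one]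
    rw [Matrix.mul_assoc uᴴ, ← Matrix.mul_assoc vᴴ, h2, Matrix.one_mul, Matrix.mul_assoc, huv,
      Matrix.mul_one]
  rw [hZ, Matrix.mul_sub, Matrix.mul_add, Matrix.sub_mul, Matrix.add_mul, h1]
  simp only [Matrix.conjTranspose_neg, Matrix.conjTranspose_mul,
    Matrix.conjTranspose_conjTranspose, Matrix.mul_smul, Matrix.smul_mul, Matrix.mul_assoc,
    smul_neg]
  abel

theorem iso_assoc (ε : ℤˣ) {a b c : Type} [Fintype a] [DecidableEq a] [Fintype b] [DecidableEq b]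
    [Fintype c] [DecidableEq c] (X : Matrix a a A) (Y : Matrix b b A) (W : Matrix c c A) :
    Isometric ε (fromBlocks X 0 0 (fromBlocks Y 0 0 W)) (fromBlocks (fromBlocks X 0 0 Y) 0 0 W) := by
  refine iso_equiv ε _ _ (Equiv.sumAssoc a b c) ?_
  ext i j
  rcases i with (i | i) | i <;> rcases j with (j | j) | j <;> simp

theorem iso_comm (ε : ℤˣ) {a b : Type} [Fintype a] [DecidableEq a] [Fintype b] [DecidableEq b]
    (X : Matrix a a A) (Y : Matrix b b A) :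
    Isometric ε (fromBlocks X 0 0 Y) (fromBlocks Y 0 0 X) := by
  refine iso_equiv ε _ _ (Equiv.sumComm b a) ?_
  ext i j
  rcases i with i | i <;> rcases j with j | j <;> simp

theorem iso_sum' (ε : ℤˣ) {ι κ l : Type} [Fintype ι] [DecidableEq ι] [Fintype κ] [DecidableEq κ]
    [Fintype l] [DecidableEq l] {Ψ : Matrix ι ι A} {Φ : Matrix κ κ A} (Θ : Matrix l l A)
    (h1 : Isometric ε Ψ Φ) : Isometric ε (fromBlocks Θ 0 0 Ψ) (fromBlocks Θ 0 0 Φ) :=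
  iso_trans ε (iso_comm ε _ _) (iso_trans ε (iso_sum ε Θ h1) (iso_comm ε _ _))

end EMVAux

/-- **EMV**: the E-move. -/
theorem specEmv : SpecEMV := by
  intro A _ _ ε n r ψ m' χ p ⟨m, k, h⟩
  refine ⟨r + m, n + k, ?_⟩
  have s1 := EMVAux.iso_sum' ε (UF (pᴴ * ψ * p) (m' * p) χ)
    (EMVAux.iso_symm ε (EMVAux.hyp_sum (A := A) ε r m))
  have s2 := EMVAux.iso_assoc ε (UF (pᴴ * ψ * p) (m' * p) χ) (hyp (Fin r) A) (hyp (Fin m) A)
  have s3 := EMVAux.iso_sum ε (hyp (Fin m) A) (EMVAux.main_iso ε n r ψ m' χ p)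
  have s4 := EMVAux.iso_symm ε (EMVAux.iso_assoc ε (hyp (Fin n) A)
    (UF ψ (p * m') (p * χ * pᴴ)) (hyp (Fin m) A))
  have s5 := EMVAux.iso_sum' ε (hyp (Fin n) A) h
  have s6 := EMVAux.hyp_sum (A := A) ε n k
  exact EMVAux.iso_trans ε s1 (EMVAux.iso_trans ε s2 (EMVAux.iso_trans ε s3
    (EMVAux.iso_trans ε s4 (EMVAux.iso_trans ε s5 s6))))

end Pool.Agent.Lib.MP8a3537.UV
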