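import Pool.Agent.Lib.MP_8a3537_gt.UV.Spec

/-!
# TAT: Tate vanishing
-/

namespace Pool.Agent.Lib.MP8a3537.UV

open Matrix

namespace TATAux

/-- For every group there is a set containing exactly one of `g`, `g⁻¹` whenever `g ≠ g⁻¹`. -/
theorem exists_half (G : Type) [Group G] :
    ∃ Y : Set G, ∀ g : G, g⁻¹ ≠ g → ((g ∈ Y ∧ g⁻¹ ∉ Y) ∨ (g ∉ Y ∧ g⁻¹ ∈ Y)) := by
  classical
  refine ⟨{g | WellOrderingRel g g⁻¹}, fun g hg => ?_⟩
  simp only [Set.mem_ofPred_eq, inv_inv]
  rcases trichotomous_of WellOrderingRel g g⁻¹ with h | h | h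
  · exact Or.inl ⟨h, fun h' => asymm_of WellOrderingRel h h'⟩
  · exact absurd h.symm hg
  · exact Or.inr ⟨fun h' => asymm_of WellOrderingRel h h', h⟩

theorem coeff_smul_star {R G : Type} [Ring R] [StarRing R] [Group G] (δ : ℤ)
    (x : MonoidAlgebra R G) (g : G) :
    (δ • star x).coeff g = δ • star (x.coeff g⁻¹) := by
  rw [MonoidAlgebra.coeff_smul, Finsupp.smul_apply, star_coeff]

end TATAux

open TATAux in
theorem specTat : SpecTAT := by
  classical
  intro R G _ _ _ X δ n d hinv hne hd hsym
  obtain ⟨Y, hY⟩ := exists_half G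
  have hs : ∀ i j g, (d i j).coeff g = (δ : ℤ) • star ((d j i).coeff g⁻¹) := by
    intro i j g
    rw [← coeff_smul_star]
    have h1 := congrFun (congrFun hsym i) j
    rw [Matrix.smul_apply, Matrix.conjTranspose_apply] at h1
    rw [← h1]
  refine ⟨Matrix.of fun i j => if i < j then d i j else if i = j then
    .ofCoeff ((d i j).coeff.filter (fun g => g ∈ Y)) else 0, ?_, ?_⟩
  · intro i j g h
    rw [Matrix.of_apply] at h
    by_cases h1 : i < j
    · simp only [h1, if_true] at h
      exact hd i j g h
    · by_cases h2 : i = j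
      · subst h2
        simp only [lt_irrefl, if_false, if_true] at h
        apply hd i i g
        intro h3
        apply h
        simp [Finsupp.filter_apply, h3]
      · simp [h1, h2] at h
  · ext i j g
    rw [Matrix.add_apply, Matrix.smul_apply, Matrix.conjTranspose_apply, Matrix.of_apply,
      Matrix.of_apply, MonoidAlgebra.coeff_add, Finsupp.add_apply, coeff_smul_star]
    rcases lt_trichotomy i j with h | h | h
    · have h1 : ¬ j < i := not_lt.mpr h.le
      have h2 : j ≠ i := ne_of_gt h
      simp [h, h1, h2]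
    · subst h
      simp only [lt_irrefl, if_false, if_true, Finsupp.filter_apply]
      by_cases hg : g⁻¹ = g
      · have h0 : (d i i).coeff g = 0 := by
          by_contra h
          exact hne g (hd i i g h) hg
        rw [hg, h0]
        simp
      · rcases hY g hg with ⟨ha, hb⟩ | ⟨ha, hb⟩
        · simp [ha, hb]
        · simp only [ha, hb, if_false, if_true, zero_add]
          exact hs i i g
    · have h1 : ¬ i < j := not_lt.mpr h.le
      have h2 : i ≠ j := ne_of_gt h
      simp only [h, h1, h2, if_false, if_true]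
      rw [← hs i j g]
      simp

end Pool.Agent.Lib.MP8a3537.UV
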