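import Pool.Agent.Lib.MP_8a3537_gt.UV.Spec

/-!
# RES: restriction of group ring elements to a subgroup
-/

namespace Pool.Agent.Lib.MP8a3537.UV

open Matrix

namespace RESAux

variable {R G : Type} [Ring R] [Group G] (H : Subgroup G)

theorem emb_single (h : H) (r : R) :
    emb R H (MonoidAlgebra.single h r) = MonoidAlgebra.single (h : G) r := by
  simp [emb]

theorem emb_coeff_mem (s : MonoidAlgebra R H) (h : H) :
    (emb R H s).coeff (h : G) = s.coeff h := by
  change (Finsupp.mapDomain H.subtype s.coeff) (H.subtype h) = s.coeff h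
  exact Finsupp.mapDomain_apply (Subtype.val_injective) _ _

theorem emb_coeff_not_mem (s : MonoidAlgebra R H) (g : G) (hg : g ∉ H) :
    (emb R H s).coeff g = 0 := by
  change (Finsupp.mapDomain H.subtype s.coeff) g = 0
  refine Finsupp.mapDomain_of_notMem_range _ _ ?_
  rintro ⟨h, rfl⟩
  exact hg h.2

theorem res_add (t : G) (y z : MonoidAlgebra R G) :
    res H t (y + z) = res H t y + res H t z := by
  ext h
  simp [res_coeff]

theorem lres_add (t : G) (y z : MonoidAlgebra R G) :
    lres H t (y + z) = lres H t y + lres H t z := by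
  ext h
  simp [lres_coeff]

theorem res_zero (t : G) : res H t (0 : MonoidAlgebra R G) = 0 := by
  ext h
  simp [res_coeff]

theorem lres_zero (t : G) : lres H t (0 : MonoidAlgebra R G) = 0 := by
  ext h
  simp [lres_coeff]

theorem res_sum {ι : Type*} (s : Finset ι) (t : G) (f : ι → MonoidAlgebra R G) :
    res H t (∑ i ∈ s, f i) = ∑ i ∈ s, res H t (f i) := by
  classical
  induction s using Finset.induction_on with
  | empty => simp [res_zero]
  | insert a s ha ih => rw [Finset.sum_insert ha, Finset.sum_insert ha, res_add, ih]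

theorem lres_sum {ι : Type*} (s : Finset ι) (t : G) (f : ι → MonoidAlgebra R G) :
    lres H t (∑ i ∈ s, f i) = ∑ i ∈ s, lres H t (f i) := by
  classical
  induction s using Finset.induction_on with
  | empty => simp [lres_zero]
  | insert a s ha ih => rw [Finset.sum_insert ha, Finset.sum_insert ha, lres_add, ih]

theorem res_mul_emb (t : G) (y : MonoidAlgebra R G) (s : MonoidAlgebra R H) :
    res H t (y * emb R H s) = res H t y * s := by
  induction s using MonoidAlgebra.induction_linear with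
  | zero => simp [res_zero]
  | add x y hx hy => rw [map_add, mul_add, res_add, hx, hy, mul_add]
  | single h r =>
    ext h'
    rw [emb_single, res_coeff, MonoidAlgebra.coeff_mul_single_apply,
      MonoidAlgebra.coeff_mul_single_apply, res_coeff]
    simp [mul_assoc]

theorem lres_emb_mul (t : G) (y : MonoidAlgebra R G) (s : MonoidAlgebra R H) :
    lres H t (emb R H s * y) = s * lres H t y := by
  induction s using MonoidAlgebra.induction_linear with
  | zero => simp [lres_zero]
  | add x y hx hy => rw [map_add, add_mul, lres_add, hx, hy, add_mul]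
  | single h r =>
    ext h'
    rw [emb_single, lres_coeff, MonoidAlgebra.coeff_single_mul_apply,
      MonoidAlgebra.coeff_single_mul_apply, lres_coeff]
    simp [mul_assoc]

theorem eq_zero_of_res (y : MonoidAlgebra R G) (h : ∀ t, res H t y = 0) : y = 0 := by
  ext g
  have := congrArg (fun z => z.coeff 1) (h g)
  simpa [res_coeff] using this

theorem eq_zero_of_lres (y : MonoidAlgebra R G) (h : ∀ t, lres H t y = 0) : y = 0 := by
  ext g
  have := congrArg (fun z => z.coeff 1) (h g)
  simpa [lres_coeff] using this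

theorem map_res_mul {m r n : Type*} [Fintype r] (Z : Matrix m r (MonoidAlgebra R G))
    (p : Matrix r n (MonoidAlgebra R H)) (t : G) :
    (Z * p.map (emb R H)).map (res H t) = Z.map (res H t) * p := by
  ext1 i j
  simp only [Matrix.map_apply, Matrix.mul_apply]
  rw [res_sum]
  exact Finset.sum_congr rfl fun k _ => res_mul_emb H t _ _

theorem map_lres_mul {m r n : Type*} [Fintype r] (Z : Matrix r n (MonoidAlgebra R G))
    (p : Matrix m r (MonoidAlgebra R H)) (t : G) :
    (p.map (emb R H) * Z).map (lres H t) = p * Z.map (lres H t) := by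
  ext1 i j
  simp only [Matrix.map_apply, Matrix.mul_apply]
  rw [lres_sum]
  exact Finset.sum_congr rfl fun k _ => lres_emb_mul H t _ _

theorem CR {m r n : Type*} [Fintype r] (p : Matrix r n (MonoidAlgebra R H))
    (hp : ∀ z : r → MonoidAlgebra R H, z ᵥ* p = 0 → z = 0)
    (Z : Matrix m r (MonoidAlgebra R G)) (hZ : Z * p.map (emb R H) = 0) : Z = 0 := by
  ext1 i k
  refine eq_zero_of_res H _ fun t => ?_
  have h1 : Z.map (res H t) * p = 0 := by
    rw [← map_res_mul, hZ]
    ext1 i j
    simp [res_zero]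
  have h2 : (fun k => res H t (Z i k)) ᵥ* p = 0 := by
    funext j
    have := congrFun (congrFun h1 i) j
    simpa [Matrix.mul_apply, Matrix.vecMul, dotProduct] using this
  exact congrFun (hp _ h2) k

theorem CL {n m r : Type*} [Fintype r] (p : Matrix m r (MonoidAlgebra R H))
    (hp : ∀ z : r → MonoidAlgebra R H, p *ᵥ z = 0 → z = 0)
    (Z : Matrix r n (MonoidAlgebra R G)) (hZ : p.map (emb R H) * Z = 0) : Z = 0 := by
  ext1 k j
  refine eq_zero_of_lres H _ fun t => ?_
  have h1 : p * Z.map (lres H t) = 0 := by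
    rw [← map_lres_mul, hZ]
    ext1 i j
    simp [lres_zero]
  have h2 : p *ᵥ (fun k => lres H t (Z k j)) = 0 := by
    funext i
    have := congrFun (congrFun h1 i) j
    simpa [Matrix.mul_apply, Matrix.mulVec, dotProduct] using this
  exact congrFun (hp _ h2) k

/-- The decomposition over left cosets. -/
theorem decomp (τ : G ⧸ H → G) (hτ : ∀ q, (τ q : G ⧸ H) = q) (y : MonoidAlgebra R G)
    (Q : Finset (G ⧸ H)) (hQ : ∀ g, y.coeff g ≠ 0 → (g : G ⧸ H) ∈ Q) :
    y = ∑ q ∈ Q, MonoidAlgebra.single (τ q) 1 * emb R H (res H (τ q) y) := by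
  classical
  ext g
  rw [MonoidAlgebra.coeff_sum, Finsupp.finsetSum_apply]
  simp only [MonoidAlgebra.coeff_single_mul_apply, one_mul]
  have key : ∀ q ∈ Q, (emb R H (res H (τ q) y)).coeff ((τ q)⁻¹ * g)
      = if q = (g : G ⧸ H) then y.coeff g else 0 := by
    intro q _
    split_ifs with hq
    · have hm : (τ q)⁻¹ * g ∈ H := by
        rw [← QuotientGroup.eq, hτ, hq]
      have := emb_coeff_mem H (res H (τ q) y) ⟨_, hm⟩
      rw [this, res_coeff]
      simp
    · refine emb_coeff_not_mem H _ _ fun hm => hq ?_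
      rw [← QuotientGroup.eq, hτ] at hm
      exact hm
  rw [Finset.sum_congr rfl key, Finset.sum_ite_eq']
  split_ifs with hg
  · rfl
  · by_contra h
    exact hg (hQ g h)

/-- The decomposition over right cosets. -/
theorem ldecomp (y : MonoidAlgebra R G)
    (Q : Finset (G ⧸ H)) (hQ : ∀ g, y.coeff g ≠ 0 → ((g⁻¹ : G) : G ⧸ H) ∈ Q) :
    y = ∑ q ∈ Q, emb R H (lres H (q.out)⁻¹ y) * MonoidAlgebra.single (q.out)⁻¹ 1 := by
  classical
  ext g
  rw [MonoidAlgebra.coeff_sum, Finsupp.finsetSum_apply]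
  simp only [MonoidAlgebra.coeff_mul_single_apply, mul_one, inv_inv]
  have key : ∀ q ∈ Q, (emb R H (lres H (q.out)⁻¹ y)).coeff (g * q.out)
      = if q = ((g⁻¹ : G) : G ⧸ H) then y.coeff g else 0 := by
    intro q _
    split_ifs with hq
    · have hm : g * q.out ∈ H := by
        have : ((g⁻¹ : G) : G ⧸ H) = (q.out : G ⧸ H) := by
          rw [QuotientGroup.out_eq', hq]
        rw [QuotientGroup.eq] at this
        simpa using this
      have := emb_coeff_mem H (lres H (q.out)⁻¹ y) ⟨_, hm⟩
      rw [this, lres_coeff]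
      simp
    · refine emb_coeff_not_mem H _ _ fun hm => hq ?_
      have : ((g⁻¹ : G) : G ⧸ H) = (q.out : G ⧸ H) := by
        rw [QuotientGroup.eq]
        simpa using hm
      rw [this, QuotientGroup.out_eq']
  rw [Finset.sum_congr rfl key, Finset.sum_ite_eq']
  split_ifs with hg
  · rfl
  · by_contra h
    exact hg (hQ g h)

/-- A finite set of left cosets for the supports of all entries. -/
theorem exists_cosets {m n : Type*} [Fintype m] [Fintype n] (M : Matrix m n (MonoidAlgebra R G)) :
    ∃ Q : Finset (G ⧸ H), ∀ i j g, (M i j).coeff g ≠ 0 → (g : G ⧸ H) ∈ Q := by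
  classical
  refine ⟨Finset.univ.biUnion fun ij : m × n =>
    (M ij.1 ij.2).coeff.support.image (fun g : G => (QuotientGroup.mk g : G ⧸ H)), fun i j g hg => ?_⟩
  rw [Finset.mem_biUnion]
  exact ⟨(i, j), Finset.mem_univ _, Finset.mem_image_of_mem _ (Finsupp.mem_support_iff.2 hg)⟩

theorem exists_lcosets {m n : Type*} [Fintype m] [Fintype n] (M : Matrix m n (MonoidAlgebra R G)) :
    ∃ Q : Finset (G ⧸ H), ∀ i j g, (M i j).coeff g ≠ 0 → ((g⁻¹ : G) : G ⧸ H) ∈ Q := by
  classical
  refine ⟨Finset.univ.biUnion fun ij : m × n =>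
    (M ij.1 ij.2).coeff.support.image (fun g : G => (QuotientGroup.mk g⁻¹ : G ⧸ H)), fun i j g hg => ?_⟩
  rw [Finset.mem_biUnion]
  exact ⟨(i, j), Finset.mem_univ _, Finset.mem_image_of_mem _ (Finsupp.mem_support_iff.2 hg)⟩

omit [Group G] in
theorem exists_of_coeff_sum_ne {ι : Type*} (s : Finset ι) (f : ι → MonoidAlgebra R G) (g : G)
    (h : (∑ q ∈ s, f q).coeff g ≠ 0) : ∃ q ∈ s, (f q).coeff g ≠ 0 := by
  by_contra hc
  push Not at hc
  apply h
  rw [MonoidAlgebra.coeff_sum, Finsupp.finsetSum_apply]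
  exact Finset.sum_eq_zero hc

theorem mem_of_emb_ne (s : MonoidAlgebra R H) (g : G) (h : (emb R H s).coeff g ≠ 0) : g ∈ H := by
  by_contra hg
  exact h (emb_coeff_not_mem H s g hg)

theorem RF {m r n : ℕ} (p : Matrix (Fin r) (Fin n) (MonoidAlgebra R H))
    (M : Matrix (Fin m) (Fin n) (MonoidAlgebra R G)) (X : Set G)
    (hX : ∀ h ∈ H, ∀ x ∈ X, x * h ∈ X) (hM : SuppIn X M)
    (hf : ∀ t, ∃ Θ : Matrix (Fin m) (Fin r) (MonoidAlgebra R H), M.map (res H t) = Θ * p) :
    ∃ θ : Matrix (Fin m) (Fin r) (MonoidAlgebra R G), SuppIn X θ ∧ M = θ * p.map (emb R H) := by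
  classical
  have hf' : ∀ q : G ⧸ H, ∃ Θ : Matrix (Fin m) (Fin r) (MonoidAlgebra R H),
      M.map (res H q.out) = Θ * p ∧ (M.map (res H q.out) = 0 → Θ = 0) := by
    intro q
    by_cases h0 : M.map (res H q.out) = 0
    · exact ⟨0, by rw [h0, Matrix.zero_mul], fun _ => rfl⟩
    · obtain ⟨Θ, hΘ⟩ := hf q.out
      exact ⟨Θ, hΘ, fun h => absurd h h0⟩
  choose Θ hΘ hΘ0 using hf'
  obtain ⟨Q, hQ⟩ := exists_cosets H M
  refine ⟨fun i k => ∑ q ∈ Q, MonoidAlgebra.single q.out 1 * emb R H (Θ q i k), ?_, ?_⟩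
  · intro i k g hg
    obtain ⟨q, _, hq⟩ := exists_of_coeff_sum_ne _ _ _ hg
    rw [MonoidAlgebra.coeff_single_mul_apply, one_mul] at hq
    have hmem := mem_of_emb_ne H _ _ hq
    have hne : Θ q ≠ 0 := by
      intro h0
      apply hq
      rw [h0]
      simp
    have hne2 : M.map (res H q.out) ≠ 0 := fun h => hne (hΘ0 q h)
    have : ∃ i' j' h', (M i' j').coeff (q.out * (h' : H)) ≠ 0 := by
      by_contra hc
      push Not at hc
      apply hne2
      ext1 i' j'
      ext h'
      simpa [res_coeff] using hc i' j' h'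
    obtain ⟨i', j', h', hx⟩ := this
    have hxX := hM i' j' _ hx
    have := hX ((h' : G)⁻¹ * (q.out⁻¹ * g)) (H.mul_mem (H.inv_mem h'.2) hmem) _ hxX
    simpa [mul_assoc] using this
  · ext1 i j
    have h1 := decomp H (fun q : G ⧸ H => q.out) (fun q => QuotientGroup.out_eq' q) (M i j) Q
      (fun g hg => hQ i j g hg)
    rw [Matrix.mul_apply]
    simp only [Matrix.map_apply, Finset.sum_mul]
    rw [Finset.sum_comm]
    conv_lhs => rw [h1]
    refine Finset.sum_congr rfl fun q _ => ?_
    have h2 : res H q.out (M i j) = ∑ k, Θ q i k * p k j := by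
      have := congrFun (congrFun (hΘ q) i) j
      simpa [Matrix.mul_apply] using this
    rw [h2, map_sum, Finset.mul_sum]
    refine Finset.sum_congr rfl fun k _ => ?_
    rw [map_mul, mul_assoc]

theorem LF {m r n : ℕ} (p : Matrix (Fin m) (Fin r) (MonoidAlgebra R H))
    (M : Matrix (Fin m) (Fin n) (MonoidAlgebra R G)) (X : Set G)
    (hX : ∀ h ∈ H, ∀ x ∈ X, h * x ∈ X) (hM : SuppIn X M)
    (hf : ∀ t, ∃ Θ : Matrix (Fin r) (Fin n) (MonoidAlgebra R H), M.map (lres H t) = p * Θ) :
    ∃ θ : Matrix (Fin r) (Fin n) (MonoidAlgebra R G), SuppIn X θ ∧ M = p.map (emb R H) * θ := by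
  classical
  have hf' : ∀ q : G ⧸ H, ∃ Θ : Matrix (Fin r) (Fin n) (MonoidAlgebra R H),
      M.map (lres H (q.out)⁻¹) = p * Θ ∧ (M.map (lres H (q.out)⁻¹) = 0 → Θ = 0) := by
    intro q
    by_cases h0 : M.map (lres H (q.out)⁻¹) = 0
    · exact ⟨0, by rw [h0, Matrix.mul_zero], fun _ => rfl⟩
    · obtain ⟨Θ, hΘ⟩ := hf (q.out)⁻¹
      exact ⟨Θ, hΘ, fun h => absurd h h0⟩
  choose Θ hΘ hΘ0 using hf'
  obtain ⟨Q, hQ⟩ := exists_lcosets H M
  refine ⟨fun k j => ∑ q ∈ Q, emb R H (Θ q k j) * MonoidAlgebra.single (q.out)⁻¹ 1, ?_, ?_⟩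
  · intro k j g hg
    obtain ⟨q, _, hq⟩ := exists_of_coeff_sum_ne _ _ _ hg
    rw [MonoidAlgebra.coeff_mul_single_apply, mul_one, inv_inv] at hq
    have hmem := mem_of_emb_ne H _ _ hq
    have hne : Θ q ≠ 0 := by
      intro h0
      apply hq
      rw [h0]
      simp
    have hne2 : M.map (lres H (q.out)⁻¹) ≠ 0 := fun h => hne (hΘ0 q h)
    have : ∃ i' j' h', (M i' j').coeff ((h' : H) * (q.out)⁻¹) ≠ 0 := by
      by_contra hc
      push Not at hc
      apply hne2
      ext1 i' j'
      ext h'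
      simpa [lres_coeff] using hc i' j' h'
    obtain ⟨i', j', h', hx⟩ := this
    have hxX := hM i' j' _ hx
    have := hX ((g * q.out) * (h' : G)⁻¹) (H.mul_mem hmem (H.inv_mem h'.2)) _ hxX
    simpa [mul_assoc] using this
  · ext1 i j
    have h1 := ldecomp H (M i j) Q (fun g hg => hQ i j g hg)
    rw [Matrix.mul_apply]
    simp only [Matrix.map_apply, Finset.mul_sum]
    rw [Finset.sum_comm]
    conv_lhs => rw [h1]
    refine Finset.sum_congr rfl fun q _ => ?_
    have h2 : lres H (q.out)⁻¹ (M i j) = ∑ k, p i k * Θ q k j := by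
      have := congrFun (congrFun (hΘ q) i) j
      simpa [Matrix.mul_apply] using this
    rw [h2, map_sum, Finset.sum_mul]
    refine Finset.sum_congr rfl fun k _ => ?_
    rw [map_mul, mul_assoc]

theorem DJ {c : Type} {m r : ℕ} (θ : Matrix (Fin m) (Fin r) (MonoidAlgebra R G))
    (Z : Matrix (Fin r) c (MonoidAlgebra R G)) (X Y : Set G)
    (hX : ∀ h ∈ H, ∀ x ∈ X, x * h ∈ X) (hY : ∀ h ∈ H, ∀ y ∈ Y, h * y ∈ Y) (hd : Disj H X Y)
    (hθ : SuppIn X θ) (hZ : SuppIn Y Z) (h0 : θ * Z = 0) (t : G) :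
    (θ.map (res H t)).map (emb R H) * Z = 0 := by
  classical
  obtain ⟨Q, hQ⟩ := exists_cosets H θ
  set q0 : G ⧸ H := (t : G ⧸ H) with hq0
  set τ : G ⧸ H → G := Function.update (fun q : G ⧸ H => q.out) q0 t with hτdef
  have hτ : ∀ q, (τ q : G ⧸ H) = q := by
    intro q
    by_cases h : q = q0
    · rw [h, hτdef, Function.update_self]
    · rw [hτdef, Function.update_of_ne h]
      exact QuotientGroup.out_eq' q
  have hτ0 : τ q0 = t := by rw [hτdef, Function.update_self]
  -- the pieces
  let W : G ⧸ H → Matrix (Fin m) c (MonoidAlgebra R G) :=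
    fun q => (θ.map (res H (τ q))).map (emb R H) * Z
  have hWsupp : ∀ q i j x, (W q i j).coeff x ≠ 0 → x ∈ Y ∧ τ q ∈ X := by
    intro q i j x hx
    have hx' : (∑ k, emb R H (res H (τ q) (θ i k)) * Z k j).coeff x ≠ 0 := by
      simpa [W, Matrix.mul_apply] using hx
    obtain ⟨k, _, hk⟩ := exists_of_coeff_sum_ne _ _ _ hx'
    constructor
    · rw [MonoidAlgebra.coeff_mul_apply_left] at hk
      obtain ⟨a, ha, hk2⟩ := Finset.exists_ne_zero_of_sum_ne_zero hk
      have haH : a ∈ H := mem_of_emb_ne H _ _ (Finsupp.mem_support_iff.1 ha)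
      have hz : (Z k j).coeff (a⁻¹ * x) ≠ 0 := by
        intro h
        apply hk2
        simp [h]
      have := hY a haH _ (hZ _ _ _ hz)
      simpa using this
    · have hne : res H (τ q) (θ i k) ≠ 0 := by
        intro h
        apply hk
        rw [h]
        simp
      have : ∃ h' : H, (θ i k).coeff (τ q * h') ≠ 0 := by
        by_contra hc
        push Not at hc
        apply hne
        ext h'
        simpa [res_coeff] using hc h'
      obtain ⟨h', hh⟩ := this
      have := hX ((h' : G)⁻¹) (H.inv_mem h'.2) _ (hθ _ _ _ hh)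
      simpa [mul_assoc] using this
  have hsum : ∀ i j, (θ * Z) i j = ∑ q ∈ Q, MonoidAlgebra.single (τ q) 1 * W q i j := by
    intro i j
    have h1 : ∀ k, θ i k = ∑ q ∈ Q, MonoidAlgebra.single (τ q) 1 * emb R H (res H (τ q) (θ i k)) :=
      fun k => decomp H τ hτ (θ i k) Q (fun g hg => hQ i k g hg)
    rw [Matrix.mul_apply]
    calc ∑ k, θ i k * Z k j
        = ∑ k, (∑ q ∈ Q, MonoidAlgebra.single (τ q) 1 * emb R H (res H (τ q) (θ i k))) * Z k j :=
          Finset.sum_congr rfl fun k _ => by rw [← h1 k]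
      _ = ∑ k, ∑ q ∈ Q, MonoidAlgebra.single (τ q) 1 *
            (emb R H (res H (τ q) (θ i k)) * Z k j) :=
          Finset.sum_congr rfl fun k _ => by
            rw [Finset.sum_mul]
            exact Finset.sum_congr rfl fun q _ => by rw [mul_assoc]
      _ = ∑ q ∈ Q, ∑ k, MonoidAlgebra.single (τ q) 1 *
            (emb R H (res H (τ q) (θ i k)) * Z k j) := Finset.sum_comm
      _ = ∑ q ∈ Q, MonoidAlgebra.single (τ q) 1 * W q i j :=
          Finset.sum_congr rfl fun q _ => by
            rw [← Finset.mul_sum]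
            simp [W, Matrix.mul_apply]
  -- each piece vanishes
  have hW : W q0 = 0 := by
    by_cases hq0Q : q0 ∈ Q
    · ext1 i j
      ext x
      by_contra hx
      have hx' : (W q0 i j).coeff x ≠ 0 := by simpa using hx
      obtain ⟨hxY, hτX⟩ := hWsupp q0 i j x hx'
      have h2 := congrArg (fun z => z.coeff (τ q0 * x)) (hsum i j)
      simp only [h0] at h2
      rw [MonoidAlgebra.coeff_sum, Finsupp.finsetSum_apply] at h2
      simp only [MonoidAlgebra.coeff_single_mul_apply, one_mul] at h2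
      rw [Finset.sum_eq_single q0] at h2
      · apply hx'
        have : (τ q0)⁻¹ * (τ q0 * x) = x := by group
        rw [this] at h2
        rw [← h2]
        simp
      · intro q _ hq
        by_contra hne
        obtain ⟨hy', hτ'⟩ := hWsupp q i j _ hne
        have hmem := hd (τ q0) hτX (τ q) hτ' x hxY _ hy' (by group)
        rw [← QuotientGroup.eq, hτ, hτ] at hmem
        exact hq hmem.symm
      · intro h
        exact absurd hq0Q h
    · have hz : θ.map (res H (τ q0)) = 0 := by
        ext1 i k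
        ext h'
        rw [Matrix.map_apply, res_coeff]
        by_contra hne
        have hne' : (θ i k).coeff (τ q0 * h') ≠ 0 := by simpa using hne
        apply hq0Q
        have := hQ i k _ hne'
        have h3 : ((τ q0 * (h' : G) : G) : G ⧸ H) = (τ q0 : G ⧸ H) := by
          rw [eq_comm, QuotientGroup.eq]
          simp
        rw [h3, hτ] at this
        exact this
      change (θ.map (res H (τ q0))).map (emb R H) * Z = 0
      rw [hz]
      ext1 i j
      simp [Matrix.mul_apply]
  have := hW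
  simp only [W, hτ0] at this
  exact this

end RESAux

theorem specRES : SpecRES := by
  intro R G _ _ H
  exact ⟨fun t y z => RESAux.res_add H t y z, fun t y z => RESAux.lres_add H t y z,
    fun t y s => RESAux.res_mul_emb H t y s, fun t y s => RESAux.lres_emb_mul H t y s,
    fun y h => RESAux.eq_zero_of_res H y h, fun y h => RESAux.eq_zero_of_lres H y h,
    fun _ _ _ p hp Z hZ => RESAux.CR H p hp Z hZ, fun _ _ _ p hp Z hZ => RESAux.CL H p hp Z hZ,
    fun _ _ _ p M X hX hM hf => RESAux.RF H p M X hX hM hf,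
    fun _ _ _ p M X hX hM hf => RESAux.LF H p M X hX hM hf,
    fun _ _ _ θ Z X Y hX hY hd hθ hZ h0 t => RESAux.DJ H θ Z X Y hX hY hd hθ hZ h0 t⟩

end Pool.Agent.Lib.MP8a3537.UV
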