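import Pool.Agent.Lib.MP_8a3537_gt.UV.Spec

/-!
# One P-move and the nil length (module NIL)
-/

namespace Pool.Agent.Lib.MP8a3537.UV

open Matrix

namespace NILAux

section Supp

variable {R G : Type} [Ring R] [Group G]

theorem coeff_mul_ne (x y : MonoidAlgebra R G) (g : G) (h : (x * y).coeff g ≠ 0) :
    ∃ u v, x.coeff u ≠ 0 ∧ y.coeff v ≠ 0 ∧ u * v = g := by
  classical
  have := MonoidAlgebra.support_coeff_mul_subset x y (Finsupp.mem_support_iff.2 h)
  obtain ⟨u, hu, v, hv, e⟩ := Finset.mem_mul.1 this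
  exact ⟨u, v, Finsupp.mem_support_iff.1 hu, Finsupp.mem_support_iff.1 hv, e⟩

theorem supp_mul {l m n : Type} [Fintype m] {X Y Z : Set G}
    {M : Matrix l m (MonoidAlgebra R G)} {N : Matrix m n (MonoidAlgebra R G)}
    (hM : SuppIn X M) (hN : SuppIn Y N) (h : ∀ x ∈ X, ∀ y ∈ Y, x * y ∈ Z) :
    SuppIn Z (M * N) := by
  intro i j g hg
  rw [Matrix.mul_apply, MonoidAlgebra.coeff_sum, Finsupp.finsetSum_apply] at hg
  obtain ⟨k, -, hk⟩ := Finset.exists_ne_zero_of_sum_ne_zero hg
  obtain ⟨u, v, hu, hv, e⟩ := coeff_mul_ne _ _ _ hk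
  rw [← e]
  exact h _ (hM _ _ _ hu) _ (hN _ _ _ hv)

theorem supp_add {l m : Type} {X : Set G} {M N : Matrix l m (MonoidAlgebra R G)}
    (hM : SuppIn X M) (hN : SuppIn X N) : SuppIn X (M + N) := by
  intro i j g hg
  rw [Matrix.add_apply, MonoidAlgebra.coeff_add, Finsupp.add_apply] at hg
  by_cases h : (M i j).coeff g = 0
  · rw [h, zero_add] at hg
    exact hN _ _ _ hg
  · exact hM _ _ _ h

theorem supp_smul {l m : Type} {X : Set G} {M : Matrix l m (MonoidAlgebra R G)} (z : ℤ)
    (hM : SuppIn X M) : SuppIn X (z • M) := by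
  intro i j g hg
  refine hM i j g fun h => hg ?_
  rw [Matrix.smul_apply, MonoidAlgebra.coeff_smul, Finsupp.smul_apply, h, smul_zero]

theorem eq_zero_of_add {l m : Type} {X Y : Set G} {M N : Matrix l m (MonoidAlgebra R G)}
    (hM : SuppIn X M) (hN : SuppIn Y N) (hd : ∀ g ∈ X, g ∉ Y) (h : M + N = 0) : M = 0 := by
  ext i j g
  by_contra hne
  have hX : g ∈ X := hM i j g (by simpa using hne)
  have h1 : (M i j).coeff g + (N i j).coeff g = 0 := by
    have := congrArg (fun W : Matrix l m (MonoidAlgebra R G) => (W i j).coeff g) h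
    simpa using this
  have hN0 : (N i j).coeff g = 0 := by
    by_contra hn
    exact hd g hX (hN i j g hn)
  rw [hN0, add_zero] at h1
  exact hne (by simpa using h1)

theorem coeff_one_ne (g : G) (h : g ≠ 1) : (1 : MonoidAlgebra R G).coeff g = 0 := by
  classical
  rw [MonoidAlgebra.one_def, MonoidAlgebra.coeff_single, Finsupp.single_apply,
    if_neg (Ne.symm h)]

omit [Group G] in
theorem supp_mono {l m : Type} {X Y : Set G} {M : Matrix l m (MonoidAlgebra R G)}
    (hM : SuppIn X M) (h : ∀ x ∈ X, x ∈ Y) : SuppIn Y M := fun i j g hg => h g (hM i j g hg)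

end Supp

section Star

variable {R G : Type} [Ring R] [StarRing R] [Group G]

theorem supp_star {l m : Type} {X : Set G} {M : Matrix l m (MonoidAlgebra R G)}
    (hM : SuppIn X M) : SuppIn (Xinv X) Mᴴ := by
  intro i j g hg
  rw [Matrix.conjTranspose_apply, star_coeff] at hg
  refine hM j i g⁻¹ fun h => hg ?_
  rw [h, star_zero]

/-- Left cancellation of `pᴴ` from right cancellation of `p`. -/
theorem cancel_left {n r : ℕ} {p : Matrix (Fin r) (Fin n) (MonoidAlgebra R G)}
    (hc : ∀ (l : Type) (Z : Matrix l (Fin r) (MonoidAlgebra R G)), Z * p = 0 → Z = 0)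
    {c : Type} (Z : Matrix (Fin r) c (MonoidAlgebra R G)) (h : pᴴ * Z = 0) : Z = 0 := by
  have h1 : Zᴴ * p = 0 := by
    have := congrArg Matrix.conjTranspose h
    rwa [Matrix.conjTranspose_mul, Matrix.conjTranspose_conjTranspose,
      Matrix.conjTranspose_zero] at this
  have h2 := hc c Zᴴ h1
  have := congrArg Matrix.conjTranspose h2
  rwa [Matrix.conjTranspose_conjTranspose, Matrix.conjTranspose_zero] at this

end Star

section Alg

variable {A : Type} [Ring A] [StarRing A] (ε : ℤˣ) {n r : ℕ}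
  (a μ b : Matrix (Fin n) (Fin n) A) (p : Matrix (Fin r) (Fin n) A)
  (a' : Matrix (Fin r) (Fin r) A) (m' : Matrix (Fin n) (Fin r) A)

/-- `τ`. -/
def tau : Matrix (Fin n ⊕ Fin n) (Fin r ⊕ Fin n) A :=
  fromBlocks m' ((ε : ℤ) • b) (pᴴ * a') μᴴ

/-- `P`. -/
def PP : Matrix (Fin r ⊕ Fin n) (Fin n ⊕ Fin n) A := fromBlocks p 0 0 1

/-- `Q`. -/
def QQ : Matrix (Fin r ⊕ Fin n) (Fin r ⊕ Fin r) A := fromBlocks 1 0 0 pᴴ

/-- `N = P τ`. -/
def NN : Matrix (Fin r ⊕ Fin n) (Fin r ⊕ Fin n) A :=
  fromBlocks (p * m') ((ε : ℤ) • (p * b)) (pᴴ * a') μᴴ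

variable {a μ b p a' m'}

theorem PP_tau : PP p * tau ε μ b p a' m' = NN ε μ b p a' m' := by
  unfold PP tau NN
  rw [fromBlocks_multiply]
  simp only [Matrix.zero_mul, Matrix.one_mul, add_zero, zero_add, Matrix.mul_smul, smul_zero]

theorem NN_mul_rows {c : Type} (x : Matrix (Fin r) c A) (y : Matrix (Fin n) c A) :
    NN ε μ b p a' m' * fromRows x y = fromRows (p * m' * x + ((ε : ℤ) • (p * b)) * y)
      (pᴴ * a' * x + μᴴ * y) := by
  unfold NN
  rw [fromBlocks_mul_fromRows]

theorem nu_eq (ha : a = pᴴ * a' * p) (hm : μ = m' * p) :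
    nu ε a μ b = tau ε μ b p a' m' * PP p := by
  unfold nu PP tau
  rw [fromBlocks_multiply]
  simp only [Matrix.mul_zero, Matrix.mul_one, add_zero, zero_add]
  rw [← hm, ← ha]

theorem QQ_nu (hm : μ = m' * p) :
    QQ p * nu ε a' (p * m') (p * b * pᴴ) = NN ε μ b p a' m' * QQ p := by
  unfold nu QQ NN
  rw [fromBlocks_multiply, fromBlocks_multiply]
  simp only [Matrix.mul_zero, Matrix.mul_one, Matrix.zero_mul, Matrix.one_mul, add_zero, zero_add,
    Matrix.smul_mul]
  congr 1
  rw [Matrix.conjTranspose_mul, hm, Matrix.conjTranspose_mul, Matrix.mul_assoc]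

theorem PP_pow (ha : a = pᴴ * a' * p) (hm : μ = m' * p) (l : ℕ) :
    PP p * (nu ε a μ b) ^ l = (NN ε μ b p a' m') ^ l * PP p := by
  induction l with
  | zero => rw [pow_zero, pow_zero, Matrix.mul_one, Matrix.one_mul]
  | succ l ih =>
    rw [pow_succ, ← Matrix.mul_assoc, ih, nu_eq ε ha hm, pow_succ, ← PP_tau]
    simp only [Matrix.mul_assoc]

theorem nu_pow (ha : a = pᴴ * a' * p) (hm : μ = m' * p) (l : ℕ) :
    (nu ε a μ b) ^ (l + 1) = tau ε μ b p a' m' * (NN ε μ b p a' m') ^ l * PP p := by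
  rw [pow_succ', Matrix.mul_assoc, ← PP_pow ε ha hm, ← Matrix.mul_assoc, ← nu_eq ε ha hm]

theorem QQ_pow (hm : μ = m' * p) (l : ℕ) :
    QQ p * (nu ε a' (p * m') (p * b * pᴴ)) ^ l = (NN ε μ b p a' m') ^ l * QQ p := by
  induction l with
  | zero => rw [pow_zero, pow_zero, Matrix.mul_one, Matrix.one_mul]
  | succ l ih =>
    rw [pow_succ, ← Matrix.mul_assoc, ih, Matrix.mul_assoc, QQ_nu ε hm, ← Matrix.mul_assoc,
      pow_succ]

omit [StarRing A] in
/-- `P` cancels on the right. -/
theorem PP_cancel (hc : ∀ (l : Type) (Z : Matrix l (Fin r) A), Z * p = 0 → Z = 0)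
    {l : Type} (Z : Matrix l (Fin r ⊕ Fin n) A) (h : Z * PP p = 0) : Z = 0 := by
  have h1 := h
  rw [← fromCols_toCols Z] at h1 ⊢
  unfold PP at h1
  rw [fromCols_mul_fromBlocks] at h1
  simp only [Matrix.mul_zero, Matrix.mul_one, add_zero, zero_add] at h1
  have h2 : Z.toCols₁ * p = 0 := by
    ext i j
    exact congrFun (congrFun h1 i) (Sum.inl j)
  have h3 : Z.toCols₂ = 0 := by
    ext i j
    exact congrFun (congrFun h1 i) (Sum.inr j)
  rw [hc _ _ h2, h3, fromCols_zero]

end Alg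

end NILAux

open NILAux in
theorem specNIL : SpecNIL := by
  intro R G _ _ _ H X1 X2 X3 Yp Ym hPP ε n r a μ b p a' m' hPM hb hμ l hl
  have ha := hPM.eq_a
  have hm := hPM.eq_m
  have hc := hPM.cancel
  have hcl := fun {c : Type} => cancel_left (c := c) hc
  -- (i)
  have htau : tau ε μ b p a' m' * (NN ε μ b p a' m') ^ l = 0 := by
    apply PP_cancel hc
    rw [← nu_pow ε ha hm, hl]
  have hN : (NN ε μ b p a' m') ^ (l + 1) = 0 := by
    rw [pow_succ']
    nth_rewrite 1 [← PP_tau]
    rw [Matrix.mul_assoc, htau, Matrix.mul_zero]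
  have hQ := QQ_pow (ε := ε) (b := b) (a' := a') (p := p) hm l
  -- rows of Q times a matrix
  have hQl : ∀ {c : Type} (W : Matrix (Fin r ⊕ Fin r) c (MonoidAlgebra R G)) i j,
      (QQ p * W) (Sum.inl i) j = W (Sum.inl i) j := by
    intro c W i j
    rw [← fromRows_toRows W]
    unfold QQ
    rw [fromBlocks_mul_fromRows]
    simp
  have hQr : ∀ {c : Type} (W : Matrix (Fin r ⊕ Fin r) c (MonoidAlgebra R G)),
      (∀ i j, (QQ p * W) (Sum.inr i) j = 0) → ∀ i j, W (Sum.inr i) j = 0 := by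
    intro c W hW
    have h1 : pᴴ * W.toRows₂ = 0 := by
      ext1 i j
      have := hW i j
      rw [← fromRows_toRows W] at this
      unfold QQ at this
      rw [fromBlocks_mul_fromRows] at this
      simpa using this
    have h2 := hcl _ h1
    intro i j
    exact congrFun (congrFun h2 i) j
  have hNQ : ∀ k, QQ p * (nu ε a' (p * m') (p * b * pᴴ)) ^ k = (NN ε μ b p a' m') ^ k * QQ p :=
    fun k => QQ_pow (ε := ε) (b := b) (a' := a') (p := p) hm k
  refine ⟨?_, ?_, ?_⟩
  · have h0 : QQ p * (nu ε a' (p * m') (p * b * pᴴ)) ^ (l + 1) = 0 := by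
      rw [hNQ, hN, Matrix.zero_mul]
    ext1 i j
    rcases i with i | i
    · have h7 := hQl ((nu ε a' (p * m') (p * b * pᴴ)) ^ (l + 1)) i j
      rw [h0] at h7
      exact h7.symm
    · exact hQr _ (fun i j => by rw [h0]; rfl) i j
  · -- supports
    have hsupp : ∀ k, SuppIn Yp ((NN ε μ b p a' m') ^ k).toRows₁ ∧
        SuppIn Ym ((NN ε μ b p a' m') ^ k).toRows₂ := by
      intro k
      induction k with
      | zero =>
        constructor
        · intro i j g hg
          rw [pow_zero] at hg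
          have : (1 : Matrix (Fin r ⊕ Fin n) (Fin r ⊕ Fin n) (MonoidAlgebra R G)).toRows₁ i j =
              if Sum.inl i = j then 1 else 0 := rfl
          rw [this] at hg
          split_ifs at hg with hij
          · by_cases hg1 : g = 1
            · rw [hg1]; exact hPP.Yp1
            · exfalso
              apply hg
              exact coeff_one_ne g hg1
          · exact absurd rfl hg
        · intro i j g hg
          rw [pow_zero] at hg
          have : (1 : Matrix (Fin r ⊕ Fin n) (Fin r ⊕ Fin n) (MonoidAlgebra R G)).toRows₂ i j =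
              if Sum.inr i = j then 1 else 0 := rfl
          rw [this] at hg
          split_ifs at hg with hij
          · by_cases hg1 : g = 1
            · rw [hg1]; exact hPP.Ym1
            · exfalso
              apply hg
              exact coeff_one_ne g hg1
          · exact absurd rfl hg
      | succ k ih =>
        have e : (NN ε μ b p a' m') ^ (k + 1) =
            fromRows (p * m' * ((NN ε μ b p a' m') ^ k).toRows₁ +
              ((ε : ℤ) • (p * b)) * ((NN ε μ b p a' m') ^ k).toRows₂)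
            (pᴴ * a' * ((NN ε μ b p a' m') ^ k).toRows₁ +
              μᴴ * ((NN ε μ b p a' m') ^ k).toRows₂) := by
          rw [pow_succ', ← NN_mul_rows, fromRows_toRows]
        have hp := hPM.supp_p
        have hps : SuppIn (H : Set G) pᴴ := supp_mono (supp_star hp)
          (fun x hx => (Subgroup.inv_mem_iff H).1 hx)
        rw [e, toRows₁_fromRows, toRows₂_fromRows]
        constructor
        · apply supp_add
          · exact supp_mul (supp_mul hp hPM.supp_m' hPP.X3l) ih.1 hPP.X3Y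
          · exact supp_mul (supp_smul _ (supp_mul hp hb hPP.X2l)) ih.2 hPP.X2Y
        · apply supp_add
          · exact supp_mul (supp_mul hps hPM.supp_a' hPP.X1l) ih.1 hPP.X1Y
          · exact supp_mul (supp_star hμ) ih.2 hPP.X3Y'
    obtain ⟨hx, hy⟩ := hsupp l
    set x := ((NN ε μ b p a' m') ^ l).toRows₁ with hxdef
    set y := ((NN ε μ b p a' m') ^ l).toRows₂ with hydef
    have ht2 := htau
    rw [← fromRows_toRows ((NN ε μ b p a' m') ^ l), ← hxdef, ← hydef] at ht2
    unfold tau at ht2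
    rw [fromBlocks_mul_fromRows] at ht2
    have e1 : m' * x + (ε : ℤ) • b * y = 0 := by
      ext1 i j
      exact congrFun (congrFun ht2 (Sum.inl i)) j
    have e2 : pᴴ * a' * x + μᴴ * y = 0 := by
      ext1 i j
      exact congrFun (congrFun ht2 (Sum.inr i)) j
    have hp := hPM.supp_p
    have hps : SuppIn (H : Set G) pᴴ := supp_mono (supp_star hp)
      (fun x hx => (Subgroup.inv_mem_iff H).1 hx)
    have m1 : m' * x = 0 := by
      refine eq_zero_of_add (X := {g | ∃ u ∈ X3, ∃ v ∈ Yp, u * v = g})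
        (Y := {g | ∃ u ∈ X2, ∃ v ∈ Ym, u * v = g}) ?_ ?_ ?_ e1
      · exact supp_mul hPM.supp_m' hx (fun u hu v hv => ⟨u, hu, v, hv, rfl⟩)
      · exact supp_mul (supp_smul _ hb) hy (fun u hu v hv => ⟨u, hu, v, hv, rfl⟩)
      · rintro g ⟨u, hu, v, hv, rfl⟩ ⟨u', hu', v', hv', h⟩
        exact hPP.d23 u' hu' v' hv' u hu v hv h
    have m2 : pᴴ * a' * x = 0 := by
      refine eq_zero_of_add (X := {g | ∃ u ∈ X1, ∃ v ∈ Yp, u * v = g})
        (Y := {g | ∃ u ∈ Xinv X3, ∃ v ∈ Ym, u * v = g}) ?_ ?_ ?_ e2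
      · exact supp_mul (supp_mul hps hPM.supp_a' hPP.X1l) hx
          (fun u hu v hv => ⟨u, hu, v, hv, rfl⟩)
      · exact supp_mul (supp_star hμ) hy (fun u hu v hv => ⟨u, hu, v, hv, rfl⟩)
      · rintro g ⟨u, hu, v, hv, rfl⟩ ⟨u', hu', v', hv', h⟩
        exact hPP.d13 u hu v hv u' hu' v' hv' h.symm
    have hx0 : x = 0 := hPM.inj Yp hPP.Ypl hPP.u1 hPP.u3 _ x hx m2 m1
    intro i j
    have h7 := hQl ((nu ε a' (p * m') (p * b * pᴴ)) ^ l) i j
    rw [hNQ] at h7
    have h8 : ((NN ε μ b p a' m') ^ l * QQ p) (Sum.inl i) j = (x * QQ p) i j := rfl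
    rw [h8, hx0, Matrix.zero_mul] at h7
    exact h7.symm
  · intro hin
    have h1 : ∀ i j, ((NN ε μ b p a' m') ^ l * PP p) (Sum.inr i) j = 0 := by
      intro i j
      rw [← PP_pow ε ha hm]
      have : (PP p * (nu ε a μ b) ^ l) (Sum.inr i) j = ((nu ε a μ b) ^ l) (Sum.inr i) j := by
        conv_lhs => rw [← fromRows_toRows ((nu ε a μ b) ^ l)]
        unfold PP
        rw [fromBlocks_mul_fromRows]
        simp
      rw [this]
      exact hin i j
    have h2 : ((NN ε μ b p a' m') ^ l).toRows₂ * PP p = 0 := by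
      ext1 i j
      exact h1 i j
    have h3 := PP_cancel hc _ h2
    apply hQr
    intro i j
    rw [hNQ]
    have : ((NN ε μ b p a' m') ^ l * QQ p) (Sum.inr i) j =
        (((NN ε μ b p a' m') ^ l).toRows₂ * QQ p) i j := rfl
    rw [this, h3, Matrix.zero_mul]
    rfl

end Pool.Agent.Lib.MP8a3537.UV
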