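import Pool.Agent.Lib.MP_8a3537_gt.UV.Spec

/-!
# UV, module IND: the induction on the nil length
-/

namespace Pool.Agent.Lib.MP8a3537.UV

open Matrix

namespace INDAux

section Supp

variable {R G : Type} [Ring R] [Group G]

theorem supp_mul {m n l : Type} [Fintype n] {X Y Z : Set G} {M : Matrix m n (MonoidAlgebra R G)}
    {N : Matrix n l (MonoidAlgebra R G)} (hM : SuppIn X M) (hN : SuppIn Y N)
    (h : ∀ x ∈ X, ∀ y ∈ Y, x * y ∈ Z) : SuppIn Z (M * N) := by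
  intro i j g hg
  rw [Matrix.mul_apply, MonoidAlgebra.coeff_sum, Finsupp.finsetSum_apply] at hg
  obtain ⟨k, _, hk⟩ := Finset.exists_ne_zero_of_sum_ne_zero hg
  rw [MonoidAlgebra.coeff_mul_apply_left] at hk
  obtain ⟨y, _, hy⟩ := Finset.exists_ne_zero_of_sum_ne_zero hk
  have h1 := hM i k y (left_ne_zero_of_mul hy)
  have h2 := hN k j _ (right_ne_zero_of_mul hy)
  have h3 := h _ h1 _ h2
  rwa [mul_inv_cancel_left] at h3

theorem supp_add {m n : Type} {X : Set G} {M N : Matrix m n (MonoidAlgebra R G)}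
    (hM : SuppIn X M) (hN : SuppIn X N) : SuppIn X (M + N) := by
  intro i j g hg
  by_contra hc
  apply hg
  rw [Matrix.add_apply, MonoidAlgebra.coeff_add, Finsupp.add_apply]
  have h1 : (M i j).coeff g = 0 := by
    by_contra h
    exact hc (hM i j g h)
  have h2 : (N i j).coeff g = 0 := by
    by_contra h
    exact hc (hN i j g h)
  rw [h1, h2, add_zero]

theorem supp_neg {m n : Type} {X : Set G} {M : Matrix m n (MonoidAlgebra R G)}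
    (hM : SuppIn X M) : SuppIn X (-M) := by
  intro i j g hg
  apply hM i j g
  intro h
  apply hg
  rw [Matrix.neg_apply]
  simp [h]

theorem supp_units {m n : Type} {X : Set G} {M : Matrix m n (MonoidAlgebra R G)} (ε : ℤˣ)
    (hM : SuppIn X M) : SuppIn X ((ε : ℤ) • M) := by
  rcases Int.units_eq_one_or ε with rfl | rfl
  · simpa using hM
  · simpa using supp_neg hM

end Supp

section Star

variable {R G : Type} [Ring R] [StarRing R] [Group G]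

theorem supp_star {m n : Type} {X Y : Set G} {M : Matrix m n (MonoidAlgebra R G)}
    (hM : SuppIn X M) (h : ∀ x ∈ X, x⁻¹ ∈ Y) : SuppIn Y Mᴴ := by
  intro i j g hg
  rw [Matrix.conjTranspose_apply, star_coeff] at hg
  have h1 : (M j i).coeff g⁻¹ ≠ 0 := by
    intro h
    rw [h, star_zero] at hg
    exact hg rfl
  have h2 := h _ (hM j i _ h1)
  rwa [inv_inv] at h2

end Star

section Alg

variable {A : Type} [Ring A] [StarRing A]

theorem units_smul_smul {m n : Type} (ε : ℤˣ) (M : Matrix m n A) :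
    (ε : ℤ) • ((ε : ℤ) • M) = M := by
  rcases Int.units_eq_one_or ε with rfl | rfl <;> simp

theorem star_units {m n : Type} (ε : ℤˣ) (M : Matrix m n A) :
    ((ε : ℤ) • M)ᴴ = (ε : ℤ) • Mᴴ := by
  rcases Int.units_eq_one_or ε with rfl | rfl <;> simp

theorem sym_of {n : Type} (ε : ℤˣ) (ψ : Matrix n n A) :
    ψ + (ε : ℤ) • ψᴴ = (ε : ℤ) • (ψ + (ε : ℤ) • ψᴴ)ᴴ := by
  rw [conjTranspose_add, star_units, conjTranspose_conjTranspose, smul_add, units_smul_smul,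
    add_comm]

theorem neg_units {m n : Type} (ε : ℤˣ) (M : Matrix m n A) :
    ((-ε : ℤˣ) : ℤ) • M = -((ε : ℤ) • M) := by
  rw [Units.val_neg, neg_smul]

/-- The exchange matrix. -/
def W (n A : Type) [Fintype n] [DecidableEq n] [Ring A] (ε : ℤˣ) : Matrix (n ⊕ n) (n ⊕ n) A :=
  fromBlocks 0 1 ((ε : ℤ) • 1) 0

/-- Its inverse. -/
def W' (n A : Type) [Fintype n] [DecidableEq n] [Ring A] (ε : ℤˣ) : Matrix (n ⊕ n) (n ⊕ n) A :=
  fromBlocks 0 ((ε : ℤ) • 1) 1 0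

theorem W_mul_W' {n : Type} [Fintype n] [DecidableEq n] (ε : ℤˣ) : W n A ε * W' n A ε = 1 := by
  unfold W W'
  rw [fromBlocks_multiply, ← fromBlocks_one]
  rcases Int.units_eq_one_or ε with rfl | rfl <;> simp

theorem W'_mul_W {n : Type} [Fintype n] [DecidableEq n] (ε : ℤˣ) : W' n A ε * W n A ε = 1 := by
  unfold W W'
  rw [fromBlocks_multiply, ← fromBlocks_one]
  rcases Int.units_eq_one_or ε with rfl | rfl <;> simp

theorem nu_swap {n : Type} [Fintype n] [DecidableEq n] (ε : ℤˣ) (a μ b : Matrix n n A) :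
    nu ε b μᴴ a = W n A ε * nu ε a μ b * W' n A ε := by
  unfold nu W W'
  rw [fromBlocks_multiply, fromBlocks_multiply]
  rcases Int.units_eq_one_or ε with rfl | rfl <;> simp

theorem nu_swap_pow {n : Type} [Fintype n] [DecidableEq n] (ε : ℤˣ) (a μ b : Matrix n n A)
    (l : ℕ) : (nu ε b μᴴ a) ^ l = W n A ε * (nu ε a μ b) ^ l * W' n A ε := by
  induction l with
  | zero => rw [pow_zero, pow_zero, Matrix.mul_one, W_mul_W']
  | succ l ih =>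
    rw [pow_succ, ih, nu_swap, pow_succ]
    calc W n A ε * nu ε a μ b ^ l * W' n A ε * (W n A ε * nu ε a μ b * W' n A ε)
        = W n A ε * nu ε a μ b ^ l * (W' n A ε * W n A ε) * nu ε a μ b * W' n A ε := by
          simp only [Matrix.mul_assoc]
      _ = _ := by
          rw [W'_mul_W, Matrix.mul_one]
          simp only [Matrix.mul_assoc]

theorem swap_zero {n : Type} [Fintype n] [DecidableEq n] (ε : ℤˣ) (a μ b : Matrix n n A)
    (l : ℕ) (h : (nu ε a μ b) ^ l = 0) : (nu ε b μᴴ a) ^ l = 0 := by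
  rw [nu_swap_pow, h, Matrix.mul_zero, Matrix.zero_mul]

theorem swap_rows {n : Type} [Fintype n] [DecidableEq n] (ε : ℤˣ) (a μ b : Matrix n n A)
    (l : ℕ) (h : ∀ i j, ((nu ε a μ b) ^ l) (Sum.inl i) j = 0) :
    ∀ i j, ((nu ε b μᴴ a) ^ l) (Sum.inr i) j = 0 := by
  intro i j
  rw [nu_swap_pow, Matrix.mul_assoc, Matrix.mul_apply]
  apply Finset.sum_eq_zero
  intro k _
  rcases k with k | k
  · have : (nu ε a μ b ^ l * W' n A ε) (Sum.inl k) j = 0 := by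
      rw [Matrix.mul_apply]
      apply Finset.sum_eq_zero
      intro q _
      rw [h, zero_mul]
    rw [this, mul_zero]
  · have : W n A ε (Sum.inr i) (Sum.inr k) = 0 := rfl
    rw [this, zero_mul]

end Alg

theorem pp_swap {G : Type} [Group G] {H : Subgroup G} {X1 X2 X3 Yp Ym : Set G}
    (P : PingPong H X1 X2 X3 Yp Ym) : PingPong H X2 X1 (Xinv X3) Ym Yp where
  X1l := P.X2l
  X1r := P.X2r
  X1i := P.X2i
  X1n := P.X2n
  X2l := P.X1l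
  X2r := P.X1r
  X2i := P.X1i
  X2n := P.X1n
  X3l := by
    intro h hh x hx
    change (h * x)⁻¹ ∈ X3
    rw [_root_.mul_inv_rev]
    exact P.X3r _ (H.inv_mem hh) _ hx
  X3r := by
    intro h hh x hx
    change (x * h)⁻¹ ∈ X3
    rw [_root_.mul_inv_rev]
    exact P.X3l _ (H.inv_mem hh) _ hx
  Yp1 := P.Ym1
  Ym1 := P.Yp1
  Ypl := P.Yml
  Yml := P.Ypl
  X1Y := P.X2Y
  X2Y := P.X1Y
  X3Y := P.X3Y'
  X3Y' := by
    intro x hx y hy
    have hx' : x⁻¹⁻¹ ∈ X3 := hx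
    rw [inv_inv] at hx'
    exact P.X3Y x hx' y hy
  d23 := P.d13
  d13 := by
    intro x hx y hy x' hx' y' hy'
    have hx'' : x'⁻¹⁻¹ ∈ X3 := hx'
    rw [inv_inv] at hx''
    exact P.d23 x hx y hy x' hx'' y' hy'
  u1 := P.u2
  u2 := P.u1
  u3 := P.u3'
  u3' := by
    intro x hx x' hx' y hy y' hy' h
    have h1 : x⁻¹⁻¹ ∈ X3 := hx
    have h2 : x'⁻¹⁻¹ ∈ X3 := hx'
    rw [inv_inv] at h1 h2
    exact P.u3 x h1 x' h2 y hy y' hy' h

theorem move (hSTK : SpecSTK) (hTAT : SpecTAT) (hEMV : SpecEMV) (hSWP : SpecSWP) (hNIL : SpecNIL)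
    {R G : Type} [Ring R] [StarRing R] [Group G] {H : Subgroup G} {X1 X2 X3 Yp Ym : Set G}
    (P : PingPong H X1 X2 X3 Yp Ym) (hFP : FP (MonoidAlgebra R H)) (ε : ℤˣ) {n : ℕ}
    (ψ μ χ : Matrix (Fin n) (Fin n) (MonoidAlgebra R G))
    (hψ : SuppIn X1 ψ) (hμ : SuppIn X3 μ) (hχ : SuppIn X2 χ) (l : ℕ)
    (hnu : (nu ε (ψ + (ε : ℤ) • ψᴴ) μ (χ + (ε : ℤ) • χᴴ)) ^ (l + 1) = 0) :
    ∃ (r : ℕ) (ψ' μ' χ' : Matrix (Fin r) (Fin r) (MonoidAlgebra R G)),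
      SuppIn X1 ψ' ∧ SuppIn X3 μ' ∧ SuppIn X2 χ' ∧
      (nu ε (ψ' + (ε : ℤ) • ψ'ᴴ) μ' (χ' + (ε : ℤ) • χ'ᴴ)) ^ (l + 1) = 0 ∧
      (∀ i j, ((nu ε (ψ' + (ε : ℤ) • ψ'ᴴ) μ' (χ' + (ε : ℤ) • χ'ᴴ)) ^ l) (Sum.inl i) j = 0) ∧
      ((∀ i j, ((nu ε (ψ + (ε : ℤ) • ψᴴ) μ (χ + (ε : ℤ) • χᴴ)) ^ l) (Sum.inr i) j = 0) →
        ∀ i j, ((nu ε (ψ' + (ε : ℤ) • ψ'ᴴ) μ' (χ' + (ε : ℤ) • χ'ᴴ)) ^ l) (Sum.inr i) j = 0) ∧
      (StablyHyperbolic ε (UF ψ' μ' χ') → StablyHyperbolic ε (UF ψ μ χ)) := by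
  have ha : SuppIn X1 (ψ + (ε : ℤ) • ψᴴ) :=
    supp_add hψ (supp_units ε (supp_star hψ P.X1i))
  have hb : SuppIn X2 (χ + (ε : ℤ) • χᴴ) :=
    supp_add hχ (supp_units ε (supp_star hχ P.X2i))
  obtain ⟨r, p, a', m', hPM, ha'⟩ := hSTK R G H X1 X3 ε n (ψ + (ε : ℤ) • ψᴴ) μ hFP P.X1r P.X1l
    P.X3r ha hμ (sym_of ε ψ)
  obtain ⟨ψ', hψ', ha'ψ⟩ := hTAT R G X1 ε r a' P.X1i P.X1n hPM.supp_a' ha'
  have hp := hPM.supp_p
  have hps : SuppIn (H : Set G) pᴴ := supp_star hp (fun x hx => H.inv_mem hx)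
  -- the difference `ψ - p^* ψ' p`
  have hd0 : (ψ - pᴴ * ψ' * p) + (ε : ℤ) • (ψ - pᴴ * ψ' * p)ᴴ = 0 := by
    have e1 := hPM.eq_a
    rw [ha'ψ] at e1
    have e2 : (pᴴ * ψ' * p)ᴴ = pᴴ * ψ'ᴴ * p := by
      rw [conjTranspose_mul, conjTranspose_mul, conjTranspose_conjTranspose, Matrix.mul_assoc]
    rw [conjTranspose_sub, e2, smul_sub]
    have e3 : pᴴ * (ψ' + (ε : ℤ) • ψ'ᴴ) * p = pᴴ * ψ' * p + (ε : ℤ) • (pᴴ * ψ'ᴴ * p) := by
      rw [Matrix.mul_add, Matrix.add_mul, Matrix.mul_smul, Matrix.smul_mul]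
    rw [e3] at e1
    calc ψ - pᴴ * ψ' * p + ((ε : ℤ) • ψᴴ - (ε : ℤ) • (pᴴ * ψ'ᴴ * p))
        = (ψ + (ε : ℤ) • ψᴴ) - (pᴴ * ψ' * p + (ε : ℤ) • (pᴴ * ψ'ᴴ * p)) := by abel
      _ = 0 := by rw [e1, sub_self]
  have hsd : SuppIn X1 (ψ - pᴴ * ψ' * p) := by
    rw [sub_eq_add_neg]
    exact supp_add hψ (supp_neg (supp_mul (supp_mul hps hψ' P.X1l) hp
      (fun x hx h hh => P.X1r h hh x hx)))
  obtain ⟨c, _, hc⟩ := hTAT R G X1 (-ε) n (ψ - pᴴ * ψ' * p) P.X1i P.X1n hsd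
    (by rw [neg_units]; exact eq_neg_of_add_eq_zero_left hd0)
  rw [neg_units, ← sub_eq_add_neg] at hc
  have hb' : p * χ * pᴴ + (ε : ℤ) • (p * χ * pᴴ)ᴴ = p * (χ + (ε : ℤ) • χᴴ) * pᴴ := by
    rw [conjTranspose_mul, conjTranspose_mul, conjTranspose_conjTranspose, Matrix.mul_add,
      Matrix.add_mul, Matrix.mul_smul, Matrix.smul_mul, Matrix.mul_assoc p χᴴ pᴴ]
  obtain ⟨n1, n2, n3⟩ := hNIL R G H X1 X2 X3 Yp Ym P ε n r _ μ _ p a' m' hPM hb hμ l hnu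
  refine ⟨r, ψ', p * m', p * χ * pᴴ, hψ', supp_mul hp hPM.supp_m' P.X3l,
    supp_mul (supp_mul hp hχ P.X2l) hps (fun x hx h hh => P.X2r h hh x hx), ?_, ?_, ?_, ?_⟩
  · rw [← ha'ψ, hb']
    exact n1
  · rw [← ha'ψ, hb']
    exact n2
  · rw [← ha'ψ, hb']
    exact n3
  · intro h
    have h1 := hEMV (MonoidAlgebra R G) ε n r ψ' m' χ p h
    rw [← hPM.eq_m] at h1
    have h2 := (hSWP (MonoidAlgebra R G) ε n (pᴴ * ψ' * p) μ χ).2.1 c 0 h1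
    have h3 : pᴴ * ψ' * p + c - (ε : ℤ) • cᴴ = ψ := by
      rw [add_sub_assoc, ← hc]
      abel
    rw [h3] at h2
    simpa using h2

theorem main (hSTK : SpecSTK) (hTAT : SpecTAT) (hEMV : SpecEMV) (hSWP : SpecSWP) (hNIL : SpecNIL)
    (l : ℕ) : ∀ {R G : Type} [Ring R] [StarRing R] [Group G] {H : Subgroup G}
    {X1 X2 X3 Yp Ym : Set G} (_ : PingPong H X1 X2 X3 Yp Ym) (_ : FP (MonoidAlgebra R H)) (ε : ℤˣ)
    {n : ℕ} (ψ μ χ : Matrix (Fin n) (Fin n) (MonoidAlgebra R G)),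
    SuppIn X1 ψ → SuppIn X3 μ → SuppIn X2 χ →
    (nu ε (ψ + (ε : ℤ) • ψᴴ) μ (χ + (ε : ℤ) • χᴴ)) ^ (l + 1) = 0 →
    StablyHyperbolic ε (UF ψ μ χ) := by
  induction l with
  | zero =>
    intro R G _ _ _ H X1 X2 X3 Yp Ym P hFP ε n ψ μ χ hψ hμ hχ hnu
    rw [zero_add, pow_one] at hnu
    unfold nu at hnu
    rw [← fromBlocks_zero, fromBlocks_inj] at hnu
    obtain ⟨h1, h2, h3, -⟩ := hnu
    have h2' : χ + (ε : ℤ) • χᴴ = 0 := by
      rw [← units_smul_smul ε (χ + (ε : ℤ) • χᴴ), h2, smul_zero]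
    obtain ⟨c, _, hc⟩ := hTAT R G X1 (-ε) n ψ P.X1i P.X1n hψ
      (by rw [neg_units]; exact eq_neg_of_add_eq_zero_left h3)
    obtain ⟨d, _, hd⟩ := hTAT R G X2 (-ε) n χ P.X2i P.X2n hχ
      (by rw [neg_units]; exact eq_neg_of_add_eq_zero_left h2')
    rw [neg_units, ← sub_eq_add_neg] at hc hd
    have h4 := (hSWP (MonoidAlgebra R G) ε n 0 0 0).2.1 c d
      (hSWP (MonoidAlgebra R G) ε n 0 0 0).2.2
    rw [zero_add, zero_add, ← hc, ← hd] at h4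
    rw [h1]
    exact h4
  | succ l ih =>
    intro R G _ _ _ H X1 X2 X3 Yp Ym P hFP ε n ψ μ χ hψ hμ hχ hnu
    obtain ⟨r1, ψ1, μ1, χ1, hψ1, hμ1, hχ1, a1, a2, -, a4⟩ :=
      move hSTK hTAT hEMV hSWP hNIL P hFP ε ψ μ χ hψ hμ hχ (l + 1) hnu
    apply a4
    apply (hSWP (MonoidAlgebra R G) ε r1 ψ1 μ1 χ1).1
    have hμ1s : SuppIn (Xinv X3) μ1ᴴ := supp_star hμ1 (fun x hx => by
      change x⁻¹⁻¹ ∈ X3
      rw [inv_inv]
      exact hx)
    obtain ⟨r2, ψ2, μ2, χ2, hψ2, hμ2, hχ2, -, b2, b3, b4⟩ :=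
      move hSTK hTAT hEMV hSWP hNIL (pp_swap P) hFP ε χ1 μ1ᴴ ψ1 hχ1 hμ1s hψ1 (l + 1)
        (swap_zero ε _ _ _ _ a1)
    apply b4
    apply ih (pp_swap P) hFP ε ψ2 μ2 χ2 hψ2 hμ2 hχ2
    have b3' := b3 (swap_rows ε _ _ _ _ a2)
    funext i j
    rcases i with i | i
    · exact b2 i j
    · exact b3' i j

end INDAux

/-- **Module IND**: the induction on the nil length. -/
theorem specIND (hSTK : SpecSTK) (hTAT : SpecTAT) (hEMV : SpecEMV) (hSWP : SpecSWP)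
    (hNIL : SpecNIL) : SpecIND := by
  intro R G _ _ _ H X1 X2 X3 Yp Ym P hFP ε n ψ μ χ hψ hμ hχ hnil
  obtain ⟨l, hl⟩ := hnil
  exact INDAux.main hSTK hTAT hEMV hSWP hNIL l P hFP ε ψ μ χ hψ hμ hχ
    (by rw [pow_succ, hl, Matrix.zero_mul])

end Pool.Agent.Lib.MP8a3537.UV
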