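import Pool.Agent.Lib.MP_8a3537_gt.UV.Spec

/-! Module HTR: a free group acts freely on a discrete tree, with even distances on an orbit. -/

namespace Pool.Agent.Lib.MP8a3537.UV

namespace HTRAux

open FreeGroup

section lists
variable {α : Type} [DecidableEq α]

/-- Length of the longest common prefix. -/
def lcp : List (α × Bool) → List (α × Bool) → ℕ
  | [], _ => 0
  | _ :: _, [] => 0
  | a :: l, b :: m => if a = b then lcp l m + 1 else 0

theorem lcp_nil_left (m : List (α × Bool)) : lcp [] m = 0 := by simp [lcp]

theorem lcp_nil_right (l : List (α × Bool)) : lcp l [] = 0 := by cases l <;> simp [lcp]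

theorem lcp_comm (l m : List (α × Bool)) : lcp l m = lcp m l := by
  induction l generalizing m with
  | nil => rw [lcp_nil_left, lcp_nil_right]
  | cons a l ih =>
    cases m with
    | nil => rw [lcp_nil_left, lcp_nil_right]
    | cons b m =>
      unfold lcp
      by_cases h : a = b
      · rw [if_pos h, if_pos h.symm, ih]
      · rw [if_neg h, if_neg (fun e => h e.symm)]

theorem lcp_le (l m : List (α × Bool)) : lcp l m ≤ l.length := by
  induction l generalizing m with
  | nil => simp [lcp_nil_left]
  | cons a l ih =>
    cases m with
    | nil => simp [lcp_nil_right]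
    | cons b m =>
      unfold lcp
      split
      · simpa using ih m
      · exact Nat.zero_le _

theorem lcp_min (u v w : List (α × Bool)) : min (lcp u w) (lcp w v) ≤ lcp u v := by
  induction u generalizing v w with
  | nil => simp [lcp_nil_left]
  | cons a u ih =>
    cases w with
    | nil => simp [lcp_nil_right]
    | cons c w =>
      cases v with
      | nil => simp [lcp_nil_right]
      | cons b v =>
        unfold lcp
        by_cases h1 : a = c
        · by_cases h2 : c = b
          · rw [if_pos h1, if_pos h2, if_pos (h1.trans h2)]
            have := ih v w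
            omega
          · rw [if_neg h2]
            simp
        · rw [if_neg h1]
          simp

theorem norm_mk {L : List (α × Bool)} (h : IsReduced L) : norm (mk L) = L.length := by
  rw [FreeGroup.norm, toWord_mk, h.reduce_eq]

theorem isReduced_invRev {L : List (α × Bool)} (h : IsReduced L) : IsReduced (invRev L) := by
  rw [isReduced_iff_reduce_eq, reduce_invRev, h.reduce_eq]

omit [DecidableEq α] in
theorem isReduced_tail {a : α × Bool} {L : List (α × Bool)} (h : IsReduced (a :: L)) :
    IsReduced L := List.IsChain.tail h

theorem norm_inv_mul (u v : List (α × Bool)) (hu : IsReduced u) (hv : IsReduced v) :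
    norm ((mk u)⁻¹ * mk v) + 2 * lcp u v = u.length + v.length := by
  induction u generalizing v with
  | nil =>
    rw [lcp_nil_left, ← one_eq_mk, inv_one, one_mul, norm_mk hv]
    simp
  | cons a u ih =>
    cases v with
    | nil =>
      rw [lcp_nil_right, ← one_eq_mk, mul_one, norm_inv_eq, norm_mk hu]
      simp
    | cons b v =>
      by_cases h : a = b
      · subst h
        have e : (mk (a :: u))⁻¹ * mk (a :: v) = (mk u)⁻¹ * mk v := by
          have h1 : mk (a :: u) = mk [a] * mk u := by rw [mul_mk]; rfl
          have h2 : mk (a :: v) = mk [a] * mk v := by rw [mul_mk]; rfl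
          rw [h1, h2]
          group
        rw [e]
        have := ih v (isReduced_tail hu) (isReduced_tail hv)
        unfold lcp
        rw [if_pos rfl]
        simp only [List.length_cons]
        omega
      · have e : (mk (a :: u))⁻¹ * mk (b :: v) = mk (invRev (a :: u) ++ (b :: v)) := by
          rw [inv_mk, mul_mk]
        have hr : IsReduced (invRev (a :: u) ++ (b :: v)) := by
          have h1 : invRev (a :: u) = invRev u ++ [(a.1, !a.2)] := by
            simp [invRev]
          have h3 : IsReduced (invRev u ++ [(a.1, !a.2)]) := by
            rw [← h1]; exact isReduced_invRev hu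
          have h4 : IsReduced ([(a.1, !a.2)] ++ (b :: v)) := by
            change IsReduced ((a.1, !a.2) :: b :: v)
            rw [isReduced_cons_cons]
            refine ⟨fun e1 => ?_, hv⟩
            have : a.2 ≠ b.2 := fun e2 => h (Prod.ext e1 e2)
            revert this
            cases a.2 <;> cases b.2 <;> simp
          rw [h1]
          exact h3.append_overlap h4 (by simp)
        rw [e, norm_mk hr]
        unfold lcp
        rw [if_neg h]
        simp only [List.length_append, invRev_length, List.length_cons]
        omega

end lists

section group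
variable {Y : Type} [DecidableEq Y]

/-- The word metric. -/
def dd (u v : FreeGroup Y) : ℕ := norm (u⁻¹ * v)

theorem dd_left (g u v : FreeGroup Y) : dd (g * u) (g * v) = dd u v := by
  unfold dd
  congr 1
  group

theorem dd_comm (u v : FreeGroup Y) : dd u v = dd v u := by
  unfold dd
  rw [← norm_inv_eq]
  congr 1
  group

theorem dd_tri (u v w : FreeGroup Y) : dd u w ≤ dd u v + dd v w := by
  unfold dd
  have : u⁻¹ * w = (u⁻¹ * v) * (v⁻¹ * w) := by group
  rw [this]
  exact norm_mul_le _ _

theorem dd_lcp (u v : FreeGroup Y) :
    dd u v + 2 * lcp u.toWord v.toWord = norm u + norm v := by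
  have := norm_inv_mul u.toWord v.toWord isReduced_toWord isReduced_toWord
  rw [mk_toWord, mk_toWord] at this
  exact this

theorem dd_one (u : FreeGroup Y) : dd 1 u = norm u := by
  unfold dd
  rw [inv_one, one_mul]

theorem dd_four (x y z w : FreeGroup Y) :
    dd x y + dd z w ≤ max (dd x z + dd y w) (dd x w + dd y z) := by
  have key : ∀ a b c : FreeGroup Y,
      dd 1 a + dd b c ≤ max (dd 1 b + dd a c) (dd 1 c + dd a b) := by
    intro a b c
    rw [dd_one, dd_one, dd_one]
    have h1 := dd_lcp b c
    have h2 := dd_lcp a c
    have h3 := dd_lcp a b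
    have h4 := lcp_min b.toWord c.toWord a.toWord
    rw [lcp_comm b.toWord a.toWord] at h4
    omega
  have := key (x⁻¹ * y) (x⁻¹ * z) (x⁻¹ * w)
  have e : ∀ p q : FreeGroup Y, dd (x⁻¹ * p) (x⁻¹ * q) = dd p q := dd_left x⁻¹
  have e1 : ∀ p : FreeGroup Y, dd 1 (x⁻¹ * p) = dd x p := by
    intro p
    rw [← dd_left x, mul_one, mul_inv_cancel_left]
  rw [e1, e1, e1, e, e, e] at this
  exact this

theorem dd_geo (x y : FreeGroup Y) (t : ℕ) (ht : t ≤ dd x y) :
    ∃ z, dd x z + t = dd x y ∧ dd z y = t := by
  set a := x⁻¹ * y with ha
  set L := a.toWord with hL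
  have hlen : L.length = dd x y := rfl
  have hr : IsReduced L := isReduced_toWord
  have hr1 : IsReduced (L.take (L.length - t)) :=
    List.IsChain.take hr _
  have hr2 : IsReduced (L.drop (L.length - t)) :=
    List.IsChain.drop hr _
  refine ⟨x * mk (L.take (L.length - t)), ?_, ?_⟩
  · have : dd x (x * mk (L.take (L.length - t))) = norm (mk (L.take (L.length - t))) := by
      unfold dd
      rw [inv_mul_cancel_left]
    rw [this, norm_mk hr1, List.length_take, ← hlen]
    omega
  · have h1 : a = mk (L.take (L.length - t)) * mk (L.drop (L.length - t)) := by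
      rw [mul_mk, List.take_append_drop, hL, mk_toWord]
    have : dd (x * mk (L.take (L.length - t))) y = norm (mk (L.drop (L.length - t))) := by
      unfold dd
      congr 1
      rw [_root_.mul_inv_rev, mul_assoc, ← ha, h1, inv_mul_cancel_left]
    rw [this, norm_mk hr2, List.length_drop]
    omega

/-- Parity of the length. -/
def par (Y : Type) : FreeGroup Y →* Multiplicative (ZMod 2) :=
  FreeGroup.lift fun _ => Multiplicative.ofAdd 1

omit [DecidableEq Y] in
theorem par_mk (L : List (Y × Bool)) :
    par Y (mk L) = Multiplicative.ofAdd ((L.length : ℕ) : ZMod 2) := by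
  unfold par
  rw [lift_mk]
  induction L with
  | nil => simp
  | cons a L ih =>
    rw [List.map_cons, List.prod_cons, ih, List.length_cons]
    have : (cond a.2 (Multiplicative.ofAdd (1 : ZMod 2)) (Multiplicative.ofAdd (1 : ZMod 2))⁻¹) =
        Multiplicative.ofAdd (1 : ZMod 2) := by
      cases a.2 <;> decide
    rw [this, ← ofAdd_add]
    congr 1
    push_cast
    ring

theorem par_norm (u : FreeGroup Y) : par Y u = Multiplicative.ofAdd ((norm u : ℕ) : ZMod 2) := by
  conv_lhs => rw [← mk_toWord (x := u)]
  rw [par_mk]
  rfl

end group

section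
variable (X : Type)

/-- Doubling of the generators. -/
def phi : FreeGroup X →* FreeGroup (Option X) :=
  FreeGroup.lift fun x => FreeGroup.of (some x) * FreeGroup.of none

/-- A left inverse. -/
def psi : FreeGroup (Option X) →* FreeGroup X :=
  FreeGroup.lift fun o => o.elim 1 FreeGroup.of

theorem psi_phi (g : FreeGroup X) : psi X (phi X g) = g := by
  have : (psi X).comp (phi X) = MonoidHom.id _ := by
    ext x
    simp [psi, phi]
  exact DFunLike.congr_fun this g

theorem par_phi (g : FreeGroup X) : par (Option X) (phi X g) = 1 := by
  have : (par (Option X)).comp (phi X) = 1 := by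
    apply FreeGroup.ext_hom
    intro x
    rw [MonoidHom.comp_apply, phi, FreeGroup.lift_apply_of, _root_.map_mul, par,
      FreeGroup.lift_apply_of, FreeGroup.lift_apply_of, MonoidHom.one_apply]
    decide
  exact DFunLike.congr_fun this g

end

end HTRAux

open HTRAux in
theorem specHTR : SpecHTR := by
  classical
  intro X
  refine ⟨{ T := FreeGroup (Option X), act := fun g z => phi X g * z, d := dd, o := 1,
            act_one := ?_, act_mul := ?_, d_self := ?_, d_comm := dd_comm, d_eq := ?_,
            tri := dd_tri, four := dd_four, geo := dd_geo, iso := ?_, free := ?_, even := ?_ }⟩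
  · intro x
    change phi X 1 * x = x
    rw [map_one, one_mul]
  · intro g h x
    change phi X (g * h) * x = phi X g * (phi X h * x)
    rw [map_mul, mul_assoc]
  · intro x
    unfold dd
    rw [inv_mul_cancel, FreeGroup.norm_one]
  · intro x y h
    unfold dd at h
    rw [FreeGroup.norm_eq_zero, inv_mul_eq_one] at h
    exact h
  · intro g x y
    exact dd_left _ _ _
  · intro g x h
    have h1 : phi X g = 1 := mul_eq_right.mp h
    rw [← psi_phi X g, h1, map_one]
  · intro g h
    rw [mul_one, mul_one]
    have h1 : par (Option X) ((phi X g)⁻¹ * phi X h) = 1 := by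
      rw [← map_inv, ← map_mul]
      exact par_phi X _
    rw [par_norm] at h1
    have h2 : ((FreeGroup.norm ((phi X g)⁻¹ * phi X h) : ℕ) : ZMod 2) = 0 := h1
    rw [ZMod.natCast_eq_zero_iff_even] at h2
    exact h2

end Pool.Agent.Lib.MP8a3537.UV
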