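import Pool.Agent.Lib.MP_8a3537_gt.UV.Spec

/-!
# UV: existence of the P-move (module STK, hypothesis `SpecRES`)
-/

namespace Pool.Agent.Lib.MP8a3537.UV

open Matrix

namespace STKAux

section

variable {R G : Type} [Ring R] [Group G]

theorem res_mul_right (H : Subgroup G) (t : G) (h : H) (y : MonoidAlgebra R G) :
    res H (t * h) y = MonoidAlgebra.single h⁻¹ 1 * res H t y := by
  ext k
  rw [MonoidAlgebra.coeff_single_mul_apply, res_coeff, res_coeff, one_mul]
  congr 1
  simp [mul_assoc]

theorem emb_coeff_of_notMem (H : Subgroup G) (s : MonoidAlgebra R H) (g : G) (hg : g ∉ H) :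
    (emb R H s).coeff g = 0 := by
  classical
  induction s using MonoidAlgebra.induction_linear with
  | zero => simp
  | add f g hf hg => rw [map_add, MonoidAlgebra.coeff_add, Finsupp.add_apply, hf, hg, add_zero]
  | single a r =>
    have h1 : emb R H (MonoidAlgebra.single a r) = MonoidAlgebra.single (a : G) r := by
      simp only [MonoidAlgebra.mapDomainRingHom_apply, MonoidAlgebra.mapDomain_single]
      rfl
    rw [h1, MonoidAlgebra.coeff_single, Finsupp.single_apply, if_neg]
    intro h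
    exact hg (h ▸ a.2)

/-- If the restrictions of `M` to the elements of a finite set which contains its support factor
through `p0`, then all restrictions do. -/
theorem fac {n r : ℕ} (H : Subgroup G) (M : Matrix (Fin n) (Fin n) (MonoidAlgebra R G))
    (J : Finset G) (hJ : ∀ i j g, (M i j).coeff g ≠ 0 → g ∈ J)
    (p0 : Matrix (Fin r) (Fin n) (MonoidAlgebra R H))
    (h : ∀ j ∈ J, ∃ Θ : Matrix (Fin n) (Fin r) (MonoidAlgebra R H), M.map (res H j) = Θ * p0) :
    ∀ t, ∃ Θ : Matrix (Fin n) (Fin r) (MonoidAlgebra R H), M.map (res H t) = Θ * p0 := by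
  intro t
  by_cases ht : ∃ j ∈ J, j⁻¹ * t ∈ H
  · obtain ⟨j, hj, hjt⟩ := ht
    obtain ⟨i', hi'⟩ := h j hj
    refine ⟨fun x y => MonoidAlgebra.single (⟨j⁻¹ * t, hjt⟩ : H)⁻¹ 1 * i' x y, ?_⟩
    refine Matrix.ext fun x y => ?_
    have h1 : t = j * ((⟨j⁻¹ * t, hjt⟩ : H) : G) := by simp
    have h2 := congrFun (congrFun hi' x) y
    rw [Matrix.map_apply, Matrix.mul_apply] at h2
    have h3 := res_mul_right H j (⟨j⁻¹ * t, hjt⟩ : H) (M x y)
    rw [← h1] at h3
    rw [Matrix.map_apply, h3, h2, Matrix.mul_apply, Finset.mul_sum]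
    exact Finset.sum_congr rfl fun l _ => (mul_assoc _ _ _).symm
  · refine ⟨0, ?_⟩
    rw [Matrix.zero_mul]
    refine Matrix.ext fun x y => ?_
    ext k
    rw [Matrix.map_apply, res_coeff]
    by_contra hne
    refine ht ⟨t * k, hJ x y _ hne, ?_⟩
    have h1 : (t * (k : G))⁻¹ * t = ((k⁻¹ : H) : G) := by simp
    rw [h1]
    exact (k⁻¹).2

end

section

variable {R G : Type} [Ring R] [StarRing R] [Group G]

theorem star_emb (H : Subgroup G) (s : MonoidAlgebra R H) :
    star (emb R H s) = emb R H (star s) := by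
  induction s using MonoidAlgebra.induction_linear with
  | zero => simp
  | add f g hf hg => simp only [map_add, star_add, hf, hg]
  | single a r =>
    rw [star_single]
    simp only [MonoidAlgebra.mapDomainRingHom_apply, MonoidAlgebra.mapDomain_single, star_single]
    simp

theorem conjTranspose_map_emb (H : Subgroup G) {m n : Type}
    (p : Matrix m n (MonoidAlgebra R H)) :
    (p.map (emb R H))ᴴ = pᴴ.map (emb R H) := by
  refine Matrix.ext fun i j => ?_
  simp only [conjTranspose_apply, map_apply, star_emb]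

end

end STKAux

open STKAux in
/-- **STK**: existence of the P-move. -/
theorem specStk (hres : SpecRES) : SpecSTK := by
  classical
  intro R G _ _ _ H X1 X3 ε n a μ hFP hX1r hX1l hX3r ha hμ hasym
  obtain ⟨hadd, hladd, hmul, hlmul, -, -, hCR, hCL, hRF, hLF, hDJ⟩ := hres R G H
  -- the supports
  obtain ⟨J, hJa, hJμ⟩ : ∃ J : Finset G, (∀ i j g, (a i j).coeff g ≠ 0 → g ∈ J) ∧
      (∀ i j g, (μ i j).coeff g ≠ 0 → g ∈ J) := by
    refine ⟨Finset.univ.biUnion fun x : Fin n × Fin n =>
      (a x.1 x.2).coeff.support ∪ (μ x.1 x.2).coeff.support, ?_, ?_⟩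
    · intro i j g hg
      exact Finset.mem_biUnion.2 ⟨(i, j), Finset.mem_univ _,
        Finset.mem_union_left _ (Finsupp.mem_support_iff.2 hg)⟩
    · intro i j g hg
      exact Finset.mem_biUnion.2 ⟨(i, j), Finset.mem_univ _,
        Finset.mem_union_right _ (Finsupp.mem_support_iff.2 hg)⟩
  -- the matrix `L`
  obtain ⟨e⟩ : Nonempty (((J × Fin n) ⊕ (J × Fin n)) ≃
      Fin (Fintype.card ((J × Fin n) ⊕ (J × Fin n)))) := ⟨Fintype.equivFin _⟩
  obtain ⟨Lrow, hLrow⟩ : ∃ Lrow : (J × Fin n) ⊕ (J × Fin n) → Fin n → MonoidAlgebra R H,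
      Lrow = Sum.elim (fun x j => res H x.1 (a x.2 j)) (fun x j => res H x.1 (μ x.2 j)) := ⟨_, rfl⟩
  obtain ⟨r, i, p0, hL, hi, hp, hcl⟩ := hFP _ n (fun x j => Lrow (e.symm x) j)
  have hLi : ∀ x y, Lrow x y = ∑ l, i (e x) l * p0 l y := by
    intro x y
    have h1 := congrFun (congrFun hL (e x)) y
    rw [Matrix.mul_apply] at h1
    rw [← h1, e.symm_apply_apply]
  have hLa : ∀ (j : J) (x y : Fin n),
      res H j (a x y) = ∑ l, i (e (Sum.inl (j, x))) l * p0 l y := by
    intro j x y
    rw [← hLi, hLrow]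
    rfl
  have hLμ : ∀ (j : J) (x y : Fin n),
      res H j (μ x y) = ∑ l, i (e (Sum.inr (j, x))) l * p0 l y := by
    intro j x y
    rw [← hLi, hLrow]
    rfl
  -- factorizations on the right
  obtain ⟨θ, hθX, hθ⟩ := hRF n r n p0 a X1 hX1r ha (fac H a J hJa p0 fun j hj =>
    ⟨fun x l => i (e (Sum.inl (⟨j, hj⟩, x))) l, Matrix.ext fun x y => by
      rw [Matrix.map_apply, Matrix.mul_apply]
      exact hLa ⟨j, hj⟩ x y⟩)
  obtain ⟨m', hmX, hm'⟩ := hRF n r n p0 μ X3 hX3r hμ (fac H μ J hJμ p0 fun j hj =>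
    ⟨fun x l => i (e (Sum.inr (⟨j, hj⟩, x))) l, Matrix.ext fun x y => by
      rw [Matrix.map_apply, Matrix.mul_apply]
      exact hLμ ⟨j, hj⟩ x y⟩)
  obtain ⟨P, hP⟩ : ∃ P : Matrix (Fin r) (Fin n) (MonoidAlgebra R G), P = p0.map (emb R H) :=
    ⟨_, rfl⟩
  rw [← hP] at hθ hm'
  -- cancellations
  have hcan : ∀ (l : Type) (Z : Matrix l (Fin r) (MonoidAlgebra R G)), Z * P = 0 → Z = 0 :=
    fun l Z h => hCR l r n p0 hp Z (hP ▸ h)
  have hcan' : ∀ (l : Type) (Z : Matrix (Fin r) l (MonoidAlgebra R G)), Pᴴ * Z = 0 → Z = 0 := by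
    intro l Z h
    have h1 : Zᴴ * P = 0 := by
      have h2 := congrArg conjTranspose h
      rwa [conjTranspose_mul, conjTranspose_conjTranspose, conjTranspose_zero] at h2
    have h2 := hcan l Zᴴ h1
    rw [← conjTranspose_conjTranspose Z, h2, conjTranspose_zero]
  -- the kernel of `p0`
  have hker : ∀ k : Fin n → MonoidAlgebra R H, p0 *ᵥ k = 0 →
      ∀ j, ∑ i, emb R H (star (k i)) * θ i j = 0 := by
    intro k hk
    obtain ⟨K, hK⟩ : ∃ K : Matrix (Fin n) Unit (MonoidAlgebra R G),
        K = fun i _ => emb R H (k i) := ⟨_, rfl⟩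
    have h1 : P * K = 0 := by
      refine Matrix.ext fun l u => ?_
      have h2 := congrFun hk l
      rw [Matrix.mul_apply, hP, hK]
      have h3 := congrArg (emb R H) h2
      rw [Matrix.mulVec, dotProduct, map_sum] at h3
      rw [Matrix.zero_apply]
      refine Eq.trans (Finset.sum_congr rfl fun x _ => ?_) (h3.trans (map_zero _))
      rw [Matrix.map_apply, map_mul]
    have h2 : a * K = 0 := by rw [hθ, Matrix.mul_assoc, h1, Matrix.mul_zero]
    have h3 : Kᴴ * a = 0 := by
      rw [hasym, Matrix.mul_smul, ← conjTranspose_mul, h2, conjTranspose_zero, smul_zero]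
    have h4 : Kᴴ * θ = 0 := hcan Unit _ (by rw [Matrix.mul_assoc, ← hθ, h3])
    intro j
    have h5 := congrFun (congrFun h4 ()) j
    rw [Matrix.mul_apply, Matrix.zero_apply] at h5
    rw [← h5]
    refine Finset.sum_congr rfl fun x _ => ?_
    rw [conjTranspose_apply, hK, star_emb]
  -- the columns of `θ`
  have hcol : ∀ t, ∃ Θ : Matrix (Fin r) (Fin r) (MonoidAlgebra R H),
      θ.map (lres H t) = p0ᴴ * Θ := by
    intro t
    have h1 : ∀ j, ∃ z : Fin r → MonoidAlgebra R H,
        (fun i => star (lres H t (θ i j))) = z ᵥ* p0 := by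
      intro j
      refine hcl _ fun k hk => ?_
      have h2 := hker k hk j
      have h3 : ∑ i, star (k i) * lres H t (θ i j) = 0 := by
        have h4 := congrArg (AddMonoidHom.mk' (lres H t) (hladd t)) h2
        rw [map_sum, map_zero] at h4
        rw [← h4]
        refine Finset.sum_congr rfl fun x _ => ?_
        rw [AddMonoidHom.mk'_apply, hlmul]
      have h5 := congrArg star h3
      rw [star_sum, star_zero] at h5
      rw [dotProduct, ← h5]
      refine Finset.sum_congr rfl fun x _ => ?_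
      rw [star_mul, star_star]
    choose z hz using h1
    refine ⟨fun l j => star (z j l), Matrix.ext fun x j => ?_⟩
    have h2 := congrFun (hz j) x
    rw [Matrix.vecMul, dotProduct] at h2
    have h3 := congrArg star h2
    rw [star_star, star_sum] at h3
    rw [Matrix.map_apply, Matrix.mul_apply, h3]
    refine Finset.sum_congr rfl fun l _ => ?_
    rw [star_mul, conjTranspose_apply]
  obtain ⟨a', haX, ha'⟩ := hLF n r r p0ᴴ θ X1 hX1l hθX hcol
  have hθ' : θ = Pᴴ * a' := by rw [hP, conjTranspose_map_emb]; exact ha'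
  have haeq : a = Pᴴ * a' * P := by rw [← hθ']; exact hθ
  have hsym : a' = (ε : ℤ) • a'ᴴ := by
    have h1 : Pᴴ * (a' - (ε : ℤ) • a'ᴴ) * P = 0 := by
      have h2 : Pᴴ * a'ᴴ * P = aᴴ := by
        rw [haeq, conjTranspose_mul, conjTranspose_mul, conjTranspose_conjTranspose,
          Matrix.mul_assoc]
      rw [Matrix.mul_sub, Matrix.sub_mul, Matrix.mul_smul, Matrix.smul_mul, ← haeq, h2, ← hasym,
        sub_self]
    exact sub_eq_zero.1 (hcan' _ _ (hcan _ _ h1))
  refine ⟨r, P, a', m', ⟨?_, haX, hmX, haeq, hm', hcan, ?_⟩, hsym⟩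
  · intro x y g hg
    by_contra hgH
    refine hg ?_
    rw [hP, Matrix.map_apply]
    exact emb_coeff_of_notMem H _ g hgH
  · intro Y hY hD1 hD3 c Z hZ h1 h3
    rw [← hθ'] at h1
    have h5 := hDJ c n r θ Z X1 Y hX1r hY hD1 hθX hZ h1
    have h6 := hDJ c n r m' Z X3 Y hX3r hY hD3 hmX hZ h3
    -- the restrictions of `θ`, `m'` to `j ∈ J` are blocks of `i`
    have hblock : ∀ (M : Matrix (Fin n) (Fin n) (MonoidAlgebra R G))
        (T : Matrix (Fin n) (Fin r) (MonoidAlgebra R G)) (w : J → Fin n →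
          (J × Fin n) ⊕ (J × Fin n)), M = T * P →
        (∀ (j : J) (x y : Fin n), res H j (M x y) = ∑ l, i (e (w j x)) l * p0 l y) →
        ∀ (j : J) (x : Fin n) (l : Fin r), res H j (T x l) = i (e (w j x)) l := by
      intro M T w hM hw j x l
      have h7 : (fun l => res H j (T x l) - i (e (w j x)) l) = 0 := by
        refine hp _ (funext fun y => ?_)
        rw [Matrix.vecMul, dotProduct]
        have h8 := hw j x y
        rw [hM, Matrix.mul_apply] at h8
        have h9 := map_sum (AddMonoidHom.mk' (res H (j : G)) (hadd j))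
          (fun l => T x l * P l y) Finset.univ
        rw [AddMonoidHom.mk'_apply, h8] at h9
        simp only [sub_mul, Finset.sum_sub_distrib, Pi.zero_apply]
        rw [h9, sub_eq_zero]
        refine Finset.sum_congr rfl fun l _ => ?_
        rw [hP, Matrix.map_apply]
        exact (hmul _ _ _).symm
      exact sub_eq_zero.1 (congrFun h7 l)
    have hba := hblock a θ (fun j x => Sum.inl (j, x)) hθ hLa
    have hbμ := hblock μ m' (fun j x => Sum.inr (j, x)) hm' hLμ
    refine hCL c _ r i hi Z (Matrix.ext fun x y => ?_)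
    obtain ⟨s, rfl⟩ := e.surjective x
    rw [Matrix.mul_apply, Matrix.zero_apply]
    rcases s with ⟨j, x⟩ | ⟨j, x⟩
    · have h8 := congrFun (congrFun (h5 (j : G)) x) y
      rw [Matrix.mul_apply, Matrix.zero_apply] at h8
      rw [← h8]
      refine Finset.sum_congr rfl fun l _ => ?_
      rw [Matrix.map_apply, Matrix.map_apply, Matrix.map_apply, hba]
    · have h8 := congrFun (congrFun (h6 (j : G)) x) y
      rw [Matrix.mul_apply, Matrix.zero_apply] at h8
      rw [← h8]
      refine Finset.sum_congr rfl fun l _ => ?_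
      rw [Matrix.map_apply, Matrix.map_apply, Matrix.map_apply, hbμ]

end Pool.Agent.Lib.MP8a3537.UV
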