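import Pool.Agent.Lib.MP_8a3537_gt.UV.Defs

/-!
# Vanishing of `UNil` over free edge groups: definitions for the proof and the Specs

Paper proof: `/team-store/8a3537_UV_unil.md`. Every module `XXX` is a file
`Pool/Agent/Lib/MP_8a3537_gt/UV/XXX.lean` which imports this file (and nothing else of the folder,
unless stated) and proves `theorem specXxx (hypotheses as stated) : SpecXxx` in the namespace
`Pool.Agent.Lib.MP8a3537.UV`, with its auxiliary declarations in `UV.XXXAux`.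

Do NOT `open` two namespaces `Matrix` and the root for `mul_inv_rev` (write `_root_.mul_inv_rev`).
-/

namespace Pool.Agent.Lib.MP8a3537.UV

open Matrix

/-! ### Restriction to a subgroup -/

/-- The inclusion `R[H] → R[G]`. -/
noncomputable abbrev emb (R : Type) {G : Type} [Ring R] [Group G] (H : Subgroup G) :
    MonoidAlgebra R H →+* MonoidAlgebra R G :=
  MonoidAlgebra.mapDomainRingHom R H.subtype

/-- `(res H t y)(h) = y(t h)`: a map `R[G] → R[H]`, linear for right multiplication by `R[H]`. -/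
noncomputable def res {R G : Type} [Ring R] [Group G] (H : Subgroup G) (t : G)
    (y : MonoidAlgebra R G) : MonoidAlgebra R H :=
  .ofCoeff (y.coeff.comapDomain (fun h : H => t * (h : G))
    (fun _ _ _ _ h => Subtype.ext (mul_left_cancel h)))

/-- `(lres H t y)(h) = y(h t)`: a map `R[G] → R[H]`, linear for left multiplication by `R[H]`. -/
noncomputable def lres {R G : Type} [Ring R] [Group G] (H : Subgroup G) (t : G)
    (y : MonoidAlgebra R G) : MonoidAlgebra R H :=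
  .ofCoeff (y.coeff.comapDomain (fun h : H => (h : G) * t)
    (fun _ _ _ _ h => Subtype.ext (mul_right_cancel h)))

theorem res_coeff {R G : Type} [Ring R] [Group G] (H : Subgroup G) (t : G)
    (y : MonoidAlgebra R G) (h : H) : (res H t y).coeff h = y.coeff (t * h) := rfl

theorem lres_coeff {R G : Type} [Ring R] [Group G] (H : Subgroup G) (t : G)
    (y : MonoidAlgebra R G) (h : H) : (lres H t y).coeff h = y.coeff (h * t) := rfl

/-- `x y = x' y'` with `x, x' ∈ X`, `y, y' ∈ Y` only if `x H = x' H`. -/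
def Disj {G : Type} [Group G] (H : Subgroup G) (X Y : Set G) : Prop :=
  ∀ x ∈ X, ∀ x' ∈ X, ∀ y ∈ Y, ∀ y' ∈ Y, x * y = x' * y' → x⁻¹ * x' ∈ H

/-- **RES** (size 200; restriction to a subgroup `H` of `G`; `S = R[H]`, `A = R[G]`).

PROOF. `res` and `lres` are additive; `res H t (y * emb s) = res H t y * s` and
`lres H t (emb s * y) = s * lres H t y` (both sides are biadditive, take `y`, `s` single; the
coefficient of `single g r * single h s` is in `single (g h) (r s)`, and `t * h' = g * h` iff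
`t⁻¹ * g ∈ H` and `h' = (t⁻¹ g) h`; or compare coefficients of a product by a `single`).
`y = 0` iff `res H t y = 0` for all `t` (coefficient at `1 ∈ H`), same for `lres`.
(CR) apply `res H t` to the entries of `Z * emb p`: rows of `res Z` satisfy `z p = 0`.
(CL) same with `lres`. (RF) For a coset `q : G ⧸ H` put `t_q = q.out`. Every `y ∈ A` is the finite
sum of the `single t_q 1 * emb (res H t_q y)` over the cosets `q` that meet the support of `y`.
Take a finite set `Q` of cosets containing those of the supports of all entries of `M`, choose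
`Θ_q` for `t_q`, `Θ_q = 0` if `res M = 0` at `q` (in that case `0` is a good choice), and
`θ = ∑_{q ∈ Q} t_q emb(Θ_q)`. If `Θ_q ≠ 0` then `M` has an element of its support in `t_q H`, so
`t_q ∈ X` because `X H ⊆ X`, so `supp θ ⊆ X H ⊆ X`.
(LF) the same on the other side, or by `star` from (RF) (not available without a star on `R`, so
the direct proof with right cosets is better: use `t ↦` inverse of representatives).
(DJ) `θ = ∑_q t_q emb(res_q θ)` over cosets `q ⊆ X` (`t_q ∈ X`), `θ x = ∑_q t_q (emb(res_q θ) x)`,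
the supports of `emb(res_q θ) x` are in `H Y ⊆ Y`, and the sets `t_q Y` are pairwise disjoint; so
all the summands vanish: `emb(res_q θ) x = 0`; for a general `t = t_q h` use
`res H (t_q h) θ = single h⁻¹ 1 * res H t_q θ`; if `t H` does not meet `X` then `res H t θ = 0`. -/
def SpecRES : Prop :=
  ∀ (R G : Type) [Ring R] [Group G] (H : Subgroup G),
    -- basic properties
    (∀ t (y z : MonoidAlgebra R G), res H t (y + z) = res H t y + res H t z) ∧
    (∀ t (y z : MonoidAlgebra R G), lres H t (y + z) = lres H t y + lres H t z) ∧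
    (∀ t (y : MonoidAlgebra R G) (s : MonoidAlgebra R H),
      res H t (y * emb R H s) = res H t y * s) ∧
    (∀ t (y : MonoidAlgebra R G) (s : MonoidAlgebra R H),
      lres H t (emb R H s * y) = s * lres H t y) ∧
    (∀ y : MonoidAlgebra R G, (∀ t, res H t y = 0) → y = 0) ∧
    (∀ y : MonoidAlgebra R G, (∀ t, lres H t y = 0) → y = 0) ∧
    -- (CR) cancellation on the right
    (∀ (m : Type) (r n : ℕ) (p : Matrix (Fin r) (Fin n) (MonoidAlgebra R H)),
      (∀ z : Fin r → MonoidAlgebra R H, z ᵥ* p = 0 → z = 0) →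
      ∀ Z : Matrix m (Fin r) (MonoidAlgebra R G), Z * p.map (emb R H) = 0 → Z = 0) ∧
    -- (CL) cancellation on the left
    (∀ (n : Type) (m r : ℕ) (i : Matrix (Fin m) (Fin r) (MonoidAlgebra R H)),
      (∀ x : Fin r → MonoidAlgebra R H, i *ᵥ x = 0 → x = 0) →
      ∀ Z : Matrix (Fin r) n (MonoidAlgebra R G), i.map (emb R H) * Z = 0 → Z = 0) ∧
    -- (RF) factorization on the right
    (∀ (m r n : ℕ) (p : Matrix (Fin r) (Fin n) (MonoidAlgebra R H))
      (M : Matrix (Fin m) (Fin n) (MonoidAlgebra R G)) (X : Set G),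
      (∀ h ∈ H, ∀ x ∈ X, x * h ∈ X) → SuppIn X M →
      (∀ t, ∃ Θ : Matrix (Fin m) (Fin r) (MonoidAlgebra R H), M.map (res H t) = Θ * p) →
      ∃ θ : Matrix (Fin m) (Fin r) (MonoidAlgebra R G), SuppIn X θ ∧ M = θ * p.map (emb R H)) ∧
    -- (LF) factorization on the left
    (∀ (m r n : ℕ) (p : Matrix (Fin m) (Fin r) (MonoidAlgebra R H))
      (M : Matrix (Fin m) (Fin n) (MonoidAlgebra R G)) (X : Set G),
      (∀ h ∈ H, ∀ x ∈ X, h * x ∈ X) → SuppIn X M →
      (∀ t, ∃ Θ : Matrix (Fin r) (Fin n) (MonoidAlgebra R H), M.map (lres H t) = p * Θ) →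
      ∃ θ : Matrix (Fin r) (Fin n) (MonoidAlgebra R G), SuppIn X θ ∧ M = p.map (emb R H) * θ) ∧
    -- (DJ) disjointness
    (∀ (c : Type) (m r : ℕ) (θ : Matrix (Fin m) (Fin r) (MonoidAlgebra R G))
      (Z : Matrix (Fin r) c (MonoidAlgebra R G)) (X Y : Set G),
      (∀ h ∈ H, ∀ x ∈ X, x * h ∈ X) → (∀ h ∈ H, ∀ y ∈ Y, h * y ∈ Y) → Disj H X Y →
      SuppIn X θ → SuppIn Y Z → θ * Z = 0 →
      ∀ t, (θ.map (res H t)).map (emb R H) * Z = 0)

/-! ### The P-move -/

/-- The data of a P-move: `a = p^* a' p`, `μ = m' p`. -/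
structure IsPM {R G : Type} [Ring R] [StarRing R] [Group G] (H : Subgroup G) (X1 X3 : Set G)
    {n r : ℕ} (a μ : Matrix (Fin n) (Fin n) (MonoidAlgebra R G))
    (p : Matrix (Fin r) (Fin n) (MonoidAlgebra R G))
    (a' : Matrix (Fin r) (Fin r) (MonoidAlgebra R G))
    (m' : Matrix (Fin n) (Fin r) (MonoidAlgebra R G)) : Prop where
  supp_p : SuppIn (H : Set G) p
  supp_a' : SuppIn X1 a'
  supp_m' : SuppIn X3 m'
  eq_a : a = pᴴ * a' * p
  eq_m : μ = m' * p
  cancel : ∀ (l : Type) (Z : Matrix l (Fin r) (MonoidAlgebra R G)), Z * p = 0 → Z = 0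
  inj : ∀ (Y : Set G), (∀ h ∈ H, ∀ y ∈ Y, h * y ∈ Y) → Disj H X1 Y → Disj H X3 Y →
    ∀ (c : Type) (Z : Matrix (Fin r) c (MonoidAlgebra R G)), SuppIn Y Z →
      pᴴ * a' * Z = 0 → m' * Z = 0 → Z = 0

/-- **STK** (size 200, hypothesis `SpecRES`): existence of the P-move.

PROOF. `S = R[H]`. For `t ∈ G` the matrices `a.map (res H t)`, `μ.map (res H t)` are over `S`; if
`t H = j H`, `t = j h⁻¹`, then `res H t y = single h 1 * res H j y` (left multiplication). Let `J`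
be a finite set of elements of `G` which contains the supports of all entries of `a` and `μ`, and
`L` the matrix over `S` with `n` columns and the rows of all `a.map (res H j)`, `μ.map (res H j)`,
`j ∈ J` (index `Fin m` through `Fintype.equivFin`). (FP): `L = i p0`, so for every `t ∈ G` there are
`Θ, Θ'` with `a.map (res H t) = Θ p0`, `μ.map (res H t) = Θ' p0` (`0` if `t H` does not meet `J`,
otherwise a left multiple of a block of `i`). (RF): `a = θ p`, `μ = m' p`, `p = emb p0`,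
`supp θ ⊆ X1`, `supp m' ⊆ X3`. Cancellation `Z p = 0 → Z = 0` is (CR); by `star`:
`p^* Z = 0 → Z = 0`. Also `a.map (res H t) = (θ.map (res H t)) p0` for all `t`.
Let `k ∈ S^n`, `p0 k = 0` (a column). Then `a k = θ p k = 0` (with `k` embedded in `A^n`), so
`k^* a = k^* ε a^* = ε (a k)^* = 0`, so `k^* θ p = 0`, `k^* θ = 0`. So for each `t` the columns `w` of
`θ.map (lres H t)` satisfy `k^* w = 0`, so `w^* k = 0` (`^*` in `S`): by the last clause of (FP)
`w^* = z p0`, `w = p0^* z^*`. (LF) with `p0^*` (and `(p0^*).map emb = (p0.map emb)^*`):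
`θ = p^* a'`, `supp a' ⊆ X1`. So `a = p^* a' p`, and `p^* (a' - ε a'^*) p = a - ε a^* = 0` gives
`a' = ε a'^*`.
INJECTIVITY. `θ Z = 0`, `m' Z = 0`, `supp Z ⊆ Y`. By (DJ) `(θ.map (res H t)).map emb * Z = 0` and
the same for `m'`, for all `t`. For `t = j ∈ J`: `(θ.map (res H j)) p0 = a.map (res H j)` is a block
of `L = i p0`, and `p0` cancels on the right, so `θ.map (res H j)` is a block of `i`, same for
`m'`. So `i.map emb * Z = 0` and (CL) gives `Z = 0`. -/
def SpecSTK : Prop :=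
  ∀ (R G : Type) [Ring R] [StarRing R] [Group G] (H : Subgroup G) (X1 X3 : Set G) (ε : ℤˣ)
    (n : ℕ) (a μ : Matrix (Fin n) (Fin n) (MonoidAlgebra R G)),
    FP (MonoidAlgebra R H) →
    (∀ h ∈ H, ∀ x ∈ X1, x * h ∈ X1) → (∀ h ∈ H, ∀ x ∈ X1, h * x ∈ X1) →
    (∀ h ∈ H, ∀ x ∈ X3, x * h ∈ X3) →
    SuppIn X1 a → SuppIn X3 μ → a = (ε : ℤ) • aᴴ →
    ∃ (r : ℕ) (p : Matrix (Fin r) (Fin n) (MonoidAlgebra R G))
      (a' : Matrix (Fin r) (Fin r) (MonoidAlgebra R G))
      (m' : Matrix (Fin n) (Fin r) (MonoidAlgebra R G)),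
      IsPM H X1 X3 a μ p a' m' ∧ a' = (ε : ℤ) • a'ᴴ

/-- **TAT** (size 80): Tate vanishing.

PROOF. Off the diagonal: for `i < j` put `c i j = d i j`, `c j i = 0`. On the diagonal
`x = d i i` satisfies `x = δ x^*`, that is `x(g⁻¹) = δ x(g)^*`. The involution `g ↦ g⁻¹` has no fixed
point in `X`; choose (well-order `G`, or by `Classical` choice on the pairs `{g, g⁻¹}`) a set `Y`
which contains exactly one element of each pair `{g, g⁻¹}`, `g ∈ X`; `c i i` = the restriction of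
`x` to `Y`. (With a linear order `<` on `G`: `Y = {g : g < g⁻¹}`.) -/
def SpecTAT : Prop :=
  ∀ (R G : Type) [Ring R] [StarRing R] [Group G] (X : Set G) (δ : ℤˣ) (n : ℕ)
    (d : Matrix (Fin n) (Fin n) (MonoidAlgebra R G)),
    (∀ x ∈ X, x⁻¹ ∈ X) → (∀ x ∈ X, x⁻¹ ≠ x) → SuppIn X d → d = (δ : ℤ) • dᴴ →
    ∃ c : Matrix (Fin n) (Fin n) (MonoidAlgebra R G), SuppIn X c ∧ d = c + (δ : ℤ) • cᴴ

/-! ### The E-move -/

/-- **EMV** (size 200): the E-move, for every ring `A` with involution.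

PROOF. Write forms as functions: `q[x] = x^* q x`; index set `n ⊕ n ⊕ r ⊕ r`, variables
`p, f ∈ A^n`, `p1, f1 ∈ A^r`; the matrix of a form is determined modulo `Z - ε Z^*`. Let
`lhat = ψ + ε ψ^*` and write `π` for the matrix `p` of the statement.
`Ω = UF (π^*ψπ) (m'π) χ ⊕ hyp r : ψ[π p] + p^*f + (π p)^* m'^* f + χ[f] + p1^* f1`.
(1) `f1 ↦ f1 + ψ p1 + lhat π p + m'^* f` (base change) gives, mod `Z - ε Z^*`,
 `ψ[p1 + π p] + p^*f + (p1 + π p)^* m'^* f + χ[f] + p1^* f1`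
 (`ψ[p1 + π p] = ψ[p1] + ψ[π p] + p1^* ψ π p + (π p)^* ψ p1`, and `(π p)^* ψ p1` is `ε p1^* ψ^* π p`).
(2) `p1 ↦ p1 - π p`: `ψ[p1] + p^*f + p1^* m'^* f + χ[f] + p1^* f1 - (π p)^* f1`.
(3) `f ↦ f + π^* f1`: `ψ[p1] + p^*f + p1^* m'^* f + p1^* m'^* π^* f1 + χ[f + π^* f1] + p1^* f1`.
(4) `p ↦ p - m' p1 - X f - Y f1` absorbs all terms with `f`
 (`χ[f + π^* f1] - χ[π^* f1] = f^* χ f + f^* (χ + ε χ^*) π^* f1` mod `Z - ε Z^*`):
 `ψ[p1] + p1^* (1 + m'^* π^*) f1 + (π χ π^*)[f1] + p^* f`, this is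
 `UF ψ (π m') (π χ π^*) ⊕ hyp n` (`(π m')^* = m'^* π^*`).
So `Ω ≅ UF ψ (π m') (π χ π^*) ⊕ hyp n` and both are stably hyperbolic or none is (adding
hyperbolic forms, `hyp a ⊕ hyp b ≅ hyp (a + b)`). In Lean: the composite base change `u` can be
written down as one `4 × 4` block matrix, `Z` is then explicit; or do the four steps with
`Isometric` transitive. -/
def SpecEMV : Prop :=
  ∀ (A : Type) [Ring A] [StarRing A] (ε : ℤˣ) (n r : ℕ) (ψ : Matrix (Fin r) (Fin r) A)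
    (m' : Matrix (Fin n) (Fin r) A) (χ : Matrix (Fin n) (Fin n) A)
    (p : Matrix (Fin r) (Fin n) A),
    StablyHyperbolic ε (UF ψ (p * m') (p * χ * pᴴ)) →
      StablyHyperbolic ε (UF (pᴴ * ψ * p) (m' * p) χ)

/-- **SWP** (size 120): exchange of the two summands, change of `ψ`, `χ` by `c - ε c^*`, and the
trivial form.

PROOF. (a) exchange the coordinates and multiply one of them by `ε`: `(ψ, 1 + μ^*; 0, χ)` becomes
`(χ, 0; ε (1 + μ^*), ψ)`, and modulo `Z - ε Z^*` the entry `ε (1 + μ^*)` at `(2,1)` is the entry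
`1 + μ = ε (ε (1 + μ^*))^*` at `(1,2)`. (b) `Z = diag(c, d)`. (c) `UF 0 0 0 = hyp`; transitivity. -/
def SpecSWP : Prop :=
  ∀ (A : Type) [Ring A] [StarRing A] (ε : ℤˣ) (n : ℕ) (ψ μ χ : Matrix (Fin n) (Fin n) A),
    (StablyHyperbolic ε (UF χ μᴴ ψ) → StablyHyperbolic ε (UF ψ μ χ)) ∧
    (∀ c d : Matrix (Fin n) (Fin n) A, StablyHyperbolic ε (UF ψ μ χ) →
      StablyHyperbolic ε (UF (ψ + c - (ε : ℤ) • cᴴ) μ (χ + d - (ε : ℤ) • dᴴ))) ∧
    StablyHyperbolic ε (UF (0 : Matrix (Fin n) (Fin n) A) 0 0)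

/-! ### Ping-pong -/

/-- The set of the inverses. -/
def Xinv {G : Type} [Group G] (X : Set G) : Set G := {x | x⁻¹ ∈ X}

/-- Ping-pong data for an edge with stabilizer `H`. -/
structure PingPong {G : Type} [Group G] (H : Subgroup G) (X1 X2 X3 Yp Ym : Set G) : Prop where
  X1l : ∀ h ∈ H, ∀ x ∈ X1, h * x ∈ X1
  X1r : ∀ h ∈ H, ∀ x ∈ X1, x * h ∈ X1
  X1i : ∀ x ∈ X1, x⁻¹ ∈ X1
  X1n : ∀ x ∈ X1, x⁻¹ ≠ x
  X2l : ∀ h ∈ H, ∀ x ∈ X2, h * x ∈ X2
  X2r : ∀ h ∈ H, ∀ x ∈ X2, x * h ∈ X2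
  X2i : ∀ x ∈ X2, x⁻¹ ∈ X2
  X2n : ∀ x ∈ X2, x⁻¹ ≠ x
  X3l : ∀ h ∈ H, ∀ x ∈ X3, h * x ∈ X3
  X3r : ∀ h ∈ H, ∀ x ∈ X3, x * h ∈ X3
  Yp1 : (1 : G) ∈ Yp
  Ym1 : (1 : G) ∈ Ym
  Ypl : ∀ h ∈ H, ∀ y ∈ Yp, h * y ∈ Yp
  Yml : ∀ h ∈ H, ∀ y ∈ Ym, h * y ∈ Ym
  X1Y : ∀ x ∈ X1, ∀ y ∈ Yp, x * y ∈ Ym
  X2Y : ∀ x ∈ X2, ∀ y ∈ Ym, x * y ∈ Yp
  X3Y : ∀ x ∈ X3, ∀ y ∈ Yp, x * y ∈ Yp
  X3Y' : ∀ x ∈ Xinv X3, ∀ y ∈ Ym, x * y ∈ Ym
  d23 : ∀ x ∈ X2, ∀ y ∈ Ym, ∀ x' ∈ X3, ∀ y' ∈ Yp, x * y ≠ x' * y'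
  d13 : ∀ x ∈ X1, ∀ y ∈ Yp, ∀ x' ∈ Xinv X3, ∀ y' ∈ Ym, x * y ≠ x' * y'
  u1 : Disj H X1 Yp
  u2 : Disj H X2 Ym
  u3 : Disj H X3 Yp
  u3' : Disj H (Xinv X3) Ym

/-- **NIL** (size 200): one P-move and the nil length.

PROOF. `A = R[G]`, `ν = nu ε a μ b`, `ν' = nu ε a' (p m') (p b p^*)` (size `r ⊕ r`). Put
`τ = fromBlocks m' (ε b) (p^* a') μ^*` (rows `n ⊕ n`, columns `r ⊕ n`), `P = fromBlocks p 0 0 1`
(rows `r ⊕ n`, columns `n ⊕ n`), `Q = fromBlocks 1 0 0 p^*` (rows `r ⊕ n`, columns `r ⊕ r`),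
`N = P τ` (size `r ⊕ n`). Then `ν = τ P`, `Q ν' = N Q` (check: `μ^* p^* = p^* m'^* p^*`), so
`ν^(l+1) = τ N^l P`, `P ν^l = N^l P`, `Q ν'^l = N^l Q`. `P` cancels on the right (`Z P = 0 → Z = 0`,
from `cancel`), `Q` cancels on the left (star of `cancel`).
(i) `ν^(l+1) = 0` gives `τ N^l = 0`, so `N^(l+1) = 0`, so `Q ν'^(l+1) = 0`, `ν'^(l+1) = 0`.
(ii) Write `N^l = (x; y)`, `x` the rows `inl`, `y` the rows `inr`. `supp x ⊆ Yp`, `supp y ⊆ Ym` by
induction on `l` (`l = 0`: entries `0` or `1`, and `1 ∈ Yp`, `1 ∈ Ym`; step: `N = fromBlocks (p m')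
(ε p b) (p^* a') μ^*`, supports in `H X3`, `H X2`, `H X1`, `Xinv X3`). `τ (x; y) = 0`:
`m' x + ε b y = 0`: supports in `X3 Yp`, `X2 Ym`, disjoint, so `m' x = 0`; `p^* a' x + μ^* y = 0`:
supports in `X1 Yp` (`H X1 ⊆ X1`) and `(Xinv X3) Ym`, disjoint, so `p^* a' x = 0`. By `inj` with
`Y = Yp`: `x = 0`. So `Q ν'^l = N^l Q` has rows `inl` zero, these are the rows `inl` of `ν'^l`.
(iii) If the rows `inr` of `ν^l` vanish then those of `P ν^l = N^l P`, so (cancel `P`) those of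
`N^l`, so those of `N^l Q = Q ν'^l`, which are `p^* (rows inr of ν'^l)`: cancel `p^*`. -/
def SpecNIL : Prop :=
  ∀ (R G : Type) [Ring R] [StarRing R] [Group G] (H : Subgroup G) (X1 X2 X3 Yp Ym : Set G)
    (_ : PingPong H X1 X2 X3 Yp Ym) (ε : ℤˣ) (n r : ℕ)
    (a μ b : Matrix (Fin n) (Fin n) (MonoidAlgebra R G))
    (p : Matrix (Fin r) (Fin n) (MonoidAlgebra R G))
    (a' : Matrix (Fin r) (Fin r) (MonoidAlgebra R G))
    (m' : Matrix (Fin n) (Fin r) (MonoidAlgebra R G)),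
    IsPM H X1 X3 a μ p a' m' → SuppIn X2 b → SuppIn X3 μ →
    ∀ l : ℕ, (nu ε a μ b) ^ (l + 1) = 0 →
      (nu ε a' (p * m') (p * b * pᴴ)) ^ (l + 1) = 0 ∧
      (∀ i j, ((nu ε a' (p * m') (p * b * pᴴ)) ^ l) (Sum.inl i) j = 0) ∧
      ((∀ i j, ((nu ε a μ b) ^ l) (Sum.inr i) j = 0) →
        ∀ i j, ((nu ε a' (p * m') (p * b * pᴴ)) ^ l) (Sum.inr i) j = 0)

/-- Theorem 1 for ping-pong data. -/
def Thm1 : Prop :=
  ∀ (R G : Type) [Ring R] [StarRing R] [Group G] (H : Subgroup G) (X1 X2 X3 Yp Ym : Set G)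
    (_ : PingPong H X1 X2 X3 Yp Ym) (_ : FP (MonoidAlgebra R H)) (ε : ℤˣ) (n : ℕ)
    (ψ μ χ : Matrix (Fin n) (Fin n) (MonoidAlgebra R G)),
    SuppIn X1 ψ → SuppIn X3 μ → SuppIn X2 χ →
    IsNilpotent (nu ε (ψ + (ε : ℤ) • ψᴴ) μ (χ + (ε : ℤ) • χᴴ)) →
    StablyHyperbolic ε (UF ψ μ χ)

/-- **IND** (size 200, hypotheses `SpecSTK, SpecTAT, SpecEMV, SpecSWP, SpecNIL`).

PROOF. ONE MOVE. Given `ψ, μ, χ` with `ν^(l+1) = 0`; `a = ψ + ε ψ^*` (so `a = ε a^*`, as
`ε² = 1`), `b = χ + ε χ^*`. STK: `p, a', m'`. TAT (`δ = ε`): `a' = ψ' + ε ψ'^*`, `supp ψ' ⊆ X1`.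
`d = ψ - p^* ψ' p` satisfies `d + ε d^* = a - p^* a' p = 0`, and `supp d ⊆ X1`; TAT (`δ = -ε`):
`d = c - ε c^*`. So by SWP (second part) and EMV: `UF ψ μ χ` is stably hyperbolic if
`UF ψ' (p m') (p χ p^*)` is. Here `supp (p m') ⊆ X3`, `supp (p χ p^*) ⊆ X2` (`H`-invariance), and
the new `b` is `p b p^*`, so NIL applies.
PingPong is symmetric: `PingPong H X1 X2 X3 Yp Ym → PingPong H X2 X1 (Xinv X3) Ym Yp`, and
`nu ε b μ^* a` is `nu ε a μ b` with the blocks exchanged, up to conjugation by `diag(1, ε)` (or show: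
`nu ε b μᴴ a = W (nu ε a μ b) W⁻¹` with `W = fromBlocks 0 1 ε 0`: `W (p; f) = (f; ε p)`), so powers
correspond and rows `inl` and `inr` are exchanged.
INDUCTION on `l`: claim for all `n, ψ, μ, χ` (and both orientations of the ping-pong data) with
`ν^(l+1) = 0`. `l = 0`: `ν = 0`, so `a = b = 0`, `μ = 0`, TAT (`δ = -ε`): `ψ = c - ε c^*`,
`χ = d - ε d^*`, SWP. Step `l + 1`: a move gives `ν1` with `ν1^(l+2) = 0` and rows `inl` of
`ν1^(l+1)` zero; exchange (SWP first part): rows `inr` zero; second move: rows `inl` and `inr` of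
`ν2^(l+1)` zero, so `ν2^(l+1) = 0`; induction. (`IsNilpotent`: `ν^l = 0`, then `ν^(l+1) = 0`.) -/
def SpecIND : Prop := Thm1

/-! ### Trees -/

/-- **TRE** (size 250): the ping-pong data of an edge `(v, w)` of a tree.

PROOF. `d = T.dist`. In a tree, for adjacent `x, y` and every `u`: `d u x = d u y + 1` or
`d u y = d u x + 1` (not equal: acyclic; `IsTree`, unique paths). For adjacent `x, y` let
`B x y = {u : d u y < d u x}` (the branch at `x` through `y`). `u ∈ B x y ∨ u ∈ B y x`, not both;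
for `y ≠ y'` adjacent to `x`, `B x y` and `B x y'` are disjoint; so `B x y' ⊆ B y x` for `y' ≠ y`;
`y ∈ B x y`; `x ∉ B x y`; the only neighbour of `x` in `B x y` is `y`. `g B x y = B (g x) (g y)`.
`Yp = {g : g w ∈ B v w ∧ (g v ∈ B v w ∨ g v = v)}`, `Ym = {g : g v ∈ B w v ∧ (g w ∈ B w v ∨ g w = w)}`.
`x ∈ X1` (`x v = v`, `x w = u ≠ w`), `y ∈ Yp`: `x y w ∈ B v u`, `x y v ∈ B v u ∪ {v}`, and
`B v u ⊆ B w v`, `v ∈ B w v`. So `X1 Yp ⊆ Ym`, and `x y w ∈ B v (x w)` gives `u1`: for `x, x' ∈ X1`,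
`x y = x' y'` forces `x w = x' w`, so `x⁻¹ x' ∈ H`.
`x ∈ X3` (`x v = w`, `x w = u`, adjacent to `w`, `u ≠ v` as `(v, w)` is not inverted): `x y w ∈ B w u`,
`x y v ∈ B w u ∪ {w}`, `B w u ⊆ B v w`, `w ∈ B v w`: `X3 Yp ⊆ Yp`; `u3` as before.
`X2`, `Xinv X3` (`x w = v`): the same with `v, w` exchanged. `d23`: `x ∈ X2`, `y ∈ Ym`: `z = x y` has
`z v ∈ B w (x v)`, `z w ∈ B w (x v) ∪ {w}`; `x' ∈ X3`, `y' ∈ Yp`: `z w ∈ B w (x' w)`; so
`x v = x' w`, and then `x⁻¹ x'` maps `v` to `w` and `w` to `v`: inversion. `d13` by symmetry.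
`H = stabilizer v ⊓ stabilizer w`. -/
def SpecTRE : Prop :=
  ∀ (G V : Type) [Group G] [MulAction G V] (T : SimpleGraph V) (v w : V), T.IsTree →
    (∀ (g : G) (x y : V), T.Adj x y → T.Adj (g • x) (g • y)) → T.Adj v w →
    (∀ g : G, ¬ (g • v = w ∧ g • w = v)) →
    (∀ g : G, g * g = 1 → (g • v = v ↔ g • w = w)) →
    ∃ Yp Ym : Set G,
      PingPong (MulAction.stabilizer G v ⊓ MulAction.stabilizer G w)
        {g | g • v = v ∧ g • w ≠ w} {g | g • w = w ∧ g • v ≠ v} {g | g • v = w} Yp Ym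

/-! ### Free groups -/

/-- A free action on a discrete tree, with even distances on an orbit. -/
structure HTree (F : Type) [Group F] where
  /-- points -/
  T : Type
  /-- action -/
  act : F → T → T
  /-- distance -/
  d : T → T → ℕ
  /-- base point -/
  o : T
  act_one : ∀ x, act 1 x = x
  act_mul : ∀ g h x, act (g * h) x = act g (act h x)
  d_self : ∀ x, d x x = 0
  d_comm : ∀ x y, d x y = d y x
  d_eq : ∀ x y, d x y = 0 → x = y
  tri : ∀ x y z, d x z ≤ d x y + d y z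
  four : ∀ x y z w, d x y + d z w ≤ max (d x z + d y w) (d x w + d y z)
  geo : ∀ x y t, t ≤ d x y → ∃ z, d x z + t = d x y ∧ d z y = t
  iso : ∀ g x y, d (act g x) (act g y) = d x y
  free : ∀ g x, act g x = x → g = 1
  even : ∀ g h, Even (d (act g o) (act h o))

/-- **HTR** (size 200).

PROOF. `T = FreeGroup (Option X)`, `φ : FreeGroup X → T`, `x ↦ of (some x) * of none`,
`act g z = φ g * z`, `d u v = norm (u⁻¹ * v)` (`FreeGroup.norm`), `o = 1`. `φ` is injective (the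
homomorphism `T → FreeGroup X`, `some x ↦ x`, `none ↦ 1` is a left inverse), so the action is free.
Evenness: `norm u` modulo 2 is the value of the homomorphism `T → ℤ/2` which is `1` on all
generators (length of a word), and this is `0` on `φ g`. For `u, v` let `(u|v)` be the length of
the longest common prefix of `toWord u`, `toWord v`: if `toWord u = c ++ u'`, `toWord v = c ++ v'`
and the first letters of `u'`, `v'` are different (or one of them is empty) then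
`u⁻¹ v = mk (invRev u' ++ v')` and this word is reduced (`IsReduced`), so
`d u v = |u| + |v| - 2 (u|v)`. `(u|v) ≥ min (u|w) (w|v)`. The four point inequality is invariant
under left translation, so let `x = 1`: then it says `(z|w) ≥ min (y|w) (y|z)`. `tri` and `d_eq` are
easy (`four` with two equal points, or `norm_mul_le`). `geo`: translate `x` to `1`: `z` is the
prefix of `toWord y` of length `|y| - t`. -/
def SpecHTR : Prop := ∀ X : Type, Nonempty (HTree (FreeGroup X))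

/-- Products of elementary matrices and matrices `diag(1, .., y, .., 1)`, `y ∈ F`, over `R[F]`. -/
inductive GE {R F : Type} [Ring R] [Group F] {r : ℕ} :
    Matrix (Fin r) (Fin r) (MonoidAlgebra R F) → Prop
  | one : GE 1
  | elem (i j : Fin r) (hij : i ≠ j) (s : MonoidAlgebra R F) (g) :
      GE g → GE ((1 + Matrix.single i j s) * g)
  | mono (i : Fin r) (y : F) (g) :
      GE g → GE (Matrix.diagonal (Function.update 1 i (MonoidAlgebra.single y 1)) * g)

/-- (WA) If the rows of `C` are left dependent then an element of `GE` makes one of them zero. -/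
def WA (k F : Type) [Field k] [Group F] : Prop :=
  ∀ (r m : ℕ) (C : Matrix (Fin r) (Fin m) (MonoidAlgebra k F)) (x : Fin r → MonoidAlgebra k F),
    x ≠ 0 → x ᵥ* C = 0 → ∃ g : Matrix (Fin r) (Fin r) (MonoidAlgebra k F), GE g ∧
      ∃ i, ∀ j, (g * C) i j = 0

/-- **WAL** (size 300): the weak algorithm.

PROOF. For a row `c ∈ k[F]^m` let `D(c)` be the union of the supports of its entries (a finite
subset of `F`), `D(y c) = y D(c)`; for `c ≠ 0` let `2 δ(c) = max {d(g o, h o) : g, h ∈ D(c)}` (even).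
INDUCTION on `∑_j δ(c_j)`. If some row is zero: done. Otherwise:
STEP. All `c_j ≠ 0`, `x_j = ∑_y x_{j,y} y`, `∑_{j,y} x_{j,y} y c_j = 0`,
`P = {(j,y) : x_{j,y} ≠ 0}`, nonempty and finite. `M = max {d(o, g o) : (j,y) ∈ P, g ∈ D(y c_j)}`,
`P_M` = the `(j,y) ∈ P` for which the maximum over `g ∈ D(y c_j)` is `M`.
For `(j,y) ∈ P_M` take `g ∈ D(y c_j)` with `d(o, g o) = M`. `δ_j ≤ M` (triangle inequality), so
(`geo`) there is `z = z_{j,y}` with `d(o,z) = M - δ_j`, `d(z, g o) = δ_j`.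
(C1) for `h ∈ D(y c_j)`: `four` for `z, h o; o, g o`: `d(z,ho) + M = d(z,ho) + d(o,go)
≤ max (d(z,o) + d(ho,go)) (d(z,go) + d(ho,o)) ≤ max (M - δ + 2δ) (δ + M)`, so `d(z, h o) ≤ δ_j`.
(C2) `z` is the only point with (C1): if `z'` is another one, take `g, h ∈ D` with `d = 2δ`; `four`
for `z, z'; go, ho`: `d(z,z') + 2δ ≤ 2δ`. In particular `z_{j,y'} = act (y' y⁻¹) z_{j,y}`, so
`z_{j,y} = z_{j,y'}` implies `y = y'` (the action is free).
Take `(j0,y0) ∈ P_M` with `ρ = δ_{j0}` maximal, `z0 = z_{j0,y0}`, and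
`Q = {(j,y) ∈ P_M : d(z0, z_{j,y}) + δ_j = ρ}`. If `(j0,y) ∈ Q` then `z_{j0,y} = z0`, `y = y0`. So
`c' = x_{j0,y0}⁻¹ ∑_Q x_{j,y} y c_j = y0 c_{j0} + ∑_{j ≠ j0} s_j c_j`.
`D(c') ⊆ ⋃_Q D(y c_j)` is in the ball of radius `ρ` around `z0`. If `c' ≠ 0` and `δ(c') ≥ ρ`, let
`g, h ∈ D(c')`, `d(go,ho) ≥ 2ρ`; `four` for `o, z0; go, ho`: `d(o,z0) + 2ρ ≤ max (d(o,go) + ρ)
(d(o,ho) + ρ)`, so for one of them, say `g`, `d(o,go) ≥ M` (`d(o,z0) = M - ρ`). If `(j,y) ∈ P` and
`g ∈ D(y c_j)` then `(j,y) ∈ P_M`, and `four` for `z0, z_{j,y}; o, go`: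
`d(z0,z_{j,y}) + M ≤ max ((M-ρ) + δ_j) (ρ + M - δ_j)`, so `d(z0,z_{j,y}) ≤ ρ - δ_j` and (triangle:
`M - δ_j ≤ M - ρ + d`) equality: `(j,y) ∈ Q`. So the coefficient of `c'` at `g` is `x_{j0,y0}⁻¹` times
that of the whole relation: `0`, contradiction. So `c' = 0` or `δ(c') < ρ`. Replace `c_{j0}` by
`c'` (one `mono` and some `elem`): the rows are still dependent (`x g⁻¹ ≠ 0`), unless `c' = 0`,
and then we are done. It is convenient to do the induction for tuples `c : Fin r → (Fin m → k[F])`. -/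
def SpecWAL : Prop := ∀ (k F : Type) [Field k] [Group F], HTree F → WA k F

/-- The augmentation `R[F] → R`. -/
noncomputable def aug (R F : Type) [CommRing R] [Group F] : MonoidAlgebra R F →+* R :=
  (MonoidAlgebra.lift R R F (1 : F →* R)).toRingHom

/-- **LFT** (size 100): properties of `GE`.

PROOF. Induction. The inverse of `1 + single i j s` is `1 + single i j (-s)`, that of the
diagonal matrix has `y⁻¹`; `GE` is closed under products. Lifting: lift `s`. The determinants of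
the augmentations are `1`. -/
def SpecLFT : Prop :=
  (∀ (R F : Type) [Ring R] [Group F] (r : ℕ) (g : Matrix (Fin r) (Fin r) (MonoidAlgebra R F)),
    GE g → ∃ g', GE g' ∧ g * g' = 1 ∧ g' * g = 1) ∧
  (∀ (R k F : Type) [Ring R] [Ring k] [Group F] (f : R →+* k), Function.Surjective f →
    ∀ (r : ℕ) (g : Matrix (Fin r) (Fin r) (MonoidAlgebra k F)), GE g →
    ∃ g' : Matrix (Fin r) (Fin r) (MonoidAlgebra R F), GE g' ∧
      g'.map (MonoidAlgebra.mapRingHom F f) = g) ∧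
  (∀ (R F : Type) [CommRing R] [Group F] (r : ℕ)
    (g : Matrix (Fin r) (Fin r) (MonoidAlgebra R F)), GE g → (g.map (aug R F)).det = 1)

/-- **FLD** (size 150, hypothesis `SpecLFT`): factorization over a field.

PROOF. (WA) for columns: for the anti-automorphism `τ` of `k[F]`, `g ↦ g⁻¹` (`conj` for the trivial
involution of `k`), `(M N)^τ = N^τ M^τ`; so if `i x = 0`, `x ≠ 0`, then there is an invertible `g`
such that `i g` has a zero column. Take `r` minimal such that there are `i (m × r)`, `p (r × n)`,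
`s (n × r)` with `L = i p`, `p s = 1` (`r = n` is possible: `i = L`, `p = s = 1`). If `i x = 0`,
`x ≠ 0`: take `g` invertible such that the column `j` of `i g` is zero; `L = (i g)(g⁻¹ p)`,
`(g⁻¹ p)(s g) = 1`; delete the column `j` of `i g`, the row `j` of `g⁻¹ p`, the column `j` of
`s g` (`Fin.succAbove`): smaller `r`. -/
def SpecFLD : Prop :=
  ∀ (k F : Type) [Field k] [Group F], WA k F → ∀ (m n : ℕ)
    (L : Matrix (Fin m) (Fin n) (MonoidAlgebra k F)),
    ∃ (r : ℕ) (i : Matrix (Fin m) (Fin r) (MonoidAlgebra k F))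
      (p : Matrix (Fin r) (Fin n) (MonoidAlgebra k F))
      (s : Matrix (Fin n) (Fin r) (MonoidAlgebra k F)),
      L = i * p ∧ p * s = 1 ∧ ∀ x : Fin r → MonoidAlgebra k F, i *ᵥ x = 0 → x = 0

/-- **PID** (size 350, hypotheses `SpecLFT, SpecFLD`): (FP) over a principal ideal domain.

PROOF. `S = D[F]`, `K = FractionRing D`, `S → K[F]` injective, everything in `K[F]` has a
denominator in `D - 0` (central). `L` over `S` (`m × n`). FLD over `K`: `L = i0 p0`, `p0 s0 = 1`.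
`p1 = c p0`, `s1 = c' s0` over `S` (`c, c' ≠ 0`), `p1 s1 = c c'`.
`N = {y ∈ S^n (row) : ∀ k ∈ S^n, L k = 0 → y k = 0}`. (a) rows of `p1` are in `N` (`L k = 0` gives
`i0 p0 k = 0`, `p0 k = 0`). (b) `d y ∈ N`, `d ≠ 0` implies `y ∈ N`. (c) `y ∈ N` implies
`y = (y s0) p0`: for every column `k`, `k - s0 p0 k` is killed by `p0`, so by `L`; clear
denominators; so `y k = y s0 p0 k`. So `c c' y = (y s1) p1`.
(d) Consider all `(p, h)`, `p (r × n)`, `h (r × r)` over `S`, rows of `p` in `N`, `h p = p1`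
(e.g. `(p1, 1)`). `h (p s1) = c c'`, so `det aug h * det aug (p s1) = (c c')^r ≠ 0`. Choose one for
which the number of prime factors of `det aug (p s1)` (`normalizedFactors`) is minimal.
(e) Claim: every `y ∈ N` is `z p`. For `d ≠ 0` let `Pr(d)`: `y ∈ N`, `d y ∈ S p` (row span) implies
`y ∈ S p`. `Pr` holds for units and is multiplicative (with (b), or `N` closed under `D`), and
`c c' y = (y s1) h p ∈ S p`; so it is enough to prove `Pr(q)` for `q` prime. Let `q y = z p`. If `q`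
divides `z` in `S^r`: `y = z' p` (torsion-free). Otherwise reduce modulo `q`: `k = D/(q)` is a
field, `z ≠ 0`, `z p = 0` in `k[F]`: (WA): `g` in `GE` over `k`, lift it (LFT): some row `j` of `g p`
is `q y''`, `y'' ∈ S^n`, `y'' ∈ N` by (b). Let `p'` = `g p` with the row `j` replaced by `y''`,
`Δ = diag(1, .., q, .., 1)`: `g p = Δ p'`, `h' = h g⁻¹ Δ`: `h' p' = p1`; and
`det aug (p s1) = det aug (g⁻¹ Δ p' s1) = q det aug (p' s1)`: fewer prime factors. Contradiction.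
(f) LEMMA: `h w = c` (scalar, `c ≠ 0`) over `K[F]`, `z w = 0` implies `z = 0`: otherwise (WA) over
`K`: `g w` has a zero row, `(h g⁻¹)(g w) = c`: apply `aug` and `det`: `c^r = 0`. (If `r = 0` clear.)
So `z p = 0` implies `z p s1 = 0`, `z = 0` (`h (p s1) = c c'`).
(g) rows of `L` are in `N`: `L = i p`. Over `K[F]`: rows of `p` in `N`, so `p = w p0`, `w = p s0`,
`i0 = L s0 = i w`, `h w = h p s0 = p1 s0 = c`; `(w h - c) w = 0`, so `w h = c` by (f). If `i x = 0`:
`i0 (h x) = i w h x = c i x = 0`, so `h x = 0`, `c x = w h x = 0`, `x = 0`.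
(h) closed: if `p k = 0` implies `y k = 0`, then `L k = 0` implies `p k = 0` (by (g)), so `y ∈ N`,
so `y = z p` by (e). -/
def SpecPID : Prop :=
  ∀ (D F : Type) [CommRing D] [IsDomain D] [IsPrincipalIdealRing D] [Group F],
    (∀ (k : Type) [Field k], WA k F) → FP (MonoidAlgebra D F)

/-- **LOC** (size 150, hypothesis `SpecRES`): transport, and locally (FP).

PROOF. (a) clear. (b) Let `L` be a matrix over `R[H]`; the supports of its entries are in a
finitely generated subgroup `K`, `L = L0.map (emb R K)`, `L0 = i0 p0` by (FP) for `R[K]`;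
`i = i0.map emb`, `p = p0.map emb`. The two cancellations are (CL), (CR) (matrices with one row or
column). Closed: let `y ∈ R[H]^n`, `p k = 0 → y k = 0` for `k ∈ R[H]^n`. For `t ∈ H` and `k ∈ R[K]^n`,
`p0 k = 0`: `(res t y) k = res t (y (emb k)) = 0`; so `res t y = z_t p0` for all `t`; (RF) with one
row and `X = univ`: `y = z p`. -/
def SpecLOC : Prop :=
  (∀ (S S' : Type) [Ring S] [Ring S'], (S ≃+* S') → FP S → FP S') ∧
  (∀ (R H : Type) [Ring R] [Group H],
    (∀ K : Subgroup H, K.FG → FP (MonoidAlgebra R K)) → FP (MonoidAlgebra R H))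

/-- **FIN** (size 100; all the Specs): the two theorems. (helper31) -/
def SpecFIN : Prop :=
  (∀ (R G V : Type) [Ring R] [StarRing R] [Group G] [MulAction G V] (T : SimpleGraph V) (v w : V),
    T.IsTree → (∀ (g : G) (x y : V), T.Adj x y → T.Adj (g • x) (g • y)) → T.Adj v w →
    (∀ g : G, ¬ (g • v = w ∧ g • w = v)) →
    (∀ g : G, g * g = 1 → (g • v = v ↔ g • w = w)) →
    FP (MonoidAlgebra R ↥(MulAction.stabilizer G v ⊓ MulAction.stabilizer G w)) →
    ∀ (ε : ℤˣ) (n : ℕ) (ψ μ χ : Matrix (Fin n) (Fin n) (MonoidAlgebra R G)),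
      SuppIn {g | g • v = v ∧ g • w ≠ w} ψ → SuppIn {g | g • v = w} μ →
      SuppIn {g | g • w = w ∧ g • v ≠ v} χ →
      IsNilpotent (nu ε (ψ + (ε : ℤ) • ψᴴ) μ (χ + (ε : ℤ) • χᴴ)) →
      StablyHyperbolic ε (UF ψ μ χ)) ∧
  (∀ (D H : Type) [CommRing D] [IsDomain D] [IsPrincipalIdealRing D] [Group H],
    (∀ K : Subgroup H, K.FG → IsFreeGroup K) → FP (MonoidAlgebra D H))

end Pool.Agent.Lib.MP8a3537.UV
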