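import Pool.Agent.Lib.MP_8a3537_gt.UV.Spec

/-!
# UV, module WAL: the weak algorithm for the group ring of a group acting freely on a tree
-/

namespace Pool.Agent.Lib.MP8a3537.UV

open Matrix

namespace WALAux

section Tree

variable {F : Type} [Group F] (H : HTree F)

/-- Half of the diameter of the set of the points `g o`, `g ∈ S`. -/
noncomputable def del (S : Finset F) : ℕ :=
  ((S ×ˢ S).sup fun p => H.d (H.act p.1 H.o) (H.act p.2 H.o)) / 2

theorem sup_even (S : Finset F) :
    Even ((S ×ˢ S).sup fun p => H.d (H.act p.1 H.o) (H.act p.2 H.o)) := by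
  by_cases h : (S ×ˢ S).Nonempty
  · obtain ⟨p, _, h2⟩ := Finset.exists_mem_eq_sup _ h
      (fun p : F × F => H.d (H.act p.1 H.o) (H.act p.2 H.o))
    rw [h2]
    exact H.even _ _
  · rw [Finset.not_nonempty_iff_eq_empty] at h
    rw [h, Finset.sup_empty]
    exact Even.zero

theorem two_del (S : Finset F) :
    2 * del H S = (S ×ˢ S).sup fun p => H.d (H.act p.1 H.o) (H.act p.2 H.o) := by
  obtain ⟨k, hk⟩ := sup_even H S
  unfold del
  omega

theorem le_del (S : Finset F) {g h : F} (hg : g ∈ S) (hh : h ∈ S) :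
    H.d (H.act g H.o) (H.act h H.o) ≤ 2 * del H S := by
  rw [two_del]
  exact Finset.le_sup (f := fun p : F × F => H.d (H.act p.1 H.o) (H.act p.2 H.o))
    (Finset.mk_mem_product hg hh)

theorem exists_del (S : Finset F) (hS : S.Nonempty) :
    ∃ g ∈ S, ∃ h ∈ S, H.d (H.act g H.o) (H.act h H.o) = 2 * del H S := by
  obtain ⟨p, h1, h2⟩ := Finset.exists_mem_eq_sup _ (hS.product hS)
    (fun p : F × F => H.d (H.act p.1 H.o) (H.act p.2 H.o))
  rw [Finset.mem_product] at h1
  exact ⟨p.1, h1.1, p.2, h1.2, by rw [two_del, h2]⟩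

theorem iso' (y g h : F) :
    H.d (H.act (y * g) H.o) (H.act (y * h) H.o) = H.d (H.act g H.o) (H.act h H.o) := by
  rw [H.act_mul, H.act_mul, H.iso]

/-- The centre exists. -/
theorem centre (S : Finset F) (hS : S.Nonempty) (y : F) (M : ℕ)
    (hM : ∀ s ∈ S, H.d H.o (H.act (y * s) H.o) ≤ M)
    (hM' : ∃ s ∈ S, H.d H.o (H.act (y * s) H.o) = M) :
    ∃ z, H.d H.o z + del H S = M ∧ ∀ s ∈ S, H.d z (H.act (y * s) H.o) ≤ del H S := by
  obtain ⟨g, hg, h, hh, hgh⟩ := exists_del H S hS
  have h1 : del H S ≤ M := by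
    have t := H.tri (H.act (y * g) H.o) H.o (H.act (y * h) H.o)
    rw [iso', hgh, H.d_comm _ H.o] at t
    have := hM g hg
    have := hM h hh
    omega
  obtain ⟨s, hs, hsM⟩ := hM'
  obtain ⟨z, hz1, hz2⟩ := H.geo H.o (H.act (y * s) H.o) (del H S) (by rw [hsM]; exact h1)
  rw [hsM] at hz1
  refine ⟨z, hz1, fun u hu => ?_⟩
  have f := H.four z (H.act (y * u) H.o) H.o (H.act (y * s) H.o)
  rw [iso', hsM, hz2, H.d_comm z H.o, H.d_comm _ H.o] at f
  have e1 := le_del H S hu hs
  have e2 := hM u hu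
  rcases le_max_iff.mp f with f | f <;> omega

/-- The centre is unique. -/
theorem centre_unique (S : Finset F) (hS : S.Nonempty) (y : F) (z z' : H.T)
    (hz : ∀ s ∈ S, H.d z (H.act (y * s) H.o) ≤ del H S)
    (hz' : ∀ s ∈ S, H.d z' (H.act (y * s) H.o) ≤ del H S) : z = z' := by
  obtain ⟨g, hg, h, hh, hgh⟩ := exists_del H S hS
  apply H.d_eq
  have f := H.four z z' (H.act (y * g) H.o) (H.act (y * h) H.o)
  rw [iso', hgh] at f
  have a1 := hz g hg
  have a2 := hz h hh
  have b1 := hz' g hg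
  have b2 := hz' h hh
  rcases le_max_iff.mp f with f | f <;> omega

theorem core {J : Type} (S : J → Finset F) (hS : ∀ j, (S j).Nonempty)
    (P : Finset (J × F)) (hP : P.Nonempty) :
    ∃ q0 ∈ P, ∃ Q ⊆ P, q0 ∈ Q ∧ (∀ y, (q0.1, y) ∈ Q → y = q0.2) ∧
      ∀ T : Finset F, T.Nonempty → (∀ g ∈ T, ∃ q ∈ Q, q.2⁻¹ * g ∈ S q.1) →
        (∀ g ∈ T, ∃ q ∈ P, q ∉ Q ∧ q.2⁻¹ * g ∈ S q.1) → del H T < del H (S q0.1) := by
  classical
  have : Nonempty H.T := ⟨H.o⟩
  -- the maximum
  obtain ⟨M, hM, q1, hq1, s1, hs1, hM1⟩ : ∃ M, (∀ q ∈ P, ∀ s ∈ S q.1,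
      H.d H.o (H.act (q.2 * s) H.o) ≤ M) ∧ ∃ q ∈ P, ∃ s ∈ S q.1,
      H.d H.o (H.act (q.2 * s) H.o) = M := by
    let E : Finset (Σ _ : J × F, F) := P.sigma fun q => S q.1
    have hE : E.Nonempty := by
      obtain ⟨q, hq⟩ := hP
      obtain ⟨s, hs⟩ := hS q.1
      exact ⟨⟨q, s⟩, Finset.mem_sigma.mpr ⟨hq, hs⟩⟩
    obtain ⟨t, ht, hmax⟩ := Finset.exists_max_image E
      (fun t => H.d H.o (H.act (t.1.2 * t.2) H.o)) hE
    refine ⟨H.d H.o (H.act (t.1.2 * t.2) H.o), ?_, ?_⟩
    · intro q hq s hs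
      exact hmax ⟨q, s⟩ (Finset.mem_sigma.mpr ⟨hq, hs⟩)
    · have := Finset.mem_sigma.mp ht
      exact ⟨t.1, this.1, t.2, this.2, rfl⟩
  let PM : Finset (J × F) := P.filter fun q => ∃ s ∈ S q.1, H.d H.o (H.act (q.2 * s) H.o) = M
  have hPM : ∀ q, q ∈ PM ↔ q ∈ P ∧ ∃ s ∈ S q.1, H.d H.o (H.act (q.2 * s) H.o) = M := by
    intro q
    simp only [PM, Finset.mem_filter]
  have hz : ∀ q ∈ PM, ∃ z, H.d H.o z + del H (S q.1) = M ∧
      ∀ s ∈ S q.1, H.d z (H.act (q.2 * s) H.o) ≤ del H (S q.1) := by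
    intro q hq
    rw [hPM] at hq
    exact centre H (S q.1) (hS _) q.2 M (hM q hq.1) hq.2
  choose! z hz1 hz2 using hz
  obtain ⟨q0, hq0, hmax⟩ := Finset.exists_max_image PM (fun q => del H (S q.1))
    ⟨q1, (hPM q1).mpr ⟨hq1, s1, hs1, hM1⟩⟩
  let Q : Finset (J × F) := PM.filter fun q => H.d (z q0) (z q) + del H (S q.1) = del H (S q0.1)
  have hQ : ∀ q, q ∈ Q ↔ q ∈ PM ∧ H.d (z q0) (z q) + del H (S q.1) = del H (S q0.1) := by
    intro q
    simp only [Q, Finset.mem_filter]
  refine ⟨q0, ((hPM q0).mp hq0).1, Q, ?_, ?_, ?_, ?_⟩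
  · intro q hq
    exact ((hPM q).mp ((hQ q).mp hq).1).1
  · rw [hQ]
    exact ⟨hq0, by rw [H.d_self, Nat.zero_add]⟩
  · intro y hy
    rw [hQ] at hy
    obtain ⟨hy1, hy2⟩ := hy
    have e1 : z q0 = z (q0.1, y) := by
      apply H.d_eq
      simp only at hy2
      omega
    have e2 : z (q0.1, y) = H.act (y * q0.2⁻¹) (z q0) := by
      apply centre_unique H (S q0.1) (hS _) y
      · exact hz2 _ hy1
      · intro s hs
        have : H.act (y * s) H.o = H.act (y * q0.2⁻¹) (H.act (q0.2 * s) H.o) := by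
          rw [← H.act_mul]
          congr 1
          group
        rw [this, H.iso]
        exact hz2 q0 hq0 s hs
    rw [← e1] at e2
    have e3 := H.free _ _ e2.symm
    exact mul_inv_eq_one.mp e3
  · intro T hT hTQ hTP
    -- `T` is in the ball
    have hball : ∀ g ∈ T, H.d (z q0) (H.act g H.o) ≤ del H (S q0.1) := by
      intro g hg
      obtain ⟨q, hq, hgs⟩ := hTQ g hg
      rw [hQ] at hq
      have h1 := hz2 q hq.1 _ hgs
      rw [mul_inv_cancel_left] at h1
      have h2 := H.tri (z q0) (z q) (H.act g H.o)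
      omega
    -- no point of `T` is at distance `≥ M` from `o`
    have hlow : ∀ g ∈ T, H.d H.o (H.act g H.o) < M := by
      intro g hg
      by_contra hcon
      rw [not_lt] at hcon
      obtain ⟨q, hq, hqQ, hgs⟩ := hTP g hg
      have h0 := hM q hq _ hgs
      rw [mul_inv_cancel_left] at h0
      have hgM : H.d H.o (H.act g H.o) = M := le_antisymm h0 hcon
      have hqPM : q ∈ PM := by
        rw [hPM]
        exact ⟨hq, _, hgs, by rw [mul_inv_cancel_left]; exact hgM⟩
      apply hqQ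
      rw [hQ]
      refine ⟨hqPM, ?_⟩
      have a1 := hz1 q hqPM
      have a2 := hz1 q0 hq0
      have a3 := hz2 q hqPM _ hgs
      rw [mul_inv_cancel_left] at a3
      have a4 := hball g hg
      have a5 : del H (S q.1) ≤ del H (S q0.1) := hmax q hqPM
      have f := H.four (z q0) (z q) H.o (H.act g H.o)
      rw [hgM, H.d_comm (z q0) H.o, H.d_comm (z q) H.o] at f
      have t := H.tri H.o (z q0) (z q)
      rcases le_max_iff.mp f with f | f <;> omega
    by_contra hcon
    rw [not_lt] at hcon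
    obtain ⟨g, hg, h, hh, hgh⟩ := exists_del H T hT
    have f := H.four H.o (z q0) (H.act g H.o) (H.act h H.o)
    rw [hgh] at f
    have b1 := hball g hg
    have b2 := hball h hh
    have l1 := hlow g hg
    have l2 := hlow h hh
    have a2 := hz1 q0 hq0
    rcases le_max_iff.mp f with f | f <;> omega

end Tree

section Rows

variable {k F : Type} [Field k] [Group F]

/-- The support of a row. -/
noncomputable def DD {m : ℕ} (c : Fin m → MonoidAlgebra k F) : Finset F := by
  classical exact Finset.univ.biUnion fun i => (c i).coeff.support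

theorem mem_DD {m : ℕ} (c : Fin m → MonoidAlgebra k F) (g : F) :
    g ∈ DD c ↔ ∃ i, (c i).coeff g ≠ 0 := by
  classical
  unfold DD
  simp only [Finset.mem_biUnion, Finset.mem_univ, true_and, Finsupp.mem_support_iff]

theorem DD_nonempty {m : ℕ} (c : Fin m → MonoidAlgebra k F) (hc : c ≠ 0) : (DD c).Nonempty := by
  by_contra h
  apply hc
  funext i
  ext g
  by_contra h2
  exact h ⟨g, (mem_DD c g).mpr ⟨i, h2⟩⟩

theorem ge_mul {R : Type} [Ring R] {r : ℕ} {g h : Matrix (Fin r) (Fin r) (MonoidAlgebra R F)}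
    (hg : GE g) (hh : GE h) : GE (g * h) := by
  induction hg with
  | one => rw [Matrix.one_mul]; exact hh
  | elem i j hij s g _ ih => rw [Matrix.mul_assoc]; exact GE.elem i j hij s _ ih
  | mono i y g _ ih => rw [Matrix.mul_assoc]; exact GE.mono i y _ ih

theorem ge_row {R : Type} [Ring R] {r : ℕ} (j0 : Fin r) (y : F) (s : Fin r → MonoidAlgebra R F)
    (T : Finset (Fin r)) (hT : j0 ∉ T) :
    ∃ g : Matrix (Fin r) (Fin r) (MonoidAlgebra R F), GE g ∧
      ∀ (m : ℕ) (C : Matrix (Fin r) (Fin m) (MonoidAlgebra R F)),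
        (∀ a, (g * C) j0 a = MonoidAlgebra.single y 1 * C j0 a + ∑ j ∈ T, s j * C j a) ∧
        ∀ i, i ≠ j0 → ∀ a, (g * C) i a = C i a := by
  classical
  induction T using Finset.induction_on with
  | empty =>
    refine ⟨_, GE.mono j0 y 1 GE.one, fun m C => ⟨fun a => ?_, fun i hi a => ?_⟩⟩
    · rw [Matrix.mul_one, Matrix.diagonal_mul, Function.update_self, Finset.sum_empty, add_zero]
    · rw [Matrix.mul_one, Matrix.diagonal_mul, Function.update_of_ne hi, Pi.one_apply, one_mul]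
  | insert j T hj ih =>
    have hj0 : j0 ≠ j := fun h => hT (by rw [h]; exact Finset.mem_insert_self _ _)
    obtain ⟨g, hg, hgC⟩ := ih (fun h => hT (Finset.mem_insert_of_mem h))
    refine ⟨_, GE.elem j0 j hj0 (s j) g hg, fun m C => ⟨fun a => ?_, fun i hi a => ?_⟩⟩
    · rw [Matrix.mul_assoc, Matrix.add_mul, Matrix.one_mul, Matrix.add_apply,
        Matrix.single_mul_apply_same, (hgC m C).1, (hgC m C).2 j hj0.symm, Finset.sum_insert hj]
      abel
    · rw [Matrix.mul_assoc, Matrix.add_mul, Matrix.one_mul, Matrix.add_apply,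
        Matrix.single_mul_apply_of_ne _ _ _ _ _ hi, (hgC m C).2 i hi, add_zero]

theorem step (H : HTree F) {r m : ℕ} (C : Matrix (Fin r) (Fin m) (MonoidAlgebra k F))
    (x : Fin r → MonoidAlgebra k F) (hx : x ≠ 0) (hxC : x ᵥ* C = 0) (hC : ∀ i, C i ≠ 0) :
    ∃ g : Matrix (Fin r) (Fin r) (MonoidAlgebra k F), GE g ∧
      ∃ x' : Fin r → MonoidAlgebra k F, x' ≠ 0 ∧ x' ᵥ* (g * C) = 0 ∧
        ((∃ i, (g * C) i = 0) ∨
          ∑ i, del H (DD ((g * C) i)) < ∑ i, del H (DD (C i))) := by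
  classical
  let U : Finset F := Finset.univ.biUnion fun j => (x j).coeff.support
  let P : Finset (Fin r × F) := (Finset.univ ×ˢ U).filter fun q => (x q.1).coeff q.2 ≠ 0
  have hU : ∀ j g, (x j).coeff g ≠ 0 → g ∈ U := by
    intro j g h
    exact Finset.mem_biUnion.mpr ⟨j, Finset.mem_univ _, Finsupp.mem_support_iff.mpr h⟩
  have hP : ∀ q, q ∈ P ↔ (x q.1).coeff q.2 ≠ 0 := by
    intro q
    simp only [P, Finset.mem_filter, Finset.mem_product, Finset.mem_univ, true_and]
    exact ⟨fun h => h.2, fun h => ⟨hU _ _ h, h⟩⟩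
  have hPne : P.Nonempty := by
    by_contra hcon
    apply hx
    funext j
    ext g
    by_contra h2
    exact hcon ⟨(j, g), (hP (j, g)).mpr h2⟩
  -- the relation
  have hrel : ∀ (a : Fin m) (g : F),
      ∑ q ∈ P, (x q.1).coeff q.2 * (C q.1 a).coeff (q.2⁻¹ * g) = 0 := by
    intro a g
    have h1 : ∑ q ∈ P, (x q.1).coeff q.2 * (C q.1 a).coeff (q.2⁻¹ * g)
        = ∑ q ∈ Finset.univ ×ˢ U, (x q.1).coeff q.2 * (C q.1 a).coeff (q.2⁻¹ * g) := by
      apply Finset.sum_subset (Finset.filter_subset _ _)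
      intro q _ hq
      rw [hP, not_not] at hq
      rw [hq, zero_mul]
    rw [h1, Finset.sum_product]
    have h2 : ((x ᵥ* C) a).coeff g = 0 := by
      rw [hxC]
      simp
    rw [← h2]
    simp only [Matrix.vecMul, dotProduct, MonoidAlgebra.coeff_sum, Finsupp.coe_finsetSum,
      Finset.sum_apply]
    apply Finset.sum_congr rfl
    intro j _
    rw [MonoidAlgebra.coeff_mul_apply_left]
    rw [Finsupp.sum_of_support_subset (s := U)]
    · intro g hg
      exact hU j g (Finsupp.mem_support_iff.mp hg)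
    · intro g _
      rw [zero_mul]
  obtain ⟨q0, hq0, Q, hQP, hq0Q, huniq, hcore⟩ := core H (fun j => DD (C j))
    (fun j => DD_nonempty _ (hC j)) P hPne
  have hx0 : (x q0.1).coeff q0.2 ≠ 0 := (hP q0).mp hq0
  let t : Fin r → MonoidAlgebra k F := fun j => ∑ q ∈ Q with q.1 = j,
    MonoidAlgebra.single q.2 (((x q0.1).coeff q0.2)⁻¹ * (x q.1).coeff q.2)
  obtain ⟨g, hg, hgC⟩ := ge_row (R := k) q0.1 q0.2 t (Finset.univ.erase q0.1)
    (Finset.notMem_erase _ _)
  have hrow : ∀ a, (g * C) q0.1 a = ∑ q ∈ Q,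
      MonoidAlgebra.single q.2 (((x q0.1).coeff q0.2)⁻¹ * (x q.1).coeff q.2) * C q.1 a := by
    intro a
    rw [(hgC m C).1 a, ← Finset.sum_fiberwise Q (fun q => q.1),
      ← Finset.add_sum_erase _ _ (Finset.mem_univ q0.1)]
    congr 1
    · have : (Q.filter fun q => q.1 = q0.1) = {q0} := by
        ext q
        simp only [Finset.mem_filter, Finset.mem_singleton]
        constructor
        · rintro ⟨h1, h2⟩
          have : q = (q0.1, q.2) := by rw [← h2]
          rw [this] at h1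
          have h3 := huniq _ h1
          rw [this]
          exact Prod.ext rfl h3
        · rintro rfl
          exact ⟨hq0Q, rfl⟩
      rw [this, Finset.sum_singleton, inv_mul_cancel₀ hx0]
    · apply Finset.sum_congr rfl
      intro j _
      simp only [t]
      rw [Finset.sum_mul]
      apply Finset.sum_congr rfl
      intro q hq
      rw [(Finset.mem_filter.mp hq).2]
  have hcoef : ∀ a h, ((g * C) q0.1 a).coeff h = ((x q0.1).coeff q0.2)⁻¹ * ∑ q ∈ Q,
      (x q.1).coeff q.2 * (C q.1 a).coeff (q.2⁻¹ * h) := by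
    intro a h
    rw [hrow, MonoidAlgebra.coeff_sum, Finsupp.finsetSum_apply, Finset.mul_sum]
    apply Finset.sum_congr rfl
    intro q _
    rw [MonoidAlgebra.coeff_single_mul_apply, mul_assoc]
  let x0 : MonoidAlgebra k F := x q0.1 * MonoidAlgebra.single q0.2⁻¹ 1
  have hx00 : x0 * MonoidAlgebra.single q0.2 1 = x q0.1 := by
    simp only [x0]
    rw [mul_assoc, MonoidAlgebra.single_mul_single, inv_mul_cancel, one_mul,
      ← MonoidAlgebra.one_def, mul_one]
  refine ⟨g, hg, fun i => if i = q0.1 then x0 else x i - x0 * t i, ?_, ?_, ?_⟩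
  · intro hcon
    have h1 := congrFun hcon q0.1
    simp only [if_pos, Pi.zero_apply] at h1
    rw [h1, zero_mul] at hx00
    rw [← hx00] at hx0
    simp at hx0
  · funext a
    have h2 : (x ᵥ* C) a = 0 := by rw [hxC]; rfl
    simp only [Matrix.vecMul, dotProduct, Pi.zero_apply] at h2 ⊢
    rw [← Finset.add_sum_erase _ _ (Finset.mem_univ q0.1)] at h2 ⊢
    rw [if_pos rfl, (hgC m C).1 a, mul_add, ← mul_assoc, hx00, Finset.mul_sum]
    have h3 : ∑ i ∈ Finset.univ.erase q0.1,
        (if i = q0.1 then x0 else x i - x0 * t i) * (g * C) i a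
        = ∑ i ∈ Finset.univ.erase q0.1, (x i * C i a - x0 * (t i * C i a)) := by
      apply Finset.sum_congr rfl
      intro i hi
      have hi' := (Finset.mem_erase.mp hi).1
      rw [if_neg hi', (hgC m C).2 i hi' a, sub_mul, mul_assoc]
    rw [h3, Finset.sum_sub_distrib]
    rw [← h2]
    abel
  · by_cases hzero : (g * C) q0.1 = 0
    · exact Or.inl ⟨_, hzero⟩
    · right
      have key : del H (DD ((g * C) q0.1)) < del H (DD (C q0.1)) := by
        apply hcore _ (DD_nonempty _ hzero)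
        · intro h hh
          obtain ⟨a, ha⟩ := (mem_DD _ _).mp hh
          rw [hcoef] at ha
          obtain ⟨q, hq, hq2⟩ := Finset.exists_ne_zero_of_sum_ne_zero (right_ne_zero_of_mul ha)
          exact ⟨q, hq, (mem_DD _ _).mpr ⟨a, right_ne_zero_of_mul hq2⟩⟩
        · intro h hh
          obtain ⟨a, ha⟩ := (mem_DD _ _).mp hh
          by_contra hcon
          push Not at hcon
          apply ha
          rw [hcoef]
          have : ∑ q ∈ Q, (x q.1).coeff q.2 * (C q.1 a).coeff (q.2⁻¹ * h)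
              = ∑ q ∈ P, (x q.1).coeff q.2 * (C q.1 a).coeff (q.2⁻¹ * h) := by
            apply Finset.sum_subset hQP
            intro q hq hqQ
            have h1 := hcon q hq hqQ
            rw [mem_DD] at h1
            push Not at h1
            rw [h1 a, mul_zero]
          rw [this, hrel, mul_zero]
      apply Finset.sum_lt_sum
      · intro i _
        by_cases hi : i = q0.1
        · rw [hi]; exact key.le
        · have : (g * C) i = C i := by
            funext a
            exact (hgC m C).2 i hi a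
          rw [this]
      · exact ⟨q0.1, Finset.mem_univ _, key⟩

theorem main (H : HTree F) (N : ℕ) : ∀ (r m : ℕ) (C : Matrix (Fin r) (Fin m) (MonoidAlgebra k F))
    (x : Fin r → MonoidAlgebra k F), x ≠ 0 → x ᵥ* C = 0 → ∑ i, del H (DD (C i)) ≤ N →
    ∃ g : Matrix (Fin r) (Fin r) (MonoidAlgebra k F), GE g ∧ ∃ i, ∀ j, (g * C) i j = 0 := by
  induction N with
  | zero =>
    intro r m C x hx hxC hN
    by_cases hC : ∀ i, C i ≠ 0
    · obtain ⟨g, hg, x', hx', hx'C, h | h⟩ := step H C x hx hxC hC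
      · obtain ⟨i, hi⟩ := h
        exact ⟨g, hg, i, fun j => by rw [hi]; rfl⟩
      · omega
    · push Not at hC
      obtain ⟨i, hi⟩ := hC
      exact ⟨1, GE.one, i, fun j => by rw [Matrix.one_mul, hi]; rfl⟩
  | succ N ih =>
    intro r m C x hx hxC hN
    by_cases hC : ∀ i, C i ≠ 0
    · obtain ⟨g, hg, x', hx', hx'C, h | h⟩ := step H C x hx hxC hC
      · obtain ⟨i, hi⟩ := h
        exact ⟨g, hg, i, fun j => by rw [hi]; rfl⟩
      · obtain ⟨g', hg', i, hi⟩ := ih r m (g * C) x' hx' hx'C (by omega)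
        exact ⟨g' * g, ge_mul hg' hg, i, fun j => by rw [Matrix.mul_assoc]; exact hi j⟩
    · push Not at hC
      obtain ⟨i, hi⟩ := hC
      exact ⟨1, GE.one, i, fun j => by rw [Matrix.one_mul, hi]; rfl⟩

end Rows

end WALAux

/-- **Module WAL**: the weak algorithm. -/
theorem specWAL : SpecWAL := by
  intro k F _ _ H r m C x hx hxC
  exact WALAux.main H _ r m C x hx hxC le_rfl

end Pool.Agent.Lib.MP8a3537.UV
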