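import Pool.Agent.Lib.MP_8a3537_gt.UV.Spec

/-!
# UV, module FLD: factorization over a field
-/

namespace Pool.Agent.Lib.MP8a3537.UV

open Matrix

namespace FLDAux

/-- (WA) for columns -/
theorem wa_col (hL : SpecLFT) {k F : Type} [Field k] [Group F] (hW : WA k F) {m r : ℕ}
    (i : Matrix (Fin m) (Fin r) (MonoidAlgebra k F)) (x : Fin r → MonoidAlgebra k F)
    (hx : x ≠ 0) (hi : i *ᵥ x = 0) :
    ∃ (h h' : Matrix (Fin r) (Fin r) (MonoidAlgebra k F)) (j : Fin r),
      h * h' = 1 ∧ h' * h = 1 ∧ ∀ a, (i * h) a j = 0 := by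
  let _ : StarRing k := starRingOfComm
  have hx' : star x ≠ 0 := fun h => hx (by simpa using congrArg star h)
  have hC : star x ᵥ* iᴴ = 0 := by
    rw [← Matrix.star_mulVec, hi, star_zero]
  obtain ⟨g, hg, j, hj⟩ := hW r m iᴴ (star x) hx' hC
  obtain ⟨g', -, h1, h2⟩ := hL.1 k F r g hg
  refine ⟨gᴴ, g'ᴴ, j, ?_, ?_, ?_⟩
  · rw [← Matrix.conjTranspose_mul, h2, Matrix.conjTranspose_one]
  · rw [← Matrix.conjTranspose_mul, h1, Matrix.conjTranspose_one]
  · intro a
    have h3 : i * gᴴ = (g * iᴴ)ᴴ := by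
      rw [Matrix.conjTranspose_mul, Matrix.conjTranspose_conjTranspose]
    rw [h3, Matrix.conjTranspose_apply, hj a, star_zero]

/-- Deleting a zero column. -/
theorem del {S : Type} [Ring S] {m n r : ℕ} (i : Matrix (Fin m) (Fin (r + 1)) S)
    (p : Matrix (Fin (r + 1)) (Fin n) S) (j : Fin (r + 1)) (h : ∀ a, i a j = 0) :
    i.submatrix id j.succAbove * p.submatrix j.succAbove id = i * p := by
  ext a b
  rw [Matrix.mul_apply, Matrix.mul_apply, Fin.sum_univ_succAbove _ j, h a, zero_mul, zero_add]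
  rfl

end FLDAux

/-- **FLD**: factorization over a field. -/
theorem specFld (hL : SpecLFT) : SpecFLD := by
  intro k F _ _ hW m n L
  classical
  have hex : ∃ r : ℕ, ∃ (i : Matrix (Fin m) (Fin r) (MonoidAlgebra k F))
      (p : Matrix (Fin r) (Fin n) (MonoidAlgebra k F))
      (s : Matrix (Fin n) (Fin r) (MonoidAlgebra k F)), L = i * p ∧ p * s = 1 :=
    ⟨n, L, 1, 1, (Matrix.mul_one L).symm, Matrix.mul_one 1⟩
  obtain ⟨r, ⟨i, p, s, hLi, hps⟩, hmin⟩ :
      ∃ r, (∃ (i : Matrix (Fin m) (Fin r) (MonoidAlgebra k F))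
      (p : Matrix (Fin r) (Fin n) (MonoidAlgebra k F))
      (s : Matrix (Fin n) (Fin r) (MonoidAlgebra k F)), L = i * p ∧ p * s = 1) ∧
      ∀ r' < r, ¬ ∃ (i : Matrix (Fin m) (Fin r') (MonoidAlgebra k F))
      (p : Matrix (Fin r') (Fin n) (MonoidAlgebra k F))
      (s : Matrix (Fin n) (Fin r') (MonoidAlgebra k F)), L = i * p ∧ p * s = 1 :=
    ⟨Nat.find hex, Nat.find_spec hex, fun r' h => Nat.find_min hex h⟩
  refine ⟨r, i, p, s, hLi, hps, ?_⟩
  intro x hx
  by_contra hx0
  obtain ⟨h, h', j, h1, h2, hj⟩ := FLDAux.wa_col hL hW i x hx0 hx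
  cases r with
  | zero => exact j.elim0
  | succ r =>
    apply hmin r (Nat.lt_succ_self r)
    refine ⟨(i * h).submatrix id j.succAbove, (h' * p).submatrix j.succAbove id,
      (s * h).submatrix id j.succAbove, ?_, ?_⟩
    · rw [FLDAux.del _ _ j hj, Matrix.mul_assoc i h, ← Matrix.mul_assoc h h' p, h1,
        Matrix.one_mul, hLi]
    · have h3 : (h' * p) * (s * h) = 1 := by
        rw [Matrix.mul_assoc h' p, ← Matrix.mul_assoc p s h, hps, Matrix.one_mul, h2]
      have h4 : (h' * p).submatrix j.succAbove id * (s * h).submatrix id j.succAbove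
          = ((h' * p) * (s * h)).submatrix j.succAbove j.succAbove := by
        ext a b
        rfl
      rw [h4, h3]
      ext a b
      rw [Matrix.submatrix_apply, Matrix.one_apply, Matrix.one_apply]
      simp

end Pool.Agent.Lib.MP8a3537.UV
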