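import Pool.Agent.Lib.MP_8a3537_gt.UV.Spec

/-!
# UV, module LOC: transport of (FP) along isomorphisms, and locally (FP)
-/

namespace Pool.Agent.Lib.MP8a3537.UV

open Matrix

namespace LOCAux

theorem transport {S S' : Type} [Ring S] [Ring S'] (e : S ≃+* S') (h : FP S) : FP S' := by
  intro m n L
  obtain ⟨r, i, p, hL, hi, hp, hcl⟩ := h m n (L.map e.symm)
  refine ⟨r, i.map (e : S →+* S'), p.map (e : S →+* S'), ?_, ?_, ?_, ?_⟩
  · rw [← Matrix.map_mul, ← hL]
    ext a b
    simp
  · intro x hx
    have h1 : i *ᵥ ((e.symm : S' →+* S) ∘ x) = 0 := by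
      ext a
      have h2 := congrFun hx a
      have h3 := congrArg (e.symm : S' →+* S) h2
      rw [RingHom.map_mulVec] at h3
      have h4 : (i.map (e : S →+* S')).map (e.symm : S' →+* S) = i := by
        ext a b
        simp
      rw [h4] at h3
      rw [h3]
      simp
    have h2 := hi _ h1
    ext a
    have h3 := congrFun h2 a
    have h4 : e.symm (x a) = 0 := h3
    simpa using h4
  · intro z hz
    have h1 : ((e.symm : S' →+* S) ∘ z) ᵥ* p = 0 := by
      ext a
      have h2 := congrFun hz a
      have h3 := congrArg (e.symm : S' →+* S) h2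
      rw [RingHom.map_vecMul] at h3
      have h4 : (p.map (e : S →+* S')).map (e.symm : S' →+* S) = p := by
        ext a b
        simp
      rw [h4] at h3
      rw [h3]
      simp
    have h2 := hp _ h1
    ext a
    have h3 := congrFun h2 a
    have h4 : e.symm (z a) = 0 := h3
    simpa using h4
  · intro y hy
    obtain ⟨z, hz⟩ := hcl ((e.symm : S' →+* S) ∘ y) (by
      intro k hk
      have h1 : p.map (e : S →+* S') *ᵥ ((e : S →+* S') ∘ k) = 0 := by
        ext a
        rw [← RingHom.map_mulVec, hk]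
        simp
      have h2 := congrArg (e.symm : S' →+* S) (hy _ h1)
      rw [RingHom.map_dotProduct] at h2
      have h3 : (e.symm : S' →+* S) ∘ ((e : S →+* S') ∘ k) = k := by
        ext a
        simp
      rw [h3] at h2
      rw [h2]
      simp)
    refine ⟨(e : S →+* S') ∘ z, ?_⟩
    ext a
    have h1 := congrArg (e : S →+* S') (congrFun hz a)
    rw [RingHom.map_vecMul] at h1
    rw [← h1]
    simp

theorem emb_lift {R H : Type} [Ring R] [Group H] (K : Subgroup H) (y : MonoidAlgebra R H)
    (hy : ∀ g, y.coeff g ≠ 0 → g ∈ K) :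
    emb R K (MonoidAlgebra.comapDomain K.subtype K.subtype_injective y) = y := by
  refine MonoidAlgebra.mapDomain_comapDomain ?_ K.subtype_injective
  intro g hg
  have h1 : g ∈ K := hy g (Finsupp.mem_support_iff.1 (Finset.mem_coe.1 hg))
  exact ⟨⟨g, h1⟩, rfl⟩

theorem res_dot {R H : Type} [Ring R] [Group H] (K : Subgroup H)
    (hadd : ∀ t (y z : MonoidAlgebra R H), res K t (y + z) = res K t y + res K t z)
    (hmul : ∀ t (y : MonoidAlgebra R H) (s : MonoidAlgebra R K),
      res K t (y * emb R K s) = res K t y * s) {n : ℕ} (t : H) (y : Fin n → MonoidAlgebra R H)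
    (k : Fin n → MonoidAlgebra R K) :
    res K t (y ⬝ᵥ ((emb R K) ∘ k)) = (fun j => res K t (y j)) ⬝ᵥ k := by
  have h0 : res K t (0 : MonoidAlgebra R H) = 0 := by
    have h1 := hadd t 0 0
    rw [add_zero] at h1
    exact left_eq_add.1 h1
  let f : MonoidAlgebra R H →+ MonoidAlgebra R K :=
    { toFun := res K t, map_zero' := h0, map_add' := hadd t }
  show f (∑ j, y j * emb R K (k j)) = ∑ j, res K t (y j) * k j
  rw [map_sum]
  exact Finset.sum_congr rfl fun j _ => hmul t (y j) (k j)

theorem local_fp (hR : SpecRES) {R H : Type} [Ring R] [Group H]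
    (hK : ∀ K : Subgroup H, K.FG → FP (MonoidAlgebra R K)) : FP (MonoidAlgebra R H) := by
  classical
  intro m n L
  let T : Finset H := Finset.univ.biUnion fun a : Fin m =>
    Finset.univ.biUnion fun b : Fin n => (L a b).coeff.support
  let K : Subgroup H := Subgroup.closure (T : Set H)
  have hfg : K.FG := ⟨T, rfl⟩
  have hsupp : ∀ a b g, (L a b).coeff g ≠ 0 → g ∈ K := by
    intro a b g hg
    refine Subgroup.subset_closure ?_
    rw [Finset.mem_coe, Finset.mem_biUnion]
    refine ⟨a, Finset.mem_univ _, ?_⟩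
    rw [Finset.mem_biUnion]
    exact ⟨b, Finset.mem_univ _, Finsupp.mem_support_iff.2 hg⟩
  let L0 : Matrix (Fin m) (Fin n) (MonoidAlgebra R K) := fun a b =>
    MonoidAlgebra.comapDomain K.subtype K.subtype_injective (L a b)
  have hL0 : L0.map (emb R K) = L := by
    ext1 a b
    exact emb_lift K (L a b) (hsupp a b)
  obtain ⟨r, i0, p0, hL, hi, hp, hcl⟩ := hK K hfg m n L0
  obtain ⟨hadd, -, hmul, -, -, -, hCR, hCL, hRF, -, -⟩ := hR R H K
  refine ⟨r, i0.map (emb R K), p0.map (emb R K), ?_, ?_, ?_, ?_⟩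
  · rw [← Matrix.map_mul, ← hL, hL0]
  · intro x hx
    have h1 := hCL Unit m r i0 hi (fun a _ => x a) (by
      ext1 a b
      exact congrFun hx a)
    ext1 a
    exact congrFun (congrFun h1 a) ()
  · intro z hz
    have h1 := hCR Unit r n p0 hp (fun _ a => z a) (by
      ext1 a b
      exact congrFun hz b)
    ext1 a
    exact congrFun (congrFun h1 ()) a
  · intro y hy
    have h0 : ∀ t, res K t (0 : MonoidAlgebra R H) = 0 := by
      intro t
      have h1 := hadd t 0 0
      rw [add_zero] at h1
      exact left_eq_add.1 h1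
    have h1 : ∀ t : H, ∃ z : Fin r → MonoidAlgebra R K, (fun j => res K t (y j)) = z ᵥ* p0 := by
      intro t
      refine hcl _ ?_
      intro k hk
      rw [← res_dot K hadd hmul, hy, h0]
      ext1 a
      rw [← RingHom.map_mulVec, hk]
      simp
    obtain ⟨θ, -, hθ⟩ := hRF 1 r n p0 (fun _ j => y j) Set.univ (fun _ _ _ _ => Set.mem_univ _)
      (fun _ _ _ _ => Set.mem_univ _) (by
        intro t
        obtain ⟨z, hz⟩ := h1 t
        refine ⟨fun _ a => z a, ?_⟩
        ext1 a b
        exact congrFun hz b)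
    refine ⟨θ 0, ?_⟩
    ext1 j
    exact congrFun (congrFun hθ 0) j

end LOCAux

theorem specLoc (h : SpecRES) : SpecLOC :=
  ⟨fun _ _ _ _ e hS => LOCAux.transport e hS, fun _ _ _ _ hK => LOCAux.local_fp h hK⟩

end Pool.Agent.Lib.MP8a3537.UV
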