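import Pool.Agent.Lib.MP_8a3537_gt.UV.Spec

/-!
# PID: (FP) over a principal ideal domain
-/

namespace Pool.Agent.Lib.MP8a3537.UV

open Matrix

namespace PIDAux

section Basic

variable {D F : Type} [CommRing D] [Group F]

theorem map_smul' {k : Type} [CommRing k] (f : D →+* k) (d : D) (x : MonoidAlgebra D F) :
    MonoidAlgebra.mapRingHom F f (d • x) = f d • MonoidAlgebra.mapRingHom F f x := by
  ext g
  simp [MonoidAlgebra.coeff_mapRingHom]

theorem matmap_smul {k : Type} [CommRing k] (f : D →+* k) {m n : Type} (d : D)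
    (M : Matrix m n (MonoidAlgebra D F)) :
    (d • M).map (MonoidAlgebra.mapRingHom F f) = f d • M.map (MonoidAlgebra.mapRingHom F f) := by
  ext i j : 2
  simp only [Matrix.map_apply, Matrix.smul_apply, map_smul']

theorem map_inj {k : Type} [CommRing k] (f : D →+* k) (hf : Function.Injective f) :
    Function.Injective (MonoidAlgebra.mapRingHom F f) := by
  intro x y h
  ext g
  have := congrArg (fun z => z.coeff g) h
  simp only [MonoidAlgebra.coeff_mapRingHom] at this
  exact hf this

theorem matmap_inj {k : Type} [CommRing k] (f : D →+* k) (hf : Function.Injective f)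
    {m n : Type} {M N : Matrix m n (MonoidAlgebra D F)}
    (h : M.map (MonoidAlgebra.mapRingHom F f) = N.map (MonoidAlgebra.mapRingHom F f)) : M = N := by
  exact Matrix.ext fun i j => map_inj f hf (congrFun (congrFun h i) j)

theorem smul_eq_zero' [IsDomain D] {d : D} (hd : d ≠ 0) {x : MonoidAlgebra D F}
    (h : d • x = 0) : x = 0 := by
  ext g
  have := congrArg (fun z => z.coeff g) h
  simp only [MonoidAlgebra.coeff_smul, Finsupp.smul_apply, smul_eq_mul, MonoidAlgebra.coeff_zero,
    Finsupp.zero_apply, mul_eq_zero] at this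
  rcases this with h | h
  · exact absurd h hd
  · simpa using h

theorem matsmul_eq_zero [IsDomain D] {d : D} (hd : d ≠ 0) {m n : Type}
    {M : Matrix m n (MonoidAlgebra D F)} (h : d • M = 0) : M = 0 := by
  exact Matrix.ext fun i j => smul_eq_zero' hd (congrFun (congrFun h i) j)

theorem matsmul_cancel [IsDomain D] {d : D} (hd : d ≠ 0) {m n : Type}
    {M N : Matrix m n (MonoidAlgebra D F)} (h : d • M = d • N) : M = N := by
  rw [← sub_eq_zero]
  apply matsmul_eq_zero hd
  rw [smul_sub, h, sub_self]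

theorem aug_smul (d : D) (x : MonoidAlgebra D F) : aug D F (d • x) = d * aug D F x := by
  unfold aug
  exact _root_.map_smul (MonoidAlgebra.lift D D F (1 : F →* D)) d x

theorem mataug_smul {m n : Type} (d : D) (M : Matrix m n (MonoidAlgebra D F)) :
    (d • M).map (aug D F) = d • M.map (aug D F) := by
  ext i j : 2
  simp only [Matrix.map_apply, Matrix.smul_apply, aug_smul, smul_eq_mul]

/-- Elements with zero reduction modulo `q` are divisible by `q`. -/
theorem dvd_of_map_zero [IsDomain D] {q : D} (hq : q ≠ 0) {k : Type} [CommRing k] (f : D →+* k)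
    (hker : ∀ a, f a = 0 → q ∣ a) (x : MonoidAlgebra D F)
    (h : MonoidAlgebra.mapRingHom F f x = 0) :
    ∃ y : MonoidAlgebra D F, x = q • y := by
  classical
  have h1 : ∀ g, q ∣ x.coeff g := by
    intro g
    have := congrArg (fun z => z.coeff g) h
    simp only [MonoidAlgebra.coeff_mapRingHom, MonoidAlgebra.coeff_zero, Finsupp.zero_apply] at this
    exact hker _ this
  let f : D → D := fun a => if h : q ∣ a then h.choose else 0
  have hf : ∀ a, q ∣ a → a = q * f a := by
    intro a ha
    simp only [f, ha, dif_pos]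
    exact ha.choose_spec
  have hf0 : f 0 = 0 := by
    have := hf 0 (dvd_zero q)
    rcases mul_eq_zero.mp this.symm with h | h
    · exact absurd h hq
    · exact h
  refine ⟨.ofCoeff (x.coeff.mapRange f hf0), ?_⟩
  ext g
  simp only [MonoidAlgebra.coeff_smul, Finsupp.smul_apply, smul_eq_mul, Finsupp.mapRange_apply]
  exact hf _ (h1 g)

/-- Clearing denominators, one element. -/
theorem clear_one (K : Type) [Field K] [Algebra D K] [IsDomain D] [IsFractionRing D K]
    (x : MonoidAlgebra K F) : ∃ c : D, c ≠ 0 ∧ ∃ y : MonoidAlgebra D F,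
      MonoidAlgebra.mapRingHom F (algebraMap D K) y = algebraMap D K c • x := by
  induction x using MonoidAlgebra.induction_linear with
  | zero => exact ⟨1, one_ne_zero, 0, by simp⟩
  | add x y hx hy =>
    obtain ⟨c, hc, x', hx'⟩ := hx
    obtain ⟨d, hd, y', hy'⟩ := hy
    refine ⟨c * d, mul_ne_zero hc hd, d • x' + c • y', ?_⟩
    rw [map_add, map_smul', map_smul', hx', hy', smul_smul, smul_smul, smul_add, map_mul,
      mul_comm (algebraMap D K d)]
  | single g r =>
    obtain ⟨a, b, hb, hr⟩ := IsFractionRing.div_surjective (A := D) r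
    refine ⟨b, nonZeroDivisors.ne_zero hb, MonoidAlgebra.single g a, ?_⟩
    have hb' : algebraMap D K b ≠ 0 := by
      rw [Ne, IsFractionRing.to_map_eq_zero_iff]
      exact nonZeroDivisors.ne_zero hb
    rw [MonoidAlgebra.mapRingHom_single, MonoidAlgebra.smul_single, ← hr, smul_eq_mul,
      mul_div_cancel₀ _ hb']

/-- Clearing denominators, a matrix. -/
theorem clear_mat (K : Type) [Field K] [Algebra D K] [IsDomain D] [IsFractionRing D K]
    {m n : Type} [Fintype m] [Fintype n] (M : Matrix m n (MonoidAlgebra K F)) :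
    ∃ c : D, c ≠ 0 ∧ ∃ N : Matrix m n (MonoidAlgebra D F),
      N.map (MonoidAlgebra.mapRingHom F (algebraMap D K)) = algebraMap D K c • M := by
  classical
  choose c hc y hy using fun i j => clear_one (D := D) K (M i j)
  let C : D := ∏ i, ∏ j, c i j
  have hd : ∀ i j, ∃ e, C = e * c i j := by
    intro i j
    have h1 : c i j ∣ ∏ j, c i j := Finset.dvd_prod_of_mem _ (Finset.mem_univ j)
    have h2 : (∏ j, c i j) ∣ C := Finset.dvd_prod_of_mem (fun i => ∏ j, c i j) (Finset.mem_univ i)
    obtain ⟨e, he⟩ := h1.trans h2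
    exact ⟨e, by rw [he, mul_comm]⟩
  choose e he using hd
  refine ⟨C, ?_, Matrix.of fun i j => e i j • y i j, ?_⟩
  · exact Finset.prod_ne_zero_iff.mpr fun i _ => Finset.prod_ne_zero_iff.mpr fun j _ => hc i j
  · ext i j : 2
    rw [Matrix.map_apply, Matrix.of_apply, map_smul', hy, Matrix.smul_apply, smul_smul, he i j,
      map_mul]

end Basic

section Main

variable {D F : Type} [CommRing D] [Group F]

/-- Over a field: a one-sided inverse up to a scalar gives cancellation. -/
theorem lemF (hL : SpecLFT) {K F : Type} [Field K] [Group F] (hWA : WA K F) {r : ℕ}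
    (h w : Matrix (Fin r) (Fin r) (MonoidAlgebra K F)) (κ : K) (hκ : κ ≠ 0)
    (hw : h * w = κ • (1 : Matrix (Fin r) (Fin r) (MonoidAlgebra K F)))
    (z : Fin r → MonoidAlgebra K F) (hz : z ᵥ* w = 0) : z = 0 := by
  by_contra hne
  obtain ⟨g, hg, j, hj⟩ := hWA r r w z hne hz
  obtain ⟨g', -, -, h2⟩ := hL.1 K F r g hg
  have e1 : (h * g') * (g * w) = κ • (1 : Matrix (Fin r) (Fin r) (MonoidAlgebra K F)) := by
    rw [Matrix.mul_assoc, ← Matrix.mul_assoc g', h2, Matrix.one_mul, hw]
  have e2 := congrArg (fun M => Matrix.det (M.map (aug K F))) e1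
  simp only [Matrix.map_mul, mataug_smul] at e2
  rw [Matrix.det_mul, Matrix.det_smul, Matrix.map_one _ (map_zero _) (map_one _), Matrix.det_one,
    mul_one] at e2
  have e3 : ((g.map (aug K F)) * (w.map (aug K F))).det = 0 := by
    rw [← Matrix.map_mul]
    apply Matrix.det_eq_zero_of_row_eq_zero j
    intro i
    rw [Matrix.map_apply, hj i, map_zero]
  rw [e3, mul_zero] at e2
  exact pow_ne_zero _ hκ e2.symm

variable [IsDomain D]

theorem step (hL : SpecLFT) {k : Type} [Field k] (hWA : WA k F) (f : D →+* k)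
    (hf : Function.Surjective f) {q : D} (hq : q ≠ 0) (hq0 : f q = 0)
    (hker : ∀ a, f a = 0 → q ∣ a) {n r : ℕ} (E : Matrix (Fin n) (Fin n) (MonoidAlgebra D F))
    (p p1 : Matrix (Fin r) (Fin n) (MonoidAlgebra D F))
    (s1 : Matrix (Fin n) (Fin r) (MonoidAlgebra D F))
    (h : Matrix (Fin r) (Fin r) (MonoidAlgebra D F))
    (hpE : p * E = 0) (hhp : h * p = p1) (z : Fin r → MonoidAlgebra D F)
    (y : Fin n → MonoidAlgebra D F) (hy : q • y = z ᵥ* p)
    (hz : (fun i => MonoidAlgebra.mapRingHom F f (z i)) ≠ 0) :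
    ∃ (p' : Matrix (Fin r) (Fin n) (MonoidAlgebra D F))
      (h' : Matrix (Fin r) (Fin r) (MonoidAlgebra D F)), p' * E = 0 ∧ h' * p' = p1 ∧
      ((p * s1).map (aug D F)).det = q * ((p' * s1).map (aug D F)).det := by
  classical
  set ψ := MonoidAlgebra.mapRingHom F f with hψ
  have hrel : (fun i => ψ (z i)) ᵥ* (p.map ψ) = 0 := by
    funext j
    have h1 := RingHom.map_vecMul ψ p z j
    rw [← hy, Pi.smul_apply, map_smul', hq0, zero_smul] at h1
    exact h1.symm
  obtain ⟨gb, hgb, j, hj⟩ := hWA r n (p.map ψ) _ hz hrel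
  obtain ⟨g, hg, hgm⟩ := hL.2.1 D k F f hf r gb hgb
  obtain ⟨g', hg', h1, h2⟩ := hL.1 D F r g hg
  have hdiv : ∀ i, ∃ y', (g * p) j i = q • y' := by
    intro i
    apply dvd_of_map_zero hq f hker
    have := hj i
    rw [← hgm] at this
    have h3 : ((g * p).map ψ) j i = 0 := by
      rw [Matrix.map_mul]
      exact this
    exact h3
  choose y' hy' using hdiv
  let p' : Matrix (Fin r) (Fin n) (MonoidAlgebra D F) := (g * p).updateRow j y'
  let δ : Fin r → MonoidAlgebra D F := Function.update 1 j (q • 1)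
  let Δ : Matrix (Fin r) (Fin r) (MonoidAlgebra D F) := Matrix.diagonal δ
  have hΔ : Δ * p' = g * p := by
    refine Matrix.ext fun i l => ?_
    rw [Matrix.diagonal_mul]
    by_cases hi : i = j
    · subst hi
      simp only [δ, p', Function.update_self, Matrix.updateRow_self]
      rw [smul_mul_assoc, one_mul, hy' l]
    · simp only [δ, p', Function.update_of_ne hi, Matrix.updateRow_ne hi, Pi.one_apply, one_mul]
  have hE' : p' * E = 0 := by
    have h3 : Δ * (p' * E) = 0 := by
      rw [← Matrix.mul_assoc, hΔ, Matrix.mul_assoc, hpE, Matrix.mul_zero]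
    refine Matrix.ext fun i l => ?_
    have h4 := congrFun (congrFun h3 i) l
    rw [Matrix.diagonal_mul] at h4
    by_cases hi : i = j
    · subst hi
      simp only [δ, Function.update_self] at h4
      rw [smul_mul_assoc, one_mul] at h4
      exact smul_eq_zero' hq h4
    · simp only [δ, Function.update_of_ne hi, Pi.one_apply, one_mul] at h4
      exact h4
  refine ⟨p', h * g' * Δ, hE', ?_, ?_⟩
  · rw [Matrix.mul_assoc, hΔ, Matrix.mul_assoc, ← Matrix.mul_assoc g', h2, Matrix.one_mul, hhp]
  · have h5 : p * s1 = g' * (Δ * (p' * s1)) := by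
      rw [← Matrix.mul_assoc Δ, hΔ, Matrix.mul_assoc, ← Matrix.mul_assoc g', h2, Matrix.one_mul]
    rw [h5, Matrix.map_mul, Matrix.map_mul, Matrix.det_mul, Matrix.det_mul, hL.2.2 D F r g' hg',
      one_mul]
    congr 1
    have h6 : Δ.map (aug D F) = Matrix.diagonal (Function.update (1 : Fin r → D) j q) := by
      rw [Matrix.diagonal_map (map_zero _)]
      congr 1
      funext i
      by_cases hi : i = j
      · subst hi
        simp only [δ, Function.update_self, aug_smul, map_one, mul_one]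
      · simp only [δ, Function.update_of_ne hi, Pi.one_apply, map_one]
    rw [h6, Matrix.det_diagonal, Finset.prod_update_of_mem (Finset.mem_univ j)]
    simp

theorem lemE [IsPrincipalIdealRing D] (hL : SpecLFT) (hWA : ∀ (k : Type) [Field k], WA k F)
    {n r : ℕ} (E : Matrix (Fin n) (Fin n) (MonoidAlgebra D F))
    (p1 : Matrix (Fin r) (Fin n) (MonoidAlgebra D F))
    (s1 : Matrix (Fin n) (Fin r) (MonoidAlgebra D F)) (e : D) (he : e ≠ 0)
    (hps : p1 * s1 = e • (1 : Matrix (Fin r) (Fin r) (MonoidAlgebra D F))) (hp1E : p1 * E = 0)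
    (hN : ∀ y : Fin n → MonoidAlgebra D F, y ᵥ* E = 0 → e • y = (y ᵥ* s1) ᵥ* p1) :
    ∃ (p : Matrix (Fin r) (Fin n) (MonoidAlgebra D F))
      (h : Matrix (Fin r) (Fin r) (MonoidAlgebra D F)), p * E = 0 ∧ h * p = p1 ∧
      ∀ y : Fin n → MonoidAlgebra D F, y ᵥ* E = 0 → ∃ z, y = z ᵥ* p := by
  classical
  have hne : ∀ (p : Matrix (Fin r) (Fin n) (MonoidAlgebra D F))
      (h : Matrix (Fin r) (Fin r) (MonoidAlgebra D F)), h * p = p1 →
      ((p * s1).map (aug D F)).det ≠ 0 := by
    intro p h hhp h0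
    have e1 : h * (p * s1) = e • (1 : Matrix (Fin r) (Fin r) (MonoidAlgebra D F)) := by
      rw [← Matrix.mul_assoc, hhp, hps]
    have e2 := congrArg (fun M => Matrix.det (M.map (aug D F))) e1
    simp only [mataug_smul] at e2
    rw [Matrix.map_mul, Matrix.det_mul, Matrix.det_smul, Matrix.map_one _ (map_zero _) (map_one _), Matrix.det_one,
      mul_one, h0, mul_zero] at e2
    exact pow_ne_zero _ he e2.symm
  obtain ⟨_, ⟨p, h, hpE, hhp, rfl⟩, hmin⟩ := (wellFounded_dvdNotUnit (α := D)).has_min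
    {x | ∃ (p : Matrix (Fin r) (Fin n) (MonoidAlgebra D F))
      (h : Matrix (Fin r) (Fin r) (MonoidAlgebra D F)), p * E = 0 ∧ h * p = p1 ∧
      ((p * s1).map (aug D F)).det = x} ⟨_, p1, 1, hp1E, Matrix.one_mul _, rfl⟩
  refine ⟨p, h, hpE, hhp, ?_⟩
  -- primes
  have hprime : ∀ q : D, Prime q → ∀ y : Fin n → MonoidAlgebra D F, y ᵥ* E = 0 →
      ∀ z, q • y = z ᵥ* p → ∃ z', y = z' ᵥ* p := by
    intro q hq y hy z hz
    have : (Ideal.span {q}).IsMaximal :=
      PrincipalIdealRing.isMaximal_of_irreducible hq.irreducible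
    let _ : Field (D ⧸ Ideal.span {q}) := Ideal.Quotient.field _
    have hker : ∀ a, Ideal.Quotient.mk (Ideal.span {q}) a = 0 → q ∣ a := by
      intro a ha
      rw [Ideal.Quotient.eq_zero_iff_mem, Ideal.mem_span_singleton] at ha
      exact ha
    have hq0 : Ideal.Quotient.mk (Ideal.span {q}) q = 0 := by
      rw [Ideal.Quotient.eq_zero_iff_mem, Ideal.mem_span_singleton]
    by_cases hz0 : (fun i => MonoidAlgebra.mapRingHom F (Ideal.Quotient.mk (Ideal.span {q})) (z i))
        = 0
    · have h1 : ∀ i, ∃ z', z i = q • z' := fun i =>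
        dvd_of_map_zero hq.ne_zero _ hker _ (congrFun hz0 i)
      choose z' hz' using h1
      refine ⟨z', ?_⟩
      have h2 : z = q • z' := funext hz'
      rw [h2, Matrix.smul_vecMul] at hz
      funext j
      have h3 := congrFun hz j
      simp only [Pi.smul_apply] at h3
      have h4 : q • (y j - (z' ᵥ* p) j) = 0 := by rw [smul_sub, h3, sub_self]
      exact sub_eq_zero.mp (smul_eq_zero' hq.ne_zero h4)
    · exfalso
      obtain ⟨p', h', hp'E, hh'p', hdet⟩ := step hL (hWA (D ⧸ Ideal.span {q}))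
        (Ideal.Quotient.mk (Ideal.span {q})) Ideal.Quotient.mk_surjective hq.ne_zero hq0 hker
        E p p1 s1 h hpE hhp z y hz hz0
      refine hmin _ ⟨p', h', hp'E, hh'p', rfl⟩ ⟨hne p' h' hh'p', q, hq.not_isUnit, ?_⟩
      rw [hdet, mul_comm]
  have hall : ∀ d : D, d ≠ 0 → ∀ y : Fin n → MonoidAlgebra D F, y ᵥ* E = 0 →
      ∀ z, d • y = z ᵥ* p → ∃ z', y = z' ᵥ* p := by
    intro d
    induction d using UniqueFactorizationMonoid.induction_on_prime with
    | h₁ => exact fun h => absurd rfl h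
    | h₂ u hu =>
      intro _ y _ z hz
      obtain ⟨v, hv⟩ := hu.exists_left_inv
      refine ⟨v • z, ?_⟩
      rw [Matrix.smul_vecMul, ← hz, smul_smul, hv, one_smul]
    | h₃ a q ha hq ih =>
      intro _ y hy z hz
      rw [mul_smul] at hz
      have hay : (a • y) ᵥ* E = 0 := by rw [Matrix.smul_vecMul, hy, smul_zero]
      obtain ⟨z', hz'⟩ := hprime q hq (a • y) hay z hz
      exact ih ha y hy z' hz'
  intro y hy
  refine hall e he y hy ((y ᵥ* s1) ᵥ* h) ?_
  rw [hN y hy, Matrix.vecMul_vecMul _ h, hhp]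

end Main

end PIDAux

open PIDAux in
theorem specPid (hL : SpecLFT) (hF : SpecFLD) : SpecPID := by
  intro D F _ _ _ _ hWA m n L
  let K := FractionRing D
  let φ := MonoidAlgebra.mapRingHom F (algebraMap D K)
  have hinj : Function.Injective (algebraMap D K) := IsFractionRing.injective D K
  have hφ : Function.Injective φ := map_inj _ hinj
  obtain ⟨r, i0, p0, s0, hL0, hps, hi0⟩ := hF K F (hWA K) m n (L.map φ)
  obtain ⟨c, hc, p1, hp1⟩ := clear_mat (D := D) K p0
  obtain ⟨c', hc', s1, hs1⟩ := clear_mat (D := D) K s0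
  obtain ⟨c'', hc'', E, hE⟩ := clear_mat (D := D) K (1 - s0 * p0)
  have hκ : ∀ d : D, d ≠ 0 → algebraMap D K d ≠ 0 := fun d hd h0 =>
    hd (hinj (by rw [h0, map_zero]))
  have hp0E : p0 * (1 - s0 * p0) = 0 := by
    rw [Matrix.mul_sub, Matrix.mul_one, ← Matrix.mul_assoc, hps, Matrix.one_mul, sub_self]
  have hLE : L * E = 0 := by
    apply matmap_inj (algebraMap D K) hinj
    rw [Matrix.map_mul, hE, Matrix.mul_smul]
    change algebraMap D K c'' • (L.map φ * (1 - s0 * p0)) = _
    rw [hL0, Matrix.mul_assoc, hp0E, Matrix.mul_zero, smul_zero, Matrix.map_zero _ (map_zero _)]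
  have hp1E : p1 * E = 0 := by
    apply matmap_inj (algebraMap D K) hinj
    rw [Matrix.map_mul, hE, hp1, Matrix.mul_smul, Matrix.smul_mul, hp0E, smul_zero, smul_zero,
      Matrix.map_zero _ (map_zero _)]
  have hp1s1 : p1 * s1 = (c * c') • (1 : Matrix (Fin r) (Fin r) (MonoidAlgebra D F)) := by
    apply matmap_inj (algebraMap D K) hinj
    rw [Matrix.map_mul, hp1, hs1, Matrix.mul_smul, Matrix.smul_mul, hps, matmap_smul,
      Matrix.map_one _ (map_zero _) (map_one _), smul_smul, map_mul, mul_comm]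
  have hN0 : ∀ y : Fin n → MonoidAlgebra D F, y ᵥ* E = 0 →
      (φ ∘ y) = ((φ ∘ y) ᵥ* s0) ᵥ* p0 := by
    intro y hy
    have h1 : (φ ∘ y) ᵥ* (E.map φ) = 0 := by
      funext j
      rw [← RingHom.map_vecMul, hy]
      exact map_zero φ
    have hE' : E.map φ = algebraMap D K c'' • (1 - s0 * p0) := hE
    rw [hE', Matrix.vecMul_smul] at h1
    have h2 : (φ ∘ y) ᵥ* (1 - s0 * p0) = 0 := by
      funext j
      have h3 := congrFun h1 j
      exact smul_eq_zero' (hκ c'' hc'') h3
    rw [Matrix.vecMul_sub, Matrix.vecMul_one, sub_eq_zero] at h2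
    rw [Matrix.vecMul_vecMul]
    exact h2
  have hN : ∀ y : Fin n → MonoidAlgebra D F, y ᵥ* E = 0 →
      (c * c') • y = (y ᵥ* s1) ᵥ* p1 := by
    intro y hy
    funext j
    apply hφ
    have h1 := congrFun (hN0 y hy) j
    have h2 : φ (((y ᵥ* s1) ᵥ* p1) j) = (((φ ∘ y) ᵥ* (s1.map φ)) ᵥ* (p1.map φ)) j := by
      rw [RingHom.map_vecMul]
      have h3 : (φ ∘ (y ᵥ* s1)) = (φ ∘ y) ᵥ* (s1.map φ) := by
        funext a
        exact RingHom.map_vecMul φ s1 y a
      rw [h3]
    have hs1' : s1.map φ = algebraMap D K c' • s0 := hs1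
    have hp1' : p1.map φ = algebraMap D K c • p0 := hp1
    rw [h2, hs1', hp1', Matrix.vecMul_smul, Matrix.vecMul_smul, Matrix.smul_vecMul, Pi.smul_apply,
      Pi.smul_apply, Pi.smul_apply, ← h1, smul_smul, ← map_mul]
    exact map_smul' (algebraMap D K) (c * c') (y j)
  obtain ⟨p, h, hpE, hhp, hcl⟩ := lemE hL hWA E p1 s1 (c * c') (mul_ne_zero hc hc') hp1s1 hp1E hN
  have hpc : ∀ z : Fin r → MonoidAlgebra D F, z ᵥ* p = 0 → z = 0 := by
    intro z hz
    have h1 : (φ ∘ z) ᵥ* ((p * s1).map φ) = 0 := by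
      funext j
      rw [← RingHom.map_vecMul, ← Matrix.vecMul_vecMul, hz, Matrix.zero_vecMul]
      exact map_zero φ
    have h2 : h.map φ * (p * s1).map φ = algebraMap D K (c * c') •
        (1 : Matrix (Fin r) (Fin r) (MonoidAlgebra K F)) := by
      rw [← Matrix.map_mul, ← Matrix.mul_assoc, hhp, hp1s1]
      have := matmap_smul (F := F) (algebraMap D K) (c * c')
        (1 : Matrix (Fin r) (Fin r) (MonoidAlgebra D F))
      rw [Matrix.map_one _ (map_zero _) (map_one _)] at this
      exact this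
    have h3 := lemF hL (hWA K) (h.map φ) ((p * s1).map φ) _ (hκ _ (mul_ne_zero hc hc')) h2 _ h1
    funext a
    apply hφ
    have := congrFun h3 a
    simpa using this
  have hrow : ∀ a, (L a) ᵥ* E = 0 := by
    intro a
    rw [← Matrix.mul_apply_eq_vecMul, hLE]
    rfl
  choose i hi using fun a => hcl (L a) (hrow a)
  have hLi : L = (Matrix.of i) * p := by
    funext a
    rw [Matrix.mul_apply_eq_vecMul]
    exact hi a
  refine ⟨r, Matrix.of i, p, hLi, ?_, hpc, ?_⟩
  · intro x hx
    let w : Matrix (Fin r) (Fin r) (MonoidAlgebra K F) := p.map φ * s0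
    have hi0w : i0 = (Matrix.of i).map φ * w := by
      have h1 : i0 = L.map φ * s0 := by rw [hL0, Matrix.mul_assoc, hps, Matrix.mul_one]
      rw [h1, hLi, Matrix.map_mul, Matrix.mul_assoc]
    have hhw : h.map φ * w = algebraMap D K c •
        (1 : Matrix (Fin r) (Fin r) (MonoidAlgebra K F)) := by
      have hp1' : p1.map φ = algebraMap D K c • p0 := hp1
      rw [← Matrix.mul_assoc, ← Matrix.map_mul, hhp, hp1', Matrix.smul_mul, hps]
    have hwh : w * h.map φ = algebraMap D K c •
        (1 : Matrix (Fin r) (Fin r) (MonoidAlgebra K F)) := by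
      have h1 : (w * h.map φ - algebraMap D K c •
          (1 : Matrix (Fin r) (Fin r) (MonoidAlgebra K F))) * w = 0 := by
        rw [Matrix.sub_mul, Matrix.mul_assoc, hhw, Matrix.mul_smul, Matrix.mul_one,
          Matrix.smul_mul, Matrix.one_mul, sub_self]
      have h2 : w * h.map φ - algebraMap D K c •
          (1 : Matrix (Fin r) (Fin r) (MonoidAlgebra K F)) = 0 := by
        funext a
        apply lemF hL (hWA K) (h.map φ) w _ (hκ c hc) hhw
        rw [← Matrix.mul_apply_eq_vecMul, h1]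
        rfl
      exact sub_eq_zero.mp h2
    have hx' : (Matrix.of i).map φ *ᵥ (φ ∘ x) = 0 := by
      funext a
      rw [← RingHom.map_mulVec, hx]
      exact map_zero φ
    have h1 : i0 *ᵥ (h.map φ *ᵥ (φ ∘ x)) = 0 := by
      rw [hi0w, ← Matrix.mulVec_mulVec, Matrix.mulVec_mulVec _ w, hwh, Matrix.smul_mulVec,
        Matrix.one_mulVec, Matrix.mulVec_smul, hx', smul_zero]
    have h2 := hi0 _ h1
    have h3 : algebraMap D K c • (φ ∘ x) = 0 := by
      have : (w * h.map φ) *ᵥ (φ ∘ x) = 0 := by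
        rw [← Matrix.mulVec_mulVec, h2, Matrix.mulVec_zero]
      rwa [hwh, Matrix.smul_mulVec, Matrix.one_mulVec] at this
    funext a
    apply hφ
    have := smul_eq_zero' (hκ c hc) (congrFun h3 a)
    simpa using this
  · intro y hy
    apply hcl
    funext j
    have h1 : p *ᵥ (fun a => E a j) = 0 := by
      funext a
      have := congrFun (congrFun hpE a) j
      exact this
    exact hy _ h1

end Pool.Agent.Lib.MP8a3537.UV
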