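import Pool.Agent.Lib.MP_8a3537_gt.UV.Spec

/-!
# The two theorems from the Specs (MP_8a3537_gt, folder UV)
-/

namespace Pool.Agent.Lib.MP8a3537.UV

open Matrix

theorem fp_free (hHTR : SpecHTR) (hWAL : SpecWAL) (hPID : SpecPID) (hLOC : SpecLOC)
    (D K : Type) [CommRing D] [IsDomain D] [IsPrincipalIdealRing D] [Group K]
    (hK : IsFreeGroup K) : FP (MonoidAlgebra D K) := by
  obtain ⟨X, ⟨b⟩⟩ := hK.nonempty_basis
  obtain ⟨ht⟩ := hHTR X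
  exact hLOC.1 _ _ (MonoidAlgebra.mapDomainRingEquiv D b.repr.symm)
    (hPID D (FreeGroup X) fun k _ => hWAL k (FreeGroup X) ht)

theorem specFin (h1 : Thm1) (hTRE : SpecTRE) (hHTR : SpecHTR) (hWAL : SpecWAL) (hPID : SpecPID)
    (hLOC : SpecLOC) : SpecFIN := by
  refine ⟨?_, ?_⟩
  · intro R G V _ _ _ _ T v w hT hact hvw hinv h2 hFP ε n ψ μ χ hψ hμ hχ hnil
    obtain ⟨Yp, Ym, pp⟩ := hTRE G V T v w hT hact hvw hinv h2
    exact h1 R G _ _ _ _ Yp Ym pp hFP ε n ψ μ χ hψ hμ hχ hnil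
  · intro D H _ _ _ _ hH
    exact hLOC.2 D H fun K hK => fp_free hHTR hWAL hPID hLOC D K (hH K hK)

end Pool.Agent.Lib.MP8a3537.UV
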