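import Pool.Agent.Lib.MP_8a3537_gt.UV.Spec

/-!
# UV, module LFT: properties of `GE` (inverse, lifting, augmentation)
-/

namespace Pool.Agent.Lib.MP8a3537.UV

open Matrix

namespace LFTAux

theorem GE_mul {R F : Type} [Ring R] [Group F] {r : ℕ}
    {g h : Matrix (Fin r) (Fin r) (MonoidAlgebra R F)} (hg : GE g) (hh : GE h) : GE (g * h) := by
  induction hg with
  | one => rwa [one_mul]
  | elem i j hij s g _ ih => rw [mul_assoc]; exact GE.elem i j hij s _ ih
  | mono i y g _ ih => rw [mul_assoc]; exact GE.mono i y _ ih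

theorem elem_mul {R F : Type} [Ring R] [Group F] {r : ℕ} (i j : Fin r) (hij : i ≠ j)
    (s t : MonoidAlgebra R F) (hst : s + t = 0) :
    (1 + Matrix.single i j s) * (1 + Matrix.single i j t) = 1 := by
  rw [add_mul, one_mul, mul_add, mul_one, Matrix.single_mul_single_of_ne _ _ _ _ hij.symm, add_zero,
    add_assoc, ← Matrix.single_add, add_comm t s, hst, Matrix.single_zero, add_zero]

theorem mono_mul {R F : Type} [Ring R] [Group F] {r : ℕ} (i : Fin r) (y y' : F) (h : y * y' = 1) :
    (Matrix.diagonal (Function.update 1 i (MonoidAlgebra.single y 1)) :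
        Matrix (Fin r) (Fin r) (MonoidAlgebra R F)) *
      Matrix.diagonal (Function.update 1 i (MonoidAlgebra.single y' 1)) = 1 := by
  rw [Matrix.diagonal_mul_diagonal, ← Matrix.diagonal_one]
  congr 1
  funext k
  by_cases hk : k = i
  · subst hk
    simp [MonoidAlgebra.single_mul_single, h, MonoidAlgebra.one_def]
  · simp [Function.update_of_ne hk]

theorem map_surj {R k F : Type} [Ring R] [Ring k] [Group F] (f : R →+* k)
    (hf : Function.Surjective f) (s : MonoidAlgebra k F) :
    ∃ s', MonoidAlgebra.mapRingHom F f s' = s := by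
  induction s using MonoidAlgebra.induction_linear with
  | zero => exact ⟨0, map_zero _⟩
  | add a b ha hb =>
    obtain ⟨a', rfl⟩ := ha
    obtain ⟨b', rfl⟩ := hb
    exact ⟨a' + b', map_add _ _ _⟩
  | single a c =>
    obtain ⟨c', rfl⟩ := hf c
    exact ⟨MonoidAlgebra.single a c', by simp⟩

theorem map_elem {A B : Type} [Ring A] [Ring B] (φ : A →+* B) {r : ℕ} (i j : Fin r) (s : A)
    (g : Matrix (Fin r) (Fin r) A) :
    ((1 + Matrix.single i j s) * g).map φ = (1 + Matrix.single i j (φ s)) * g.map φ := by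
  rw [← RingHom.mapMatrix_apply, map_mul, map_add, map_one, RingHom.mapMatrix_apply,
    RingHom.mapMatrix_apply, Matrix.map_single]

theorem map_mono {A B : Type} [Ring A] [Ring B] (φ : A →+* B) {r : ℕ} (i : Fin r) (a : A)
    (g : Matrix (Fin r) (Fin r) A) :
    (Matrix.diagonal (Function.update 1 i a) * g).map φ =
      Matrix.diagonal (Function.update 1 i (φ a)) * g.map φ := by
  rw [← RingHom.mapMatrix_apply, map_mul, RingHom.mapMatrix_apply, RingHom.mapMatrix_apply,
    Matrix.diagonal_map (map_zero _)]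
  congr 2
  funext k
  by_cases hk : k = i
  · subst hk
    simp
  · simp [Function.update_of_ne hk]

end LFTAux

open LFTAux in
theorem specLFT : SpecLFT := by
  refine ⟨?_, ?_, ?_⟩
  · intro R F _ _ r g hg
    induction hg with
    | one => exact ⟨1, GE.one, mul_one _, mul_one _⟩
    | elem i j hij s g _ ih =>
      obtain ⟨g', hg', h1, h2⟩ := ih
      refine ⟨g' * (1 + Matrix.single i j (-s)), GE_mul hg' ?_, ?_, ?_⟩
      · have := GE.elem i j hij (-s) (1 : Matrix (Fin r) (Fin r) (MonoidAlgebra R F)) GE.one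
        rwa [mul_one] at this
      · rw [mul_assoc, ← mul_assoc g, h1, one_mul, elem_mul i j hij s (-s) (add_neg_cancel s)]
      · rw [mul_assoc, ← mul_assoc (1 + Matrix.single i j (-s)),
          elem_mul i j hij (-s) s (neg_add_cancel s), one_mul, h2]
    | mono i y g _ ih =>
      obtain ⟨g', hg', h1, h2⟩ := ih
      refine ⟨g' * Matrix.diagonal (Function.update 1 i (MonoidAlgebra.single y⁻¹ 1)),
        GE_mul hg' ?_, ?_, ?_⟩
      · have := GE.mono i y⁻¹ (1 : Matrix (Fin r) (Fin r) (MonoidAlgebra R F)) GE.one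
        rwa [mul_one] at this
      · rw [mul_assoc, ← mul_assoc g, h1, one_mul, mono_mul i y y⁻¹ (mul_inv_cancel y)]
      · rw [mul_assoc, ← mul_assoc (Matrix.diagonal (Function.update 1 i
          (MonoidAlgebra.single y⁻¹ 1))), mono_mul i y⁻¹ y (inv_mul_cancel y), one_mul, h2]
  · intro R k F _ _ _ f hf r g hg
    induction hg with
    | one =>
      refine ⟨1, GE.one, ?_⟩
      rw [← RingHom.mapMatrix_apply, map_one]
    | elem i j hij s g _ ih =>
      obtain ⟨g', hg', rfl⟩ := ih
      obtain ⟨s', rfl⟩ := map_surj f hf s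
      exact ⟨_, GE.elem i j hij s' g' hg', map_elem _ _ _ _ _⟩
    | mono i y g _ ih =>
      obtain ⟨g', hg', rfl⟩ := ih
      refine ⟨_, GE.mono i y g' hg', ?_⟩
      rw [map_mono]
      simp
  · intro R F _ _ r g hg
    induction hg with
    | one => rw [← RingHom.mapMatrix_apply, map_one, Matrix.det_one]
    | elem i j hij s g _ ih =>
      rw [map_elem, Matrix.det_mul, ih, mul_one]
      exact Matrix.det_transvection_of_ne i j hij _
    | mono i y g _ ih =>
      rw [map_mono, Matrix.det_mul, ih, mul_one, Matrix.det_diagonal,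
        Finset.prod_update_of_mem (Finset.mem_univ i)]
      simp [aug]

end Pool.Agent.Lib.MP8a3537.UV
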